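import Mathlib

namespace Pool.Agent.Helper15.DDes

open Finset

/-- The set of double descents of the permutation `w` (one-line notation `w_1, ..., w_n` with
`w_k = w ⟨k - 1, _⟩`): all `i` with `2 ≤ i ≤ n - 1` and `w_{i-1} > w_i > w_{i+1}`. -/
def DDes {n : ℕ} (w : Equiv.Perm (Fin n)) : Finset ℕ :=
  (Finset.range n).filter fun i => ∃ (_ : 1 < i) (h2 : i < n),
    w ⟨i - 1, by omega⟩ < w ⟨i - 2, by omega⟩ ∧ w ⟨i, h2⟩ < w ⟨i - 1, by omega⟩

/-- The number of permutations of `[n]` with double descent set `I`. -/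
def dd (I : Finset ℕ) (n : ℕ) : ℕ :=
  (Finset.univ.filter fun w : Equiv.Perm (Fin n) => DDes w = I).card

/-- Sanity check: the example of the problem file. -/
lemma dd_example : dd {2} 4 = 3 := by decide +kernel

end Pool.Agent.Helper15.DDes
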