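import Pool.Agent.Helper15.DDesDefs

namespace Pool.Agent.Helper15.DDes

open Finset Filter Topology

/-- `w` has a descent between the (0-indexed) positions `k` and `k+1`. -/
def desc {n : ℕ} (w : Equiv.Perm (Fin n)) (k : ℕ) : Prop :=
  ∃ h : k + 1 < n, w ⟨k + 1, h⟩ < w ⟨k, (Nat.lt_succ_self k).trans h⟩

lemma mem_DDes {n : ℕ} (w : Equiv.Perm (Fin n)) (i : ℕ) :
    i ∈ DDes w ↔ 2 ≤ i ∧ desc w (i - 2) ∧ desc w (i - 1) := by
  unfold DDes desc
  rw [Finset.mem_filter, Finset.mem_range]
  constructor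
  · rintro ⟨h0, h1, h2, h3, h4⟩
    refine ⟨h1, ⟨by omega, ?_⟩, ⟨by omega, ?_⟩⟩
    · convert h3 using 3
      all_goals omega
    · convert h4 using 3
      all_goals omega
  · rintro ⟨h1, ⟨h2, h3⟩, ⟨h4, h5⟩⟩
    refine ⟨by omega, h1, by omega, ?_, ?_⟩
    · convert h3 using 3
      all_goals omega
    · convert h5 using 3
      all_goals omega

/-- No double descent from (0-indexed) position `p` on. -/
def noDD {n : ℕ} (w : Equiv.Perm (Fin n)) (p : ℕ) : Prop :=
  ∀ k, p ≤ k → ¬ (desc w k ∧ desc w (k + 1))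

section glue

variable {p q : ℕ}

lemma compl_card (S : {S : Finset (Fin (p + q)) // S.card = p}) : (S.1)ᶜ.card = q := by
  rw [Finset.card_compl, S.2, Fintype.card_fin]; omega

/-- Glue two standardised patterns along a set of values. -/
noncomputable def glueFun (S : {S : Finset (Fin (p + q)) // S.card = p}) (σ : Equiv.Perm (Fin p))
    (τ : Equiv.Perm (Fin q)) : Fin (p + q) → Fin (p + q) :=
  fun k => Fin.addCases (fun a => S.1.orderEmbOfFin S.2 (σ a))
    (fun b => (S.1)ᶜ.orderEmbOfFin (compl_card S) (τ b)) k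

lemma glueFun_left (S : {S : Finset (Fin (p + q)) // S.card = p}) (σ : Equiv.Perm (Fin p))
    (τ : Equiv.Perm (Fin q)) (a : Fin p) :
    glueFun S σ τ (Fin.castAdd q a) = S.1.orderEmbOfFin S.2 (σ a) := by
  simp [glueFun]

lemma glueFun_right (S : {S : Finset (Fin (p + q)) // S.card = p}) (σ : Equiv.Perm (Fin p))
    (τ : Equiv.Perm (Fin q)) (b : Fin q) :
    glueFun S σ τ (Fin.natAdd p b) = (S.1)ᶜ.orderEmbOfFin (compl_card S) (τ b) := by
  simp [glueFun]

lemma glueFun_inj (S : {S : Finset (Fin (p + q)) // S.card = p}) (σ : Equiv.Perm (Fin p))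
    (τ : Equiv.Perm (Fin q)) : Function.Injective (glueFun S σ τ) := by
  intro x y hxy
  induction x using Fin.addCases with
  | left a =>
    induction y using Fin.addCases with
    | left b =>
      rw [glueFun_left, glueFun_left] at hxy
      rw [σ.injective ((S.1.orderEmbOfFin S.2).injective hxy)]
    | right b =>
      rw [glueFun_left, glueFun_right] at hxy
      have h1 := Finset.orderEmbOfFin_mem S.1 S.2 (σ a)
      have h2 := Finset.orderEmbOfFin_mem (S.1)ᶜ (compl_card S) (τ b)
      rw [← hxy, Finset.mem_compl] at h2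
      exact absurd h1 h2
  | right a =>
    induction y using Fin.addCases with
    | left b =>
      rw [glueFun_left, glueFun_right] at hxy
      have h1 := Finset.orderEmbOfFin_mem S.1 S.2 (σ b)
      have h2 := Finset.orderEmbOfFin_mem (S.1)ᶜ (compl_card S) (τ a)
      rw [hxy, Finset.mem_compl] at h2
      exact absurd h1 h2
    | right b =>
      rw [glueFun_right, glueFun_right] at hxy
      rw [τ.injective (((S.1)ᶜ.orderEmbOfFin (compl_card S)).injective hxy)]

noncomputable def glue (x : {S : Finset (Fin (p + q)) // S.card = p} × Equiv.Perm (Fin p) × Equiv.Perm (Fin q)) :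
    Equiv.Perm (Fin (p + q)) :=
  Equiv.ofBijective _ (Finite.injective_iff_bijective.1 (glueFun_inj x.1 x.2.1 x.2.2))

lemma glue_left (x : {S : Finset (Fin (p + q)) // S.card = p} × Equiv.Perm (Fin p) × Equiv.Perm (Fin q))
    (a : Fin p) : glue x (Fin.castAdd q a) = x.1.1.orderEmbOfFin x.1.2 (x.2.1 a) :=
  glueFun_left _ _ _ _

lemma glue_right (x : {S : Finset (Fin (p + q)) // S.card = p} × Equiv.Perm (Fin p) × Equiv.Perm (Fin q))
    (b : Fin q) : glue x (Fin.natAdd p b) = (x.1.1)ᶜ.orderEmbOfFin (compl_card x.1) (x.2.2 b) :=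
  glueFun_right _ _ _ _

lemma glue_injective : Function.Injective (glue (p := p) (q := q)) := by
  rintro ⟨S, σ, τ⟩ ⟨S', σ', τ'⟩ h
  have hS : S = S' := by
    apply Subtype.ext
    ext z
    constructor
    · intro hz
      obtain ⟨a, ha⟩ : ∃ a, S.1.orderEmbOfFin S.2 a = z := by
        have : z ∈ Set.range (S.1.orderEmbOfFin S.2) := by
          rw [Finset.range_orderEmbOfFin]; exact hz
        exact this
      have h1 := glue_left (S, σ, τ) (σ.symm a)
      have h2 := glue_left (S', σ', τ') (σ.symm a)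
      simp only [Equiv.apply_symm_apply] at h1 h2
      rw [← ha, ← h1, h, h2]
      exact Finset.orderEmbOfFin_mem _ _ _
    · intro hz
      obtain ⟨a, ha⟩ : ∃ a, S'.1.orderEmbOfFin S'.2 a = z := by
        have : z ∈ Set.range (S'.1.orderEmbOfFin S'.2) := by
          rw [Finset.range_orderEmbOfFin]; exact hz
        exact this
      have h1 := glue_left (S', σ', τ') (σ'.symm a)
      have h2 := glue_left (S, σ, τ) (σ'.symm a)
      simp only [Equiv.apply_symm_apply] at h1 h2
      rw [← ha, ← h1, ← h, h2]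
      exact Finset.orderEmbOfFin_mem _ _ _
  subst hS
  have hσ : σ = σ' := by
    ext a
    have h1 := glue_left (S, σ, τ) a
    have h2 := glue_left (S, σ', τ') a
    rw [h] at h1
    have := (S.1.orderEmbOfFin S.2).injective (h1.symm.trans h2)
    exact congrArg Fin.val this
  have hτ : τ = τ' := by
    ext a
    have h1 := glue_right (S, σ, τ) a
    have h2 := glue_right (S, σ', τ') a
    rw [h] at h1
    have := ((S.1)ᶜ.orderEmbOfFin (compl_card S)).injective (h1.symm.trans h2)
    exact congrArg Fin.val this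
  rw [hσ, hτ]

lemma glue_bijective : Function.Bijective (glue (p := p) (q := q)) := by
  rw [Fintype.bijective_iff_injective_and_card]
  refine ⟨glue_injective, ?_⟩
  rw [Fintype.card_prod, Fintype.card_prod, Fintype.card_perm, Fintype.card_perm, Fintype.card_perm,
    Fintype.card_fin, Fintype.card_fin, Fintype.card_fin, Fintype.card_finset_len, Fintype.card_fin]
  have := Nat.add_choose_mul_factorial_mul_factorial p q
  rw [← mul_assoc, Nat.choose_symm_add]
  exact this

lemma desc_glue_left (x : {S : Finset (Fin (p + q)) // S.card = p} × Equiv.Perm (Fin p) × Equiv.Perm (Fin q))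
    (k : ℕ) (hk : k + 1 < p) : desc (glue x) k ↔ desc x.2.1 k := by
  have h1 := glue_left x ⟨k, by omega⟩
  have h2 := glue_left x ⟨k + 1, hk⟩
  unfold desc
  constructor
  · rintro ⟨h, h'⟩
    refine ⟨hk, ?_⟩
    have e1 : (Fin.castAdd q ⟨k, by omega⟩ : Fin (p + q)) = ⟨k, by omega⟩ := rfl
    have e2 : (Fin.castAdd q ⟨k + 1, hk⟩ : Fin (p + q)) = ⟨k + 1, by omega⟩ := rfl
    rw [e1] at h1
    rw [e2] at h2
    rw [h1, h2] at h'
    exact (x.1.1.orderEmbOfFin x.1.2).lt_iff_lt.1 h'
  · rintro ⟨h, h'⟩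
    refine ⟨by omega, ?_⟩
    have e1 : (Fin.castAdd q ⟨k, by omega⟩ : Fin (p + q)) = ⟨k, by omega⟩ := rfl
    have e2 : (Fin.castAdd q ⟨k + 1, hk⟩ : Fin (p + q)) = ⟨k + 1, by omega⟩ := rfl
    rw [e1] at h1
    rw [e2] at h2
    rw [h1, h2]
    exact (x.1.1.orderEmbOfFin x.1.2).lt_iff_lt.2 h'

lemma desc_glue_right (x : {S : Finset (Fin (p + q)) // S.card = p} × Equiv.Perm (Fin p) × Equiv.Perm (Fin q))
    (k : ℕ) : desc (glue x) (p + k) ↔ desc x.2.2 k := by
  unfold desc
  constructor
  · rintro ⟨h, h'⟩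
    have h1 := glue_right x ⟨k, by omega⟩
    have h2 := glue_right x ⟨k + 1, by omega⟩
    refine ⟨by omega, ?_⟩
    have e1 : (Fin.natAdd p ⟨k, by omega⟩ : Fin (p + q)) = ⟨p + k, by omega⟩ := rfl
    have e2 : (Fin.natAdd p ⟨k + 1, by omega⟩ : Fin (p + q)) = ⟨p + k + 1, by omega⟩ := rfl
    rw [e1] at h1
    rw [e2] at h2
    rw [h1, h2] at h'
    exact ((x.1.1)ᶜ.orderEmbOfFin (compl_card x.1)).lt_iff_lt.1 h'
  · rintro ⟨h, h'⟩
    have h1 := glue_right x ⟨k, by omega⟩
    have h2 := glue_right x ⟨k + 1, by omega⟩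
    refine ⟨by omega, ?_⟩
    have e1 : (Fin.natAdd p ⟨k, by omega⟩ : Fin (p + q)) = ⟨p + k, by omega⟩ := rfl
    have e2 : (Fin.natAdd p ⟨k + 1, by omega⟩ : Fin (p + q)) = ⟨p + k + 1, by omega⟩ := rfl
    rw [e1] at h1
    rw [e2] at h2
    rw [h1, h2]
    exact ((x.1.1)ᶜ.orderEmbOfFin (compl_card x.1)).lt_iff_lt.2 h'

/-- The product formula for concatenated patterns. -/
lemma card_glue (R : Equiv.Perm (Fin (p + q)) → Prop) (A : Equiv.Perm (Fin p) → Prop)
    (B : Equiv.Perm (Fin q) → Prop) [DecidablePred R] [DecidablePred A] [DecidablePred B] (h : ∀ x, R (glue x) ↔ A x.2.1 ∧ B x.2.2) :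
    (univ.filter R).card = (p + q).choose p * (univ.filter A).card * (univ.filter B).card := by
  have h1 : (univ.filter R).card =
      ((univ : Finset {S : Finset (Fin (p + q)) // S.card = p}) ×ˢ ((univ.filter A) ×ˢ (univ.filter B))).card := by
    symm
    refine Finset.card_bij (fun x _ => glue x) ?_ ?_ ?_
    · intro x hx
      simp only [Finset.mem_product, Finset.mem_univ, Finset.mem_filter, true_and] at hx ⊢
      exact (h x).2 hx
    · intro x _ y _ hxy
      exact glue_injective hxy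
    · intro w hw
      obtain ⟨x, rfl⟩ := glue_bijective.2 w
      simp only [Finset.mem_product, Finset.mem_univ, Finset.mem_filter, true_and] at hw ⊢
      exact ⟨x, (h x).1 hw, rfl⟩
  rw [h1, Finset.card_product, Finset.card_product, Finset.card_univ, Fintype.card_finset_len,
    Fintype.card_fin, mul_assoc]

end glue

/-! ### The counting numbers -/

section count

variable (P : (ℕ → Prop) → Prop) (j : ℕ)

open Classical in
/-- Prefix condition, descents at `j, ..., j+k-1`, no double descent from `j+k+1` on. -/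
noncomputable def cc (k n : ℕ) : ℕ :=
  (univ.filter fun w : Equiv.Perm (Fin n) =>
    P (desc w) ∧ (∀ l < k, desc w (j + l)) ∧ noDD w (j + k + 1)).card

open Classical in
/-- The same with no descent at `j+k`. -/
noncomputable def yy (k n : ℕ) : ℕ :=
  (univ.filter fun w : Equiv.Perm (Fin n) =>
    P (desc w) ∧ (∀ l < k, desc w (j + l)) ∧ ¬ desc w (j + k) ∧ noDD w (j + k + 1)).card

open Classical in
noncomputable def bb (k : ℕ) : ℕ :=
  (univ.filter fun w : Equiv.Perm (Fin (j + k + 1)) =>
    P (desc w) ∧ (∀ l < k, desc w (j + l))).card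

open Classical in
noncomputable def aa (n : ℕ) : ℕ := (univ.filter fun w : Equiv.Perm (Fin n) => noDD w 0).card

lemma cc_eq (k n : ℕ) : cc P j k n = yy P j k n + yy P j (k + 1) n + yy P j (k + 2) n := by
  classical
  unfold cc yy
  rw [← Finset.card_union_of_disjoint, ← Finset.card_union_of_disjoint]
  · congr 1
    ext w
    simp only [Finset.mem_filter, Finset.mem_univ, true_and, Finset.mem_union]
    constructor
    · rintro ⟨h1, h2, h3⟩
      by_cases hk : desc w (j + k)
      · have h2' : ∀ l < k + 1, desc w (j + l) := by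
          intro l hl
          rcases Nat.lt_succ_iff_lt_or_eq.1 hl with h | rfl
          · exact h2 l h
          · exact hk
        by_cases hk1 : desc w (j + (k + 1))
        · right
          have h2'' : ∀ l < k + 2, desc w (j + l) := by
            intro l hl
            rcases Nat.lt_succ_iff_lt_or_eq.1 hl with h | rfl
            · exact h2' l h
            · exact hk1
          refine ⟨h1, h2'', ?_, ?_⟩
          · intro hk2
            exact h3 (j + k + 1) le_rfl ⟨hk1, hk2⟩
          · intro m hm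
            exact h3 m (by omega)
        · left; right
          refine ⟨h1, h2', hk1, ?_⟩
          intro m hm
          exact h3 m (by omega)
      · left; left
        exact ⟨h1, h2, hk, h3⟩
    · rintro ((⟨h1, h2, h3, h4⟩ | ⟨h1, h2, h3, h4⟩) | ⟨h1, h2, h3, h4⟩)
      · exact ⟨h1, h2, h4⟩
      · refine ⟨h1, fun l hl => h2 l (by omega), ?_⟩
        intro m hm
        rcases Nat.lt_or_ge m (j + (k + 1) + 1) with h | h
        · have : m = j + (k + 1) := by omega
          rintro ⟨h5, _⟩
          rw [this] at h5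
          exact h3 h5
        · exact h4 m h
      · refine ⟨h1, fun l hl => h2 l (by omega), ?_⟩
        intro m hm
        rcases Nat.lt_or_ge m (j + (k + 2) + 1) with h | h
        · rintro ⟨h5, h6⟩
          have : m = j + (k + 2) ∨ m + 1 = j + (k + 2) := by omega
          rcases this with h7 | h7
          · rw [h7] at h5; exact h3 h5
          · rw [h7] at h6; exact h3 h6
        · exact h4 m h
  · rw [Finset.disjoint_left]
    intro w hw hw'
    simp only [Finset.mem_filter, Finset.mem_univ, true_and, Finset.mem_union] at hw hw'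
    rcases hw with hw | hw
    · exact hw.2.2.1 (hw'.2.1 k (by omega))
    · exact hw.2.2.1 (hw'.2.1 (k + 1) (by omega))
  · rw [Finset.disjoint_left]
    intro w hw hw'
    simp only [Finset.mem_filter, Finset.mem_univ, true_and] at hw hw'
    exact hw.2.2.1 (hw'.2.1 k (by omega))

lemma yy_zero (k n : ℕ) (h : n < j + k + 1) (hk : 1 ≤ k) : yy P j k n = 0 := by
  classical
  unfold yy
  rw [Finset.card_eq_zero, Finset.filter_eq_empty_iff]
  rintro w _ ⟨_, h2, _⟩
  obtain ⟨h3, _⟩ := h2 (k - 1) (by omega)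
  omega

lemma cc_zero (k n : ℕ) (h : n < j + k + 1) (hk : 1 ≤ k) : cc P j k n = 0 := by
  classical
  unfold cc
  rw [Finset.card_eq_zero, Finset.filter_eq_empty_iff]
  rintro w _ ⟨_, h2, _⟩
  obtain ⟨h3, _⟩ := h2 (k - 1) (by omega)
  omega

variable (hP : ∀ D D' : ℕ → Prop, (∀ k < j, D k ↔ D' k) → (P D ↔ P D'))

include hP in
lemma cc_formula (k q : ℕ) :
    cc P j k (j + k + 1 + q) = (j + k + 1 + q).choose (j + k + 1) * bb P j k * aa q := by
  classical
  unfold cc bb aa
  apply card_glue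
  intro x
  have hl : ∀ l < j + k, desc (glue x) l ↔ desc x.2.1 l := fun l hl => desc_glue_left x l (by omega)
  have hr : ∀ l, desc (glue x) (j + k + 1 + l) ↔ desc x.2.2 l := desc_glue_right x
  have e1 : P (desc (glue x)) ↔ P (desc x.2.1) := hP _ _ (fun l hl' => hl l (by omega))
  have e2 : (∀ l < k, desc (glue x) (j + l)) ↔ (∀ l < k, desc x.2.1 (j + l)) := by
    constructor
    · intro h l hl'
      exact (hl _ (by omega)).1 (h l hl')
    · intro h l hl'
      exact (hl _ (by omega)).2 (h l hl')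
  have e3 : noDD (glue x) (j + k + 1) ↔ noDD x.2.2 0 := by
    unfold noDD
    constructor
    · intro h m _ hm
      apply h (j + k + 1 + m) (by omega)
      exact ⟨(hr m).2 hm.1, (hr (m + 1)).2 hm.2⟩
    · intro h m hm hm'
      obtain ⟨t, rfl⟩ := Nat.exists_eq_add_of_le hm
      exact h t (Nat.zero_le _) ⟨(hr t).1 hm'.1, (hr (t + 1)).1 hm'.2⟩
  rw [e1, e2, e3, and_assoc]

end count

/-! ### Values and estimates of `bb` -/

lemma aa_zero : aa 0 = 1 := by
  classical
  unfold aa
  rw [Finset.filter_true_of_mem]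
  · simp
  · intro w _ k _ h
    obtain ⟨⟨h1, _⟩, _⟩ := h
    omega

lemma aa_one : aa 1 = 1 := by
  classical
  unfold aa
  rw [Finset.filter_true_of_mem]
  · simp
  · intro w _ k _ h
    obtain ⟨⟨h1, _⟩, _⟩ := h
    omega

lemma aa_le (n : ℕ) : aa n ≤ n.factorial := by
  classical
  unfold aa
  refine (Finset.card_filter_le _ _).trans ?_
  rw [Finset.card_univ, Fintype.card_perm, Fintype.card_fin]

lemma bb_le (P : (ℕ → Prop) → Prop) (j k : ℕ) : bb P j k ≤ (j + k + 1).factorial := by
  classical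
  unfold bb
  refine (Finset.card_filter_le _ _).trans ?_
  rw [Finset.card_univ, Fintype.card_perm, Fintype.card_fin]

lemma swap_le (P : (ℕ → Prop) → Prop) (j : ℕ)
    (hP : ∀ D D' : ℕ → Prop, (∀ k < j, D k ↔ D' k) → (P D ↔ P D')) (k : ℕ) (hk : 1 ≤ k) :
    2 * bb P j (k + 1) ≤ (j + k + 2) * bb P j k := by
  classical
  have h1 := cc_formula P j hP k 1
  rw [aa_one, mul_one, Nat.choose_succ_self_right] at h1
  have h2 : (j + k + 2) * bb P j k = cc P j k (j + k + 1 + 1) := h1.symm
  rw [h2]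
  unfold cc bb
  set Z := univ.filter fun w : Equiv.Perm (Fin (j + (k + 1) + 1)) =>
    P (desc w) ∧ (∀ l < k + 1, desc w (j + l)) with hZ
  set W := univ.filter fun w : Equiv.Perm (Fin (j + k + 1 + 1)) =>
    P (desc w) ∧ (∀ l < k, desc w (j + l)) ∧ noDD w (j + k + 1) with hW
  set x : Fin (j + k + 1 + 1) := ⟨j + k, by omega⟩ with hx
  set y : Fin (j + k + 1 + 1) := ⟨j + k + 1, by omega⟩ with hy
  have hxy : x ≠ y := by
    intro h
    have := congrArg Fin.val h
    simp only [hx, hy] at this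
    omega
  have hno : ∀ w : Equiv.Perm (Fin (j + k + 1 + 1)), noDD w (j + k + 1) := by
    rintro w m hm ⟨⟨h, _⟩, _⟩
    omega
  have hZW : Z ⊆ W := by
    intro w hw
    rw [hZ, Finset.mem_filter] at hw
    rw [hW, Finset.mem_filter]
    exact ⟨Finset.mem_univ _, hw.2.1, fun l hl => hw.2.2 l (by omega), hno w⟩
  set Z' := Z.image (fun w => w * Equiv.swap x y) with hZ'
  have hcard : Z'.card = Z.card :=
    Finset.card_image_of_injective _ (fun a b h => mul_right_cancel h)
  -- descents before the swapped pair are unchanged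
  have hds : ∀ (w : Equiv.Perm (Fin (j + k + 1 + 1))), ∀ m, m + 1 < j + k →
      (desc (w * Equiv.swap x y) m ↔ desc w m) := by
    intro w m hm
    unfold desc
    constructor
    · rintro ⟨h, h'⟩
      refine ⟨h, ?_⟩
      rw [Equiv.Perm.mul_apply, Equiv.Perm.mul_apply, Equiv.swap_apply_of_ne_of_ne,
        Equiv.swap_apply_of_ne_of_ne] at h'
      · exact h'
      all_goals
        intro h''
        have := congrArg Fin.val h''
        simp only [hx, hy] at this
        omega
    · rintro ⟨h, h'⟩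
      refine ⟨h, ?_⟩
      rw [Equiv.Perm.mul_apply, Equiv.Perm.mul_apply, Equiv.swap_apply_of_ne_of_ne,
        Equiv.swap_apply_of_ne_of_ne]
      · exact h'
      all_goals
        intro h''
        have := congrArg Fin.val h''
        simp only [hx, hy] at this
        omega
  have hZ'W : Z' ⊆ W := by
    intro w' hw'
    rw [hZ', Finset.mem_image] at hw'
    obtain ⟨w, hw, rfl⟩ := hw'
    rw [hZ, Finset.mem_filter] at hw
    obtain ⟨_, h3, h4⟩ := hw
    rw [hW, Finset.mem_filter]
    refine ⟨Finset.mem_univ _, ?_, ?_, hno _⟩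
    · refine (hP _ _ ?_).2 h3
      intro m hm
      exact hds w m (by omega)
    · intro l hl
      rcases Nat.lt_or_ge (j + l + 1) (j + k) with h | h
      · exact (hds w (j + l) h).2 (h4 l (by omega))
      · have hl' : l = k - 1 := by omega
        subst hl'
        obtain ⟨h5, h6⟩ := h4 (k - 1) (by omega)
        obtain ⟨h7, h8⟩ := h4 k (by omega)
        refine ⟨h5, ?_⟩
        have e1 : (⟨j + (k - 1) + 1, h5⟩ : Fin (j + k + 1 + 1)) = x := by
          apply Fin.ext; simp only [hx]; omega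
        have e2 : (⟨j + k + 1, h7⟩ : Fin (j + k + 1 + 1)) = y := rfl
        have e3 : (⟨j + k, (Nat.lt_succ_self _).trans h7⟩ : Fin (j + k + 1 + 1)) = x := rfl
        rw [e1] at h6 ⊢
        have h8' : w y < w x := h8
        rw [Equiv.Perm.mul_apply, Equiv.Perm.mul_apply, Equiv.swap_apply_left,
          Equiv.swap_apply_of_ne_of_ne]
        · exact h8'.trans h6
        all_goals
          intro h''
          have := congrArg Fin.val h''
          simp only [hx, hy] at this
          omega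
  have hdisj : Disjoint Z Z' := by
    rw [Finset.disjoint_left]
    intro w' hw1 hw2
    rw [hZ', Finset.mem_image] at hw2
    obtain ⟨w, hw, rfl⟩ := hw2
    rw [hZ, Finset.mem_filter] at hw hw1
    obtain ⟨h5, h6⟩ := hw.2.2 k (by omega)
    obtain ⟨h7, h8⟩ := hw1.2.2 k (by omega)
    have h6' : w y < w x := h6
    have h8' : (w * Equiv.swap x y) y < (w * Equiv.swap x y) x := h8
    rw [Equiv.Perm.mul_apply, Equiv.Perm.mul_apply, Equiv.swap_apply_left,
      Equiv.swap_apply_right] at h8'
    exact lt_asymm h6' h8'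
  have : Z.card + Z'.card ≤ W.card := by
    rw [← Finset.card_union_of_disjoint hdisj]
    exact Finset.card_le_card (Finset.union_subset hZW hZ'W)
  rw [hcard] at this
  calc 2 * Z.card = Z.card + Z.card := by ring
    _ ≤ W.card := this

/-- There is exactly one decreasing permutation. -/
lemma bb_true (k : ℕ) : bb (fun _ => True) 0 k = 1 := by
  classical
  unfold bb
  rw [Finset.card_eq_one]
  refine ⟨Fin.revPerm, ?_⟩
  ext w
  simp only [Finset.mem_filter, Finset.mem_univ, true_and, Finset.mem_singleton]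
  have hk : 0 + k + 1 = k + 1 := by omega
  revert w
  rw [hk]
  intro w
  constructor
  · intro h
    have hanti : StrictAnti w := by
      rw [Fin.strictAnti_iff_succ_lt]
      intro i
      obtain ⟨h1, h2⟩ := h i.val i.isLt
      have e1 : (⟨0 + i.val + 1, h1⟩ : Fin (k + 1)) = i.succ := Fin.ext (by simp)
      have e2 : (⟨0 + i.val, (Nat.lt_succ_self _).trans h1⟩ : Fin (k + 1)) = i.castSucc :=
        Fin.ext (by simp)
      rw [e1, e2] at h2
      exact h2
    have hmono : StrictMono (fun i => w (Fin.rev i)) := by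
      intro a b hab
      exact hanti (Fin.rev_lt_rev.2 hab)
    have hid : (fun i => w (Fin.rev i)) = id := by
      rw [← StrictMono.range_inj hmono strictMono_id]
      rw [Set.range_id, Set.range_eq_univ.2]
      intro b
      exact ⟨Fin.rev (w.symm b), by simp⟩
    apply Equiv.ext
    intro i
    have := congrFun hid (Fin.rev i)
    simpa using this
  · rintro rfl l hl
    refine ⟨by omega, ?_⟩
    rw [Fin.revPerm_apply, Fin.revPerm_apply, Fin.rev_lt_rev]
    rw [Fin.lt_def]
    simp

/-- The prefix condition: no double descent strictly inside the first `j+1` entries, and a descent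
at the end of them. -/
def pre (j : ℕ) (D : ℕ → Prop) : Prop := (∀ k, k + 2 ≤ j → ¬ (D k ∧ D (k + 1))) ∧ D (j - 1)

lemma pre_dep (j : ℕ) (hj : 1 ≤ j) (D D' : ℕ → Prop) (h : ∀ k < j, D k ↔ D' k) : pre j D ↔ pre j D' := by
  unfold pre
  rw [h (j - 1) (by omega)]
  refine and_congr_left fun _ => ?_
  constructor
  · intro h1 k hk h2
    exact h1 k hk ⟨(h k (by omega)).2 h2.1, (h (k + 1) (by omega)).2 h2.2⟩
  · intro h1 k hk h2
    exact h1 k hk ⟨(h k (by omega)).1 h2.1, (h (k + 1) (by omega)).1 h2.2⟩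

lemma bb_pos (j : ℕ) (hj : 1 ≤ j) : 0 < bb (pre j) j 1 := by
  classical
  unfold bb
  rw [Finset.card_pos]
  have hinj : Function.Injective (fun x : Fin (j + 1 + 1) =>
      (if h : x.val < j then (⟨x.val + 2, by omega⟩ : Fin (j + 1 + 1)) else ⟨j + 1 - x.val, by omega⟩)) := by
    intro x y hxy
    have hx := x.isLt
    have hy := y.isLt
    apply Fin.ext
    simp only at hxy
    split_ifs at hxy with h1 h2 h2
    · have := congrArg Fin.val hxy; simp only at this; omega
    · have := congrArg Fin.val hxy; simp only at this; omega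
    · have := congrArg Fin.val hxy; simp only at this; omega
    · have := congrArg Fin.val hxy; simp only at this; omega
  refine ⟨Equiv.ofBijective _ (Finite.injective_iff_bijective.1 hinj), ?_⟩
  rw [Finset.mem_filter]
  refine ⟨Finset.mem_univ _, ⟨?_, ?_⟩, ?_⟩
  · rintro k hk ⟨⟨h, h'⟩, _⟩
    simp only [Equiv.ofBijective_apply] at h'
    rw [dif_pos (by omega), dif_pos (by omega)] at h'
    have := Fin.lt_def.1 h'
    simp only at this
    omega
  · refine ⟨by omega, ?_⟩
    simp only [Equiv.ofBijective_apply]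
    rw [dif_neg (by omega), dif_pos (by omega)]
    rw [Fin.lt_def]
    simp only
    omega
  · intro l hl
    have : l = 0 := by omega
    subst this
    refine ⟨by omega, ?_⟩
    simp only [Equiv.ofBijective_apply]
    rw [dif_neg (by omega), dif_neg (by omega)]
    rw [Fin.lt_def]
    simp only
    omega

lemma dd_eq (j : ℕ) (hj : 1 ≤ j) (n : ℕ) : dd {j + 1} n = yy (pre j) j 1 n := by
  classical
  unfold dd yy
  congr 1
  ext w
  simp only [Finset.mem_filter, Finset.mem_univ, true_and]
  constructor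
  · intro h
    have hmem : ∀ i, (2 ≤ i ∧ desc w (i - 2) ∧ desc w (i - 1)) ↔ i = j + 1 := by
      intro i
      rw [← mem_DDes, h, Finset.mem_singleton]
    have h0 := (hmem (j + 1)).2 rfl
    have hk : ∀ k, desc w k → desc w (k + 1) → k + 2 = j + 1 := by
      intro k h1 h2
      exact (hmem (k + 2)).1 ⟨by omega, by simpa using h1, by simpa using h2⟩
    have e1 : j + 1 - 2 = j - 1 := by omega
    have e2 : j + 1 - 1 = j := by omega
    rw [e1, e2] at h0
    refine ⟨⟨?_, h0.2.1⟩, ?_, ?_, ?_⟩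
    · rintro k hk' ⟨h1, h2⟩
      have := hk k h1 h2
      omega
    · intro l hl
      have : l = 0 := by omega
      subst this
      simpa using h0.2.2
    · intro h1
      have := hk j h0.2.2 h1
      omega
    · rintro k hk' ⟨h1, h2⟩
      have := hk k h1 h2
      omega
  · rintro ⟨⟨h1, h2⟩, h3, h4, h5⟩
    have h3' : desc w j := by simpa using h3 0 (by omega)
    ext i
    rw [mem_DDes, Finset.mem_singleton]
    constructor
    · rintro ⟨h6, h7, h8⟩
      by_contra hne
      rcases Nat.lt_or_ge i (j + 1) with h | h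
      · apply h1 (i - 2) (by omega)
        refine ⟨h7, ?_⟩
        have : i - 2 + 1 = i - 1 := by omega
        rw [this]; exact h8
      · have h9 : j + 2 ≤ i := by omega
        rcases Nat.lt_or_ge i (j + 4) with h10 | h10
        · have : i = j + 2 ∨ i = j + 3 := by omega
          rcases this with rfl | rfl
          · exact h4 (by simpa using h8)
          · exact h4 (by simpa using h7)
        · apply h5 (i - 2) (by omega)
          refine ⟨h7, ?_⟩
          have : i - 2 + 1 = i - 1 := by omega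
          rw [this]; exact h8
    · rintro rfl
      refine ⟨by omega, ?_, ?_⟩
      · have e1 : j + 1 - 2 = j - 1 := by omega
        rw [e1]; exact h2
      · simpa using h3'

lemma aa_eq (n : ℕ) : aa n = yy (fun _ => True) 0 0 n + yy (fun _ => True) 0 1 n := by
  classical
  unfold aa yy
  rw [← Finset.card_union_of_disjoint]
  · congr 1
    ext w
    simp only [Finset.mem_filter, Finset.mem_univ, true_and, Finset.mem_union]
    constructor
    · intro h
      by_cases h0 : desc w 0
      · right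
        refine ⟨?_, ?_, ?_⟩
        · intro l hl
          have : l = 0 := by omega
          subst this; exact h0
        · intro h1
          exact h 0 le_rfl ⟨h0, h1⟩
        · intro m _
          exact h m (Nat.zero_le _)
      · left
        refine ⟨?_, h0, ?_⟩
        · intro l hl; omega
        · intro m _
          exact h m (Nat.zero_le _)
    · rintro (⟨_, h2, h3⟩ | ⟨h1, h2, h3⟩)
      · rintro m _ ⟨h4, h5⟩
        rcases Nat.eq_zero_or_pos m with rfl | hm
        · exact h2 h4
        · exact h3 m (by omega) ⟨h4, h5⟩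
      · rintro m _ ⟨h4, h5⟩
        rcases Nat.lt_or_ge m 2 with hm | hm
        · have : m = 0 ∨ m = 1 := by omega
          rcases this with rfl | rfl
          · exact h2 h5
          · exact h2 h4
        · exact h3 m (by omega) ⟨h4, h5⟩
  · rw [Finset.disjoint_left]
    intro w hw hw'
    simp only [Finset.mem_filter, Finset.mem_univ, true_and] at hw hw'
    exact hw.2.1 (hw'.1 0 (by omega))

/-! ### Algebra of the recurrences -/

/-- The 3-periodic sequence `1, -1, 0`. -/
noncomputable def e (t : ℕ) : ℝ := if t % 3 = 0 then 1 else if t % 3 = 1 then -1 else 0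

lemma abs_e_le (t : ℕ) : |e t| ≤ 1 := by
  unfold e; split_ifs <;> simp

lemma tele (y c : ℕ → ℝ) (hc : ∀ k, c k = y k + y (k + 1) + y (k + 2)) (k T : ℕ) :
    ∑ t ∈ range (3 * T), e t * c (k + t) = y k - y (k + 3 * T) := by
  induction T with
  | zero => simp
  | succ T ih =>
    have h3 : 3 * (T + 1) = 3 * T + 1 + 1 + 1 := by ring
    rw [h3, Finset.sum_range_succ, Finset.sum_range_succ, Finset.sum_range_succ, ih]
    have e0 : e (3 * T) = 1 := by unfold e; rw [if_pos (by omega)]
    have e1 : e (3 * T + 1) = -1 := by unfold e; rw [if_neg (by omega), if_pos (by omega)]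
    have e2 : e (3 * T + 1 + 1) = 0 := by unfold e; rw [if_neg (by omega), if_neg (by omega)]
    rw [e0, e1, e2, hc (k + 3 * T), hc (k + (3 * T + 1))]
    have a1 : k + (3 * T + 1) = k + 3 * T + 1 := by ring
    have a2 : k + (3 * T + 1) + 1 = k + 3 * T + 2 := by ring
    have a3 : k + (3 * T + 1) + 2 = k + (3 * T + 1 + 1 + 1) := by ring
    rw [a3, a2, a1]
    ring

noncomputable def al (n : ℕ) : ℝ := (aa n : ℝ) / (n.factorial : ℝ)

noncomputable def be (P : (ℕ → Prop) → Prop) (j k : ℕ) : ℝ := (bb P j k : ℝ) / ((j + k + 1).factorial : ℝ)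

lemma al_nonneg (n : ℕ) : 0 ≤ al n := by unfold al; positivity

lemma be_nonneg (P : (ℕ → Prop) → Prop) (j k : ℕ) : 0 ≤ be P j k := by unfold be; positivity

lemma cc_div (P : (ℕ → Prop) → Prop) (j : ℕ)
    (hP : ∀ D D' : ℕ → Prop, (∀ k < j, D k ↔ D' k) → (P D ↔ P D')) (k q : ℕ) :
    (cc P j k (j + k + 1 + q) : ℝ) / ((j + k + 1 + q).factorial : ℝ) = be P j k * al q := by
  rw [cc_formula P j hP, be, al]
  have h := Nat.add_choose_mul_factorial_mul_factorial (j + k + 1) q
  rw [← Nat.choose_symm_add] at h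
  have h' : ((j + k + 1 + q).factorial : ℝ) =
      ((j + k + 1 + q).choose (j + k + 1) : ℝ) * ((j + k + 1).factorial : ℝ) * (q.factorial : ℝ) := by
    exact_mod_cast h.symm
  have hc : ((j + k + 1 + q).choose (j + k + 1) : ℝ) ≠ 0 := by
    have : 0 < (j + k + 1 + q).choose (j + k + 1) := Nat.choose_pos (by omega)
    positivity
  rw [h']
  have h1 : ((j + k + 1).factorial : ℝ) ≠ 0 := by positivity
  have h2 : (q.factorial : ℝ) ≠ 0 := by positivity
  push_cast
  field_simp

lemma eta_formula (P : (ℕ → Prop) → Prop) (j : ℕ)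
    (hP : ∀ D D' : ℕ → Prop, (∀ k < j, D k ↔ D' k) → (P D ↔ P D')) (N : ℕ) :
    (yy P j 1 (j + 2 + N) : ℝ) / ((j + 2 + N).factorial : ℝ) =
      ∑ t ∈ range (N + 1), e t * be P j (1 + t) * al (N - t) := by
  set n := j + 2 + N with hn
  have h1 := tele (fun k => (yy P j k n : ℝ) / (n.factorial : ℝ)) (fun k => (cc P j k n : ℝ) / (n.factorial : ℝ))
    (by intro k; rw [cc_eq]; push_cast; ring) 1 (N + 1)
  beta_reduce at h1
  rw [yy_zero P j (1 + 3 * (N + 1)) n (by omega) (by omega)] at h1
  simp only [Nat.cast_zero, zero_div, sub_zero] at h1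
  rw [← h1]
  symm
  have hsub : range (N + 1) ⊆ range (3 * (N + 1)) := by
    intro x hx; rw [Finset.mem_range] at hx ⊢; omega
  rw [← Finset.sum_subset hsub]
  · apply Finset.sum_congr rfl
    intro t ht
    rw [Finset.mem_range] at ht
    have hn' : n = j + (1 + t) + 1 + (N - t) := by omega
    rw [hn', cc_div P j hP, mul_assoc]
  · intro t _ ht
    rw [Finset.mem_range, not_lt] at ht
    rw [cc_zero P j (1 + t) n (by omega) (by omega)]
    simp

lemma al_rec (n : ℕ) (hn : 1 ≤ n) :
    ∑ t ∈ range (n + 1), e t / (t.factorial : ℝ) * al (n - t) = 0 := by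
  set Tr : (ℕ → Prop) → Prop := fun _ => True with hTr
  have hP : ∀ D D' : ℕ → Prop, (∀ k < 0, D k ↔ D' k) → (Tr D ↔ Tr D') := fun _ _ _ => Iff.rfl
  set Y : ℕ → ℝ := fun k => match k with
    | 0 => 0
    | k + 1 => (yy Tr 0 k n : ℝ) with hY
  set C : ℕ → ℝ := fun k => match k with
    | 0 => (aa n : ℝ)
    | k + 1 => (cc Tr 0 k n : ℝ) with hC
  have hCY : ∀ k, C k = Y k + Y (k + 1) + Y (k + 2) := by
    intro k
    cases k with
    | zero =>
      simp only [hC, hY]
      rw [aa_eq n]; push_cast; ring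
    | succ k =>
      simp only [hC, hY]
      rw [cc_eq]; push_cast; ring
  have h1 := tele Y C hCY 0 (n + 1)
  have hY0 : Y 0 = 0 := rfl
  have hYT : Y (0 + 3 * (n + 1)) = 0 := by
    have : 0 + 3 * (n + 1) = (3 * n + 2) + 1 := by ring
    rw [this]
    simp only [hY]
    rw [yy_zero Tr 0 _ n (by omega) (by omega)]
    simp
  rw [hY0, hYT, sub_zero] at h1
  have hsub : range (n + 1) ⊆ range (3 * (n + 1)) := by
    intro x hx; rw [Finset.mem_range] at hx ⊢; omega
  rw [← Finset.sum_subset hsub] at h1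
  · have h2 : ∀ t ∈ range (n + 1), e t / (t.factorial : ℝ) * al (n - t) =
        (1 / (n.factorial : ℝ)) * (e t * C (0 + t)) := by
      intro t ht
      rw [Finset.mem_range] at ht
      have hCt : C (0 + t) = (n.choose t : ℝ) * (aa (n - t) : ℝ) := by
        rw [zero_add]
        cases t with
        | zero => simp [hC]
        | succ k =>
          simp only [hC]
          have h3 := cc_formula Tr 0 hP k (n - (k + 1))
          have h4 : 0 + k + 1 + (n - (k + 1)) = n := by omega
          rw [h4, bb_true k, mul_one] at h3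
          have h5 : 0 + k + 1 = k + 1 := by omega
          rw [h5] at h3
          rw [h3]; push_cast; ring
      rw [hCt, al]
      have h6 := Nat.choose_mul_factorial_mul_factorial (n := n) (k := t) (by omega)
      have h6' : (n.factorial : ℝ) = (n.choose t : ℝ) * (t.factorial : ℝ) * ((n - t).factorial : ℝ) := by
        exact_mod_cast h6.symm
      have hc : (n.choose t : ℝ) ≠ 0 := by
        have : 0 < n.choose t := Nat.choose_pos (by omega)
        positivity
      rw [h6']
      have h7 : (t.factorial : ℝ) ≠ 0 := by positivity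
      have h8 : ((n - t).factorial : ℝ) ≠ 0 := by positivity
      field_simp
    rw [Finset.sum_congr rfl h2, ← Finset.mul_sum, h1, mul_zero]
  · intro t _ ht
    rw [Finset.mem_range, not_lt] at ht
    have : C (0 + t) = 0 := by
      rw [zero_add]
      obtain ⟨k, rfl⟩ : ∃ k, t = k + 1 := ⟨t - 1, by omega⟩
      simp only [hC]
      rw [cc_zero Tr 0 k n (by omega) (by omega)]
      simp
    rw [this, mul_zero]

/-! ### Analysis -/

lemma conv_tendsto (u r : ℕ → ℝ) (hu : Summable fun t => |u t|) (R : ℝ) (hr : Tendsto r atTop (𝓝 R)) :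
    Tendsto (fun n => ∑ t ∈ range (n + 1), u t * r (n - t)) atTop (𝓝 ((∑' t, u t) * R)) := by
  obtain ⟨K, hK⟩ : ∃ K, ∀ n, |r n| ≤ K := by
    obtain ⟨K, hK⟩ := (Metric.isBounded_range_of_tendsto r hr).exists_norm_le
    exact ⟨K, fun n => hK (r n) ⟨n, rfl⟩⟩
  have h1 : Tendsto (fun n => ∑' t, (if t ≤ n then u t * r (n - t) else 0)) atTop (𝓝 (∑' t, u t * R)) := by
    refine tendsto_tsum_of_dominated_convergence (bound := fun t => |u t| * K) (hu.mul_right K) ?_ ?_
    · intro t
      have h2 : Tendsto (fun n => u t * r (n - t)) atTop (𝓝 (u t * R)) :=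
        (hr.comp (tendsto_sub_atTop_nat t)).const_mul (u t)
      refine h2.congr' ?_
      filter_upwards [eventually_ge_atTop t] with n hn
      rw [if_pos hn]
    · refine Eventually.of_forall fun n t => ?_
      split_ifs
      · rw [Real.norm_eq_abs, abs_mul]
        exact mul_le_mul_of_nonneg_left (hK _) (abs_nonneg _)
      · rw [norm_zero]
        exact mul_nonneg (abs_nonneg _) ((abs_nonneg _).trans (hK 0))
  rw [tsum_mul_right] at h1
  refine h1.congr fun n => ?_
  rw [tsum_eq_sum (s := range (n + 1))]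
  · apply Finset.sum_congr rfl
    intro t ht
    rw [Finset.mem_range] at ht
    rw [if_pos (by omega)]
  · intro t ht
    rw [Finset.mem_range] at ht
    rw [if_neg (by omega)]

noncomputable def dc (t : ℕ) : ℝ := e t / (t.factorial : ℝ)

lemma abs_dc_le (t : ℕ) : |dc t| ≤ 1 / (t.factorial : ℝ) := by
  unfold dc
  rw [abs_div, abs_of_pos (by positivity : (0 : ℝ) < (t.factorial : ℝ))]
  gcongr
  exact abs_e_le t

lemma term_le (x : ℝ) (hx : 0 ≤ x) (t : ℕ) : |dc t * x ^ t| ≤ x ^ t / (t.factorial : ℝ) := by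
  rw [abs_mul, abs_of_nonneg (pow_nonneg hx t)]
  calc |dc t| * x ^ t ≤ 1 / (t.factorial : ℝ) * x ^ t :=
        mul_le_mul_of_nonneg_right (abs_dc_le t) (pow_nonneg hx t)
    _ = _ := by ring

lemma summable_D (x : ℝ) (hx : 0 ≤ x) : Summable fun t => dc t * x ^ t := by
  apply Summable.of_abs
  exact Summable.of_nonneg_of_le (fun _ => abs_nonneg _) (fun t => term_le x hx t)
    (Real.summable_pow_div_factorial x)

lemma fact_tail (x : ℝ) (hx : 0 ≤ x) (hx' : x ≤ 5 / 4) (K : ℕ) (hK : 2 ≤ K) (t : ℕ) :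
    x ^ (t + K) / ((t + K).factorial : ℝ) ≤ x ^ K / (K.factorial : ℝ) * (1 / 2) ^ t := by
  induction t with
  | zero => simp
  | succ t ih =>
    have h1 : x ^ (t + 1 + K) / ((t + 1 + K).factorial : ℝ) =
        (x ^ (t + K) / ((t + K).factorial : ℝ)) * (x / ((t + K + 1 : ℕ) : ℝ)) := by
      have : t + 1 + K = (t + K) + 1 := by ring
      rw [this, Nat.factorial_succ, pow_succ]
      push_cast
      have h2 : ((t + K).factorial : ℝ) ≠ 0 := by positivity
      have h3 : ((t : ℝ) + K + 1) ≠ 0 := by positivity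
      field_simp
    rw [h1, pow_succ, ← mul_assoc]
    apply mul_le_mul ih _ (by positivity) (by positivity)
    rw [div_le_div_iff₀ (by positivity) (by norm_num)]
    have : (2 : ℝ) ≤ (K : ℝ) := by exact_mod_cast hK
    push_cast
    have ht : (0 : ℝ) ≤ (t : ℝ) := by positivity
    nlinarith

noncomputable def DD (x : ℝ) : ℝ := ∑' t, dc t * x ^ t

lemma tail (x : ℝ) (hx : 0 ≤ x) (hx' : x ≤ 5 / 4) (K : ℕ) (hK : 2 ≤ K) :
    |DD x - ∑ t ∈ range K, dc t * x ^ t| ≤ 2 * (x ^ K / (K.factorial : ℝ)) := by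
  have h1 := (summable_D x hx).sum_add_tsum_nat_add K
  have h2 : DD x - ∑ t ∈ range K, dc t * x ^ t = ∑' t, dc (t + K) * x ^ (t + K) := by
    unfold DD; linarith
  rw [h2]
  have hg : HasSum (fun t : ℕ => x ^ K / (K.factorial : ℝ) * (1 / 2 : ℝ) ^ t) (x ^ K / (K.factorial : ℝ) * 2) := by
    exact HasSum.mul_left _ hasSum_geometric_two
  have h3 : ‖∑' t, dc (t + K) * x ^ (t + K)‖ ≤ x ^ K / (K.factorial : ℝ) * 2 := by
    apply tsum_of_norm_bounded hg
    intro t
    rw [Real.norm_eq_abs]
    exact (term_le x hx (t + K)).trans (fact_tail x hx hx' K hK t)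
  rw [Real.norm_eq_abs] at h3
  linarith

lemma continuousOn_DD : ContinuousOn DD (Set.Icc 0 (5 / 4)) := by
  have h : ContinuousOn (fun x : ℝ => ∑' t : ℕ, (fun (t : ℕ) (x : ℝ) => dc t * x ^ t) t x)
      (Set.Icc 0 (5 / 4)) := by
    apply continuousOn_tsum (u := fun t : ℕ => (5 / 4 : ℝ) ^ t / (t.factorial : ℝ))
    · intro t
      fun_prop
    · exact Real.summable_pow_div_factorial _
    · intro t x hx
      rw [Real.norm_eq_abs]
      refine (term_le x hx.1 t).trans ?_
      gcongr
      · exact hx.1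
      · exact hx.2
  exact h

lemma exists_root : ∃ ρ : ℝ, 6 / 5 ≤ ρ ∧ ρ ≤ 61 / 50 ∧ DD ρ = 0 := by
  have h1 := tail (6 / 5) (by norm_num) (by norm_num) 8 (by norm_num)
  have h2 := tail (61 / 50) (by norm_num) (by norm_num) 8 (by norm_num)
  have hs : ∀ x : ℝ, ∑ t ∈ range 8, dc t * x ^ t = 1 - x + x ^ 3 / 6 - x ^ 4 / 24 + x ^ 6 / 720 - x ^ 7 / 5040 := by
    intro x
    have e0 : e 0 = 1 := by unfold e; norm_num
    have e1 : e 1 = -1 := by unfold e; norm_num
    have e2 : e 2 = 0 := by unfold e; norm_num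
    have e3 : e 3 = 1 := by unfold e; norm_num
    have e4 : e 4 = -1 := by unfold e; norm_num
    have e5 : e 5 = 0 := by unfold e; norm_num
    have e6 : e 6 = 1 := by unfold e; norm_num
    have e7 : e 7 = -1 := by unfold e; norm_num
    have f0 : ((0 : ℕ).factorial : ℝ) = 1 := by norm_num [Nat.factorial]
    have f1 : ((1 : ℕ).factorial : ℝ) = 1 := by norm_num [Nat.factorial]
    have f3 : ((3 : ℕ).factorial : ℝ) = 6 := by norm_num [Nat.factorial]
    have f4 : ((4 : ℕ).factorial : ℝ) = 24 := by norm_num [Nat.factorial]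
    have f6 : ((6 : ℕ).factorial : ℝ) = 720 := by norm_num [Nat.factorial]
    have f7 : ((7 : ℕ).factorial : ℝ) = 5040 := by norm_num [Nat.factorial]
    rw [Finset.sum_range_succ, Finset.sum_range_succ, Finset.sum_range_succ, Finset.sum_range_succ,
      Finset.sum_range_succ, Finset.sum_range_succ, Finset.sum_range_succ, Finset.sum_range_succ,
      Finset.sum_range_zero]
    unfold dc
    rw [e0, e1, e2, e3, e4, e5, e6, e7, f0, f1, f3, f4, f6, f7]
    ring
  rw [hs, abs_le] at h1 h2
  have hf : ((8 : ℕ).factorial : ℝ) = 40320 := by norm_num [Nat.factorial]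
  rw [hf] at h1 h2
  norm_num at h1 h2
  have hcont : ContinuousOn DD (Set.Icc (6 / 5) (61 / 50)) :=
    continuousOn_DD.mono (Set.Icc_subset_Icc (by norm_num) (by norm_num))
  have h3 := intermediate_value_Icc' (by norm_num : (6 / 5 : ℝ) ≤ 61 / 50) hcont
  have h4 : (0 : ℝ) ∈ Set.Icc (DD (61 / 50)) (DD (6 / 5)) := by
    constructor
    · linarith [h2.2]
    · linarith [h1.1]
  obtain ⟨ρ, hρ, h5⟩ := h3 h4
  exact ⟨ρ, hρ.1, hρ.2, h5⟩

section root

variable (ρ : ℝ)

/-- The partial sums of the denominator at `ρ`. -/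
noncomputable def ps (k : ℕ) : ℝ := ∑ t ∈ range (k + 1), dc t * ρ ^ t

variable (h1 : 6 / 5 ≤ ρ) (h2 : ρ ≤ 61 / 50) (h0 : DD ρ = 0)

include h1 h2 h0 in
lemma ps_tail (k : ℕ) (hk : 1 ≤ k) : |ps ρ k| ≤ 2 * (ρ ^ (k + 1) / ((k + 1).factorial : ℝ)) := by
  have := tail ρ (by linarith) (by linarith) (k + 1) (by omega)
  rw [h0, zero_sub, abs_neg] at this
  exact this

include h1 h2 in
lemma fact_small (k : ℕ) : 2 * (ρ ^ (k + 5) / ((k + 5).factorial : ℝ)) ≤ 22 / 25 / 2 ^ (k + 4) := by
  induction k with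
  | zero =>
    have hf : ((0 + 5).factorial : ℝ) = 120 := by norm_num [Nat.factorial]
    rw [hf]
    have : ρ ^ (0 + 5) ≤ (61 / 50) ^ 5 := by
      rw [zero_add]
      exact pow_le_pow_left₀ (by linarith) h2 5
    norm_num at this ⊢
    linarith
  | succ k ih =>
    have h3 : ρ ^ (k + 1 + 5) / ((k + 1 + 5).factorial : ℝ) =
        (ρ ^ (k + 5) / ((k + 5).factorial : ℝ)) * (ρ / ((k + 6 : ℕ) : ℝ)) := by
      have : k + 1 + 5 = (k + 5) + 1 := by ring
      rw [this, Nat.factorial_succ, pow_succ]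
      push_cast
      have h2 : ((k + 5).factorial : ℝ) ≠ 0 := by positivity
      have h3 : ((k : ℝ) + 5 + 1) = (k : ℝ) + 6 := by ring
      have h4 : ((k : ℝ) + 6) ≠ 0 := by positivity
      rw [h3]
      field_simp
    have h4 : ρ / ((k + 6 : ℕ) : ℝ) ≤ 1 / 2 := by
      rw [div_le_div_iff₀ (by positivity) (by norm_num)]
      push_cast
      have ht : (0 : ℝ) ≤ (k : ℝ) := by positivity
      linarith
    have h5 : 0 ≤ ρ ^ (k + 5) / ((k + 5).factorial : ℝ) := by
      have : 0 ≤ ρ := by linarith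
      positivity
    rw [h3]
    calc 2 * (ρ ^ (k + 5) / ((k + 5).factorial : ℝ) * (ρ / ((k + 6 : ℕ) : ℝ)))
        ≤ 2 * (ρ ^ (k + 5) / ((k + 5).factorial : ℝ) * (1 / 2)) := by
          gcongr
      _ = (2 * (ρ ^ (k + 5) / ((k + 5).factorial : ℝ))) * (1 / 2) := by ring
      _ ≤ (22 / 25 / 2 ^ (k + 4)) * (1 / 2) := by gcongr
      _ = 22 / 25 / 2 ^ (k + 1 + 4) := by
          have : k + 1 + 4 = (k + 4) + 1 := by ring
          rw [this, pow_succ (2 : ℝ) (k + 4), div_mul_eq_div_div]
          ring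

include h1 h2 h0 in
lemma ps_bound (k : ℕ) : |ps ρ (k + 1)| ≤ 22 / 25 / 2 ^ (k + 1) := by
  have e0 : e 0 = 1 := by unfold e; norm_num
  have e1 : e 1 = -1 := by unfold e; norm_num
  have e2 : e 2 = 0 := by unfold e; norm_num
  have e3 : e 3 = 1 := by unfold e; norm_num
  have f3 : ((3 : ℕ).factorial : ℝ) = 6 := by norm_num [Nat.factorial]
  rcases Nat.lt_or_ge k 3 with hk | hk
  · interval_cases k
    · have : ps ρ (0 + 1) = 1 - ρ := by
        unfold ps dc
        simp [Finset.sum_range_succ, e0, e1]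
        ring
      rw [this, abs_le]
      constructor <;> norm_num <;> linarith
    · have : ps ρ (1 + 1) = 1 - ρ := by
        unfold ps dc
        simp [Finset.sum_range_succ, e0, e1, e2]
        ring
      rw [this, abs_le]
      constructor <;> norm_num <;> linarith
    · have : ps ρ (2 + 1) = 1 - ρ + ρ ^ 3 / 6 := by
        unfold ps dc
        simp [Finset.sum_range_succ, e0, e1, e2, e3, f3]
        ring
      have h5 : ρ ^ 3 ≤ (61 / 50) ^ 3 := pow_le_pow_left₀ (by linarith) h2 3
      have h6 : (6 / 5) ^ 3 ≤ ρ ^ 3 := pow_le_pow_left₀ (by norm_num) h1 3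
      rw [this, abs_le]
      norm_num at h5 h6
      constructor <;> norm_num <;> linarith
  · obtain ⟨m, rfl⟩ : ∃ m, k = m + 3 := ⟨k - 3, by omega⟩
    refine (ps_tail ρ h1 h2 h0 (m + 3 + 1) (by omega)).trans ?_
    exact fact_small ρ h1 h2 m

lemma ps_zero : ps ρ 0 = 1 := by
  have e0 : e 0 = 1 := by unfold e; norm_num
  unfold ps dc
  simp [e0]

noncomputable def rr (n : ℕ) : ℝ := al n * ρ ^ n

open PowerSeries in
lemma ps_rr (n : ℕ) : ∑ t ∈ range (n + 1), ps ρ t * rr ρ (n - t) = 1 := by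
  set A : ℝ⟦X⟧ := PowerSeries.mk (rr ρ)
  set Dp : ℝ⟦X⟧ := PowerSeries.mk (fun t => dc t * ρ ^ t)
  set M : ℝ⟦X⟧ := PowerSeries.mk 1
  have hDA : Dp * A = 1 := by
    ext n
    rw [PowerSeries.coeff_mul, Finset.Nat.sum_antidiagonal_eq_sum_range_succ_mk]
    simp only [Dp, A, PowerSeries.coeff_mk, PowerSeries.coeff_one]
    rcases Nat.eq_zero_or_pos n with rfl | hn
    · have e0 : e 0 = 1 := by unfold e; norm_num
      simp [dc, rr, al, aa_zero, e0]
    · rw [if_neg (by omega)]
      have := al_rec n hn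
      have h3 : ∀ t ∈ range (n + 1), dc t * ρ ^ t * rr ρ (n - t) = (e t / (t.factorial : ℝ) * al (n - t)) * ρ ^ n := by
        intro t ht
        rw [Finset.mem_range] at ht
        unfold dc rr
        have : ρ ^ n = ρ ^ t * ρ ^ (n - t) := by rw [← pow_add]; congr 1; omega
        rw [this]; ring
      rw [Finset.sum_congr rfl h3, ← Finset.sum_mul, this, zero_mul]
  have hS : Dp * M = PowerSeries.mk (ps ρ) := by
    ext n
    rw [PowerSeries.coeff_mul, Finset.Nat.sum_antidiagonal_eq_sum_range_succ_mk]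
    simp only [Dp, M, PowerSeries.coeff_mk, Pi.one_apply, mul_one, ps]
  have hSA : PowerSeries.mk (ps ρ) * A = M := by
    rw [← hS, mul_right_comm, hDA, one_mul]
  have := congrArg (PowerSeries.coeff n) hSA
  rw [PowerSeries.coeff_mul, Finset.Nat.sum_antidiagonal_eq_sum_range_succ_mk] at this
  simpa only [A, M, PowerSeries.coeff_mk, Pi.one_apply] using this

/-- Increments of the normalised counts. -/
noncomputable def gg (n : ℕ) : ℝ := match n with
  | 0 => rr ρ 0
  | n + 1 => rr ρ (n + 1) - rr ρ n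

lemma gg_sum (n : ℕ) : ∑ t ∈ range (n + 1), gg ρ t = rr ρ n := by
  induction n with
  | zero => simp [gg]
  | succ n ih => rw [Finset.sum_range_succ, ih]; simp [gg]

lemma ps_gg (n : ℕ) : ∑ t ∈ range (n + 2), ps ρ t * gg ρ (n + 1 - t) = 0 := by
  have h3 := ps_rr ρ (n + 1)
  have h4 := ps_rr ρ n
  have h5 : ∑ t ∈ range (n + 2), ps ρ t * gg ρ (n + 1 - t) =
      ∑ t ∈ range (n + 1 + 1), ps ρ t * rr ρ (n + 1 - t) - ∑ t ∈ range (n + 1), ps ρ t * rr ρ (n - t) := by
    rw [Finset.sum_range_succ, Finset.sum_range_succ (n := n + 1), add_sub_right_comm, ← Finset.sum_sub_distrib]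
    congr 1
    · apply Finset.sum_congr rfl
      intro t ht
      rw [Finset.mem_range] at ht
      have : n + 1 - t = (n - t) + 1 := by omega
      rw [this, gg]; ring
    · simp [gg]
  rw [h5, h3, h4, sub_self]

include h1 h2 h0 in
lemma gg_bound (n : ℕ) : |gg ρ n| ≤ (19 / 20) ^ n := by
  induction n using Nat.strong_induction_on with
  | _ n ih =>
    cases n with
    | zero => simp [gg, rr, al, aa_zero]
    | succ n =>
      have h3 := ps_gg ρ n
      rw [Finset.sum_range_succ'] at h3
      rw [ps_zero, one_mul, Nat.sub_zero] at h3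
      have h4 : gg ρ (n + 1) = - ∑ t ∈ range (n + 1), ps ρ (t + 1) * gg ρ (n + 1 - (t + 1)) := by linarith
      rw [h4, abs_neg]
      have h5 : ∀ t ∈ range (n + 1), |ps ρ (t + 1) * gg ρ (n + 1 - (t + 1))| ≤
          (11 / 25) * ((1 / 2) ^ t * (19 / 20) ^ (n + 1 - 1 - t)) := by
        intro t ht
        rw [Finset.mem_range] at ht
        rw [abs_mul]
        have h6 := ps_bound ρ h1 h2 h0 t
        have h7 := ih (n + 1 - (t + 1)) (by omega)
        have h8 : n + 1 - (t + 1) = n + 1 - 1 - t := by omega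
        rw [h8] at h7 ⊢
        calc |ps ρ (t + 1)| * |gg ρ (n + 1 - 1 - t)| ≤ (22 / 25 / 2 ^ (t + 1)) * (19 / 20) ^ (n + 1 - 1 - t) :=
              mul_le_mul h6 h7 (abs_nonneg _) (by positivity)
          _ = _ := by
            rw [pow_succ (2 : ℝ) t, one_div, inv_pow]
            field_simp
            ring
      refine (Finset.abs_sum_le_sum_abs _ _).trans ((Finset.sum_le_sum h5).trans ?_)
      rw [← Finset.mul_sum, Commute.geom_sum₂ (Commute.all _ _) (by norm_num)]
      have h9 : (0 : ℝ) ≤ (1 / 2) ^ (n + 1) := by positivity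
      have h10 : (0 : ℝ) ≤ (19 / 20) ^ (n + 1) := by positivity
      have h11 : ((1 / 2 : ℝ) ^ (n + 1) - (19 / 20) ^ (n + 1)) / (1 / 2 - 19 / 20) =
          (20 / 9) * ((19 / 20) ^ (n + 1) - (1 / 2) ^ (n + 1)) := by
        field_simp; ring
      rw [h11]
      nlinarith

lemma rr_nonneg (hρ : 0 ≤ ρ) (n : ℕ) : 0 ≤ rr ρ n := mul_nonneg (al_nonneg n) (pow_nonneg hρ n)

include h1 h2 h0 in
lemma rr_tendsto : ∃ R : ℝ, 0 < R ∧ Tendsto (rr ρ) atTop (𝓝 R) := by
  have hs : Summable (gg ρ) := by
    apply Summable.of_abs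
    exact Summable.of_nonneg_of_le (fun _ => abs_nonneg _) (gg_bound ρ h1 h2 h0)
      (summable_geometric_of_lt_one (by norm_num) (by norm_num))
  have ht : Tendsto (rr ρ) atTop (𝓝 (∑' n, gg ρ n)) := by
    have := (hs.hasSum.tendsto_sum_nat).comp (tendsto_add_atTop_nat 1)
    refine this.congr fun n => ?_
    exact gg_sum ρ n
  refine ⟨_, ?_, ht⟩
  have hnn : 0 ≤ ∑' n, gg ρ n := ge_of_tendsto' ht (fun n => rr_nonneg ρ (by linarith) n)
  have hps : Summable fun t => |ps ρ t| := by
    rw [← summable_nat_add_iff 1]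
    refine Summable.of_nonneg_of_le (fun _ => abs_nonneg _) (ps_bound ρ h1 h2 h0) ?_
    have : Summable fun t : ℕ => (22 / 25 : ℝ) * (1 / 2) ^ (t + 1) :=
      ((summable_nat_add_iff 1).2 (summable_geometric_of_lt_one (by norm_num) (by norm_num))).mul_left _
    refine this.congr fun t => ?_
    rw [one_div, inv_pow, ← div_eq_mul_inv]
  have h3 := conv_tendsto (ps ρ) (rr ρ) hps _ ht
  have h4 : Tendsto (fun n => ∑ t ∈ range (n + 1), ps ρ t * rr ρ (n - t)) atTop (𝓝 1) := by
    simp only [ps_rr]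
    exact tendsto_const_nhds
  have h5 := tendsto_nhds_unique h3 h4
  rcases hnn.lt_or_eq with h | h
  · exact h
  · rw [← h, mul_zero] at h5
    exact absurd h5 (by norm_num)

end root

/-! ### The limit -/

lemma be_half (P : (ℕ → Prop) → Prop) (j : ℕ)
    (hP : ∀ D D' : ℕ → Prop, (∀ k < j, D k ↔ D' k) → (P D ↔ P D')) (k : ℕ) (hk : 1 ≤ k) :
    be P j (k + 1) ≤ be P j k / 2 := by
  have h1 := swap_le P j hP k hk
  have h2 : (2 : ℝ) * (bb P j (k + 1) : ℝ) ≤ ((j + k + 2 : ℕ) : ℝ) * (bb P j k : ℝ) := by exact_mod_cast h1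
  unfold be
  have h3 : ((j + (k + 1) + 1).factorial : ℝ) = ((j + k + 2 : ℕ) : ℝ) * ((j + k + 1).factorial : ℝ) := by
    have : j + (k + 1) + 1 = (j + k + 1) + 1 := by ring
    rw [this, Nat.factorial_succ]
    push_cast; ring
  rw [h3, div_div, div_le_div_iff₀ (by positivity) (by positivity)]
  have h4 : (0 : ℝ) < ((j + k + 1).factorial : ℝ) := by positivity
  nlinarith

lemma be_decay (P : (ℕ → Prop) → Prop) (j : ℕ)
    (hP : ∀ D D' : ℕ → Prop, (∀ k < j, D k ↔ D' k) → (P D ↔ P D')) (t : ℕ) :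
    be P j (1 + t) ≤ be P j 1 * (1 / 2) ^ t := by
  induction t with
  | zero => simp
  | succ t ih =>
    have h1 := be_half P j hP (1 + t) (by omega)
    have h2 : 1 + (t + 1) = 1 + t + 1 := by ring
    rw [h2, pow_succ]
    linarith

lemma main_limit (ρ : ℝ) (h1 : 6 / 5 ≤ ρ) (h2 : ρ ≤ 61 / 50) (h0 : DD ρ = 0) (j : ℕ) (hj : 1 ≤ j) :
    ∃ L : ℝ, 0 < L ∧
      Tendsto (fun n : ℕ => (dd {j + 1} n : ℝ) / (n.factorial : ℝ) * ρ ^ n) atTop (𝓝 L) := by
  obtain ⟨R, hR, hr⟩ := rr_tendsto ρ h1 h2 h0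
  have hP := pre_dep j hj
  have hρ : 0 < ρ := by linarith
  set u : ℕ → ℝ := fun t => e t * be (pre j) j (1 + t) * ρ ^ (j + 2 + t) with hu
  have hus : Summable fun t => |u t| := by
    have hg : Summable fun t : ℕ => (be (pre j) j 1 * ρ ^ (j + 2)) * (ρ / 2) ^ t :=
      (summable_geometric_of_lt_one (by positivity) (by linarith)).mul_left _
    refine Summable.of_nonneg_of_le (fun _ => abs_nonneg _) (fun t => ?_) hg
    have h3 := be_decay (pre j) j hP t
    have h4 := be_nonneg (pre j) j (1 + t)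
    rw [hu]
    simp only
    rw [abs_mul, abs_mul, abs_of_nonneg h4, abs_of_nonneg (by positivity : (0 : ℝ) ≤ ρ ^ (j + 2 + t))]
    calc |e t| * be (pre j) j (1 + t) * ρ ^ (j + 2 + t)
        ≤ 1 * (be (pre j) j 1 * (1 / 2) ^ t) * ρ ^ (j + 2 + t) := by
          gcongr
          exact abs_e_le t
      _ = _ := by rw [pow_add ρ (j + 2) t, div_pow, div_pow, one_pow]; ring
  have hconv := conv_tendsto u (rr ρ) hus R hr
  have hform : ∀ N : ℕ, (dd {j + 1} (j + 2 + N) : ℝ) / ((j + 2 + N).factorial : ℝ) * ρ ^ (j + 2 + N) =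
      ∑ t ∈ range (N + 1), u t * rr ρ (N - t) := by
    intro N
    rw [dd_eq j hj, eta_formula (pre j) j hP N, Finset.sum_mul]
    apply Finset.sum_congr rfl
    intro t ht
    rw [Finset.mem_range] at ht
    have h3 : ρ ^ (j + 2 + N) = ρ ^ (j + 2 + t) * ρ ^ (N - t) := by rw [← pow_add]; congr 1; omega
    rw [h3, hu, rr]
    ring
  have hlim : Tendsto (fun n : ℕ => (dd {j + 1} n : ℝ) / (n.factorial : ℝ) * ρ ^ n) atTop
      (𝓝 ((∑' t, u t) * R)) := by
    rw [← tendsto_add_atTop_iff_nat (j + 2)]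
    refine hconv.congr fun N => ?_
    rw [← hform N, add_comm N (j + 2)]
  refine ⟨_, ?_, hlim⟩
  -- positivity
  have hlow : Tendsto (fun N : ℕ => be (pre j) j 1 * ρ ^ (j + 2) * rr ρ (N + 1) -
      be (pre j) j 2 * ρ ^ (j + 3) * rr ρ N) atTop
      (𝓝 (be (pre j) j 1 * ρ ^ (j + 2) * R - be (pre j) j 2 * ρ ^ (j + 3) * R)) :=
    ((hr.comp (tendsto_add_atTop_nat 1)).const_mul _).sub (hr.const_mul _)
  have hlim' : Tendsto (fun N : ℕ => (dd {j + 1} (N + (j + 3)) : ℝ) / ((N + (j + 3)).factorial : ℝ) *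
      ρ ^ (N + (j + 3))) atTop (𝓝 ((∑' t, u t) * R)) :=
    (tendsto_add_atTop_iff_nat (j + 3)).2 hlim
  have hge : be (pre j) j 1 * ρ ^ (j + 2) * R - be (pre j) j 2 * ρ ^ (j + 3) * R ≤ (∑' t, u t) * R := by
    refine le_of_tendsto_of_tendsto' hlow hlim' fun N => ?_
    set n := N + (j + 3) with hn
    have h3 : cc (pre j) j 1 n ≤ yy (pre j) j 1 n + cc (pre j) j 2 n := by
      have a1 := cc_eq (pre j) j 1 n
      have a2 := cc_eq (pre j) j 2 n
      norm_num at a1 a2
      omega
    have h4 : (cc (pre j) j 1 n : ℝ) ≤ (yy (pre j) j 1 n : ℝ) + (cc (pre j) j 2 n : ℝ) := by exact_mod_cast h3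
    have h5 : (cc (pre j) j 1 n : ℝ) / (n.factorial : ℝ) = be (pre j) j 1 * al (N + 1) := by
      have : n = j + 1 + 1 + (N + 1) := by omega
      rw [this]; exact cc_div (pre j) j hP 1 (N + 1)
    have h6 : (cc (pre j) j 2 n : ℝ) / (n.factorial : ℝ) = be (pre j) j 2 * al N := by
      have : n = j + 2 + 1 + N := by omega
      rw [this]; exact cc_div (pre j) j hP 2 N
    have h7 : be (pre j) j 1 * al (N + 1) - be (pre j) j 2 * al N ≤ (yy (pre j) j 1 n : ℝ) / (n.factorial : ℝ) := by
      rw [← h5, ← h6, ← sub_div]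
      gcongr
      linarith
    rw [dd_eq j hj]
    calc be (pre j) j 1 * ρ ^ (j + 2) * rr ρ (N + 1) - be (pre j) j 2 * ρ ^ (j + 3) * rr ρ N
        = (be (pre j) j 1 * al (N + 1) - be (pre j) j 2 * al N) * ρ ^ n := by
          have e1 : ρ ^ n = ρ ^ (j + 2) * ρ ^ (N + 1) := by rw [← pow_add]; congr 1; omega
          have e2 : ρ ^ n = ρ ^ (j + 3) * ρ ^ N := by rw [← pow_add]; congr 1; omega
          rw [sub_mul]
          nth_rewrite 1 [e1]
          rw [e2, rr, rr]
          ring
      _ ≤ _ := mul_le_mul_of_nonneg_right h7 (by positivity)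
  have hb1 : 0 < be (pre j) j 1 := by
    unfold be
    have := bb_pos j hj
    positivity
  have hb2 : be (pre j) j 2 ≤ be (pre j) j 1 / 2 := be_half (pre j) j hP 1 le_rfl
  have hpos : 0 < be (pre j) j 1 * ρ ^ (j + 2) * R - be (pre j) j 2 * ρ ^ (j + 3) * R := by
    have h3 : be (pre j) j 1 * ρ ^ (j + 2) * R - be (pre j) j 2 * ρ ^ (j + 3) * R =
        ρ ^ (j + 2) * R * (be (pre j) j 1 - be (pre j) j 2 * ρ) := by ring
    rw [h3]
    apply mul_pos (by positivity)
    have h4 : be (pre j) j 2 * ρ ≤ be (pre j) j 1 / 2 * ρ := mul_le_mul_of_nonneg_right hb2 hρ.le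
    nlinarith
  linarith

/-- For all `i, j ≥ 2` the ratio `dd({i};n)/dd({j};n)` converges to a positive real number. -/
theorem ratio_limit (i j : ℕ) (hi : 2 ≤ i) (hj : 2 ≤ j) :
    ∃ L : ℝ, 0 < L ∧ Tendsto (fun n : ℕ => (dd {i} n : ℝ) / (dd {j} n : ℝ)) atTop (𝓝 L) := by
  obtain ⟨ρ, h1, h2, h0⟩ := exists_root
  obtain ⟨L, hL, hlim⟩ := main_limit ρ h1 h2 h0 (i - 1) (by omega)
  obtain ⟨L', hL', hlim'⟩ := main_limit ρ h1 h2 h0 (j - 1) (by omega)
  have ei : i - 1 + 1 = i := by omega
  have ej : j - 1 + 1 = j := by omega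
  rw [ei] at hlim
  rw [ej] at hlim'
  refine ⟨L / L', div_pos hL hL', ?_⟩
  refine (hlim.div hlim' hL'.ne').congr fun n => ?_
  have h3 : (n.factorial : ℝ) ≠ 0 := by positivity
  have h4 : ρ ^ n ≠ 0 := pow_ne_zero _ (by linarith)
  rw [Pi.div_apply, mul_div_mul_right _ _ h4, div_div_div_cancel_right₀ h3]

end Pool.Agent.Helper15.DDes
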