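import Mathlib

open MeasureTheory Set
open scoped ContDiff

namespace Helper15.Dimer

variable {E : Type*} [NormedAddCommGroup E] [InnerProductSpace ℝ E]

/-- Test functions. -/
def Test (ψ : E → ℝ) : Prop := ContDiff ℝ ∞ ψ ∧ HasCompactSupport ψ

/-- Concave conjugate of `Φ` on `K`. -/
noncomputable def Psi (K : Set E) (Φ : E → ℝ) (p : E →L[ℝ] ℝ) : ℝ :=
  sSup ((fun s => p s + Φ s) '' K)

/-- Slack in the Fenchel inequality. -/
noncomputable def slack (K : Set E) (Φ : E → ℝ) (p : E →L[ℝ] ℝ) (s : E) : ℝ :=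
  Psi K Φ p - p s - Φ s

theorem continuous_Psi {K : Set E} (hK : IsCompact K) {Φ : E → ℝ} (hΦ : Continuous Φ) :
    Continuous (Psi K Φ) := by
  unfold Psi
  refine hK.continuous_sSup (f := fun (p : E →L[ℝ] ℝ) (s : E) => p s + Φ s) ?_
  have h1 : Continuous fun q : (E →L[ℝ] ℝ) × E => q.1 q.2 :=
    isBoundedBilinearMap_apply.continuous
  exact h1.add (hΦ.comp continuous_snd)

theorem continuous_slack {K : Set E} (hK : IsCompact K) {Φ : E → ℝ} (hΦ : Continuous Φ) :
    Continuous fun q : (E →L[ℝ] ℝ) × E => slack K Φ q.1 q.2 := by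
  unfold slack
  have h1 : Continuous fun q : (E →L[ℝ] ℝ) × E => q.1 q.2 :=
    isBoundedBilinearMap_apply.continuous
  exact (((continuous_Psi hK hΦ).comp continuous_fst).sub h1).sub (hΦ.comp continuous_snd)

theorem le_Psi {K : Set E} (hK : IsCompact K) {Φ : E → ℝ} (hΦ : Continuous Φ)
    (p : E →L[ℝ] ℝ) {s : E} (hs : s ∈ K) : p s + Φ s ≤ Psi K Φ p := by
  refine le_csSup ?_ ⟨s, hs, rfl⟩
  exact (hK.image (p.continuous.add hΦ)).bddAbove

theorem slack_nonneg {K : Set E} (hK : IsCompact K) {Φ : E → ℝ} (hΦ : Continuous Φ)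
    (p : E →L[ℝ] ℝ) {s : E} (hs : s ∈ K) : 0 ≤ slack K Φ p s := by
  have := le_Psi hK hΦ p hs
  unfold slack
  linarith

/-- Integrability of slack along a compactly supported smooth potential. -/
theorem continuous_fderiv_test {F : E → ℝ} (hF : Test F) : Continuous (fderiv ℝ F) :=
  hF.1.continuous_fderiv (by simp)

end Helper15.Dimer
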