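import Mathlib

open MeasureTheory Set
open scoped ContDiff

namespace Helper15.Dimer

/-- Euclidean three-space. -/
abbrev E3 := EuclideanSpace ℝ (Fin 3)

/-- The octahedron of mean currents. -/
def octahedron : Set E3 := {s | |s 0| + |s 1| + |s 2| ≤ 1}

/-- The union of the twelve edges of the octahedron: boundary points with a zero coordinate. -/
def edges : Set E3 := {s | |s 0| + |s 1| + |s 2| = 1 ∧ ∃ i, s i = 0}

/-- A region: compact, the closure of a (nonempty) connected open set, with a boundary that is,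
outside a set of zero area, locally a `C¹` surface having the region on one side. -/
def IsRegion (R : Set E3) : Prop :=
  IsCompact R ∧ (∃ U : Set E3, IsOpen U ∧ IsConnected U ∧ R = closure U) ∧
  ∃ N : Set E3, μH[2] N = 0 ∧ ∀ z ∈ frontier R \ N, ∃ W : Set E3, IsOpen W ∧ z ∈ W ∧
    ∃ f : E3 → ℝ, ContDiffOn ℝ 1 f W ∧ fderiv ℝ f z ≠ 0 ∧ ∀ x ∈ W, (x ∈ R ↔ f x ≤ 0)

/-- Test functions: smooth functions with compact support. -/
def IsTest (ψ : E3 → ℝ) : Prop := ContDiff ℝ ∞ ψ ∧ HasCompactSupport ψ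

/-- The distributional divergence of the vector field `g`, evaluated at the test function `ψ`. -/
noncomputable def divergence (g : E3 → E3) (ψ : E3 → ℝ) : ℝ := -∫ x, fderiv ℝ ψ x (g x)

/-- The asymptotic flows on `R` with boundary value `b`. -/
def AF (R : Set E3) (b : (E3 → ℝ) → ℝ) : Set (E3 → E3) :=
  {g | Measurable g ∧ (∀ x, x ∉ R → g x = 0) ∧ (∀ x ∈ R, g x ∈ octahedron) ∧
    (∀ ψ, IsTest ψ → tsupport ψ ⊆ interior R → divergence g ψ = 0) ∧
    (∀ ψ, IsTest ψ → divergence g ψ = b ψ)}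

/-- The entropy functional. -/
noncomputable def Ent (ent : E3 → ℝ) (R : Set E3) (g : E3 → E3) : ℝ :=
  (volume R).toReal⁻¹ * ∫ x in R, ent (g x)

/-- `g` maximizes `Ent` on `AF R b`. -/
def IsMaximizer (ent : E3 → ℝ) (R : Set E3) (b : (E3 → ℝ) → ℝ) (g : E3 → E3) : Prop :=
  g ∈ AF R b ∧ ∀ g' ∈ AF R b, Ent ent R g' ≤ Ent ent R g

end Helper15.Dimer
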