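import Mathlib
import Pool.Agent.Helper15.DimerBase

open MeasureTheory Set Filter Topology
open scoped ContDiff RealInnerProductSpace

namespace Helper15.Dimer

variable {E : Type*} [NormedAddCommGroup E] [InnerProductSpace ℝ E] [FiniteDimensional ℝ E]
  [MeasurableSpace E] [BorelSpace E]

theorem stronglyMeasurable_fderiv_apply {ψ : E → ℝ} (hψ : Continuous (fderiv ℝ ψ))
    {g : E → E} (hg : Measurable g) : StronglyMeasurable fun x => fderiv ℝ ψ x (g x) :=
  (isBoundedBilinearMap_apply (𝕜 := ℝ) (E := E) (F := ℝ)).continuous.comp_stronglyMeasurable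
    (hψ.stronglyMeasurable.prodMk hg.stronglyMeasurable)

omit [MeasurableSpace E] [BorelSpace E] [FiniteDimensional ℝ E] in
theorem Test.exists_bound {ψ : E → ℝ} (hψ : Test ψ) : ∃ C, ∀ x, ‖ψ x‖ ≤ C :=
  hψ.2.exists_bound_of_continuous hψ.1.continuous

omit [MeasurableSpace E] [BorelSpace E] [FiniteDimensional ℝ E] in
theorem Test.exists_bound_fderiv {ψ : E → ℝ} (hψ : Test ψ) : ∃ C, ∀ x, ‖fderiv ℝ ψ x‖ ≤ C :=
  (hψ.2.fderiv ℝ).exists_bound_of_continuous (continuous_fderiv_test hψ)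

theorem Test.integrable_norm_fderiv {ψ : E → ℝ} (hψ : Test ψ) :
    Integrable (fun x => ‖fderiv ℝ ψ x‖) :=
  ((continuous_fderiv_test hψ).integrable_of_hasCompactSupport (hψ.2.fderiv ℝ)).norm

theorem integrable_fderiv_apply {ψ : E → ℝ} (hψ : Test ψ) {g : E → E} (hg : Measurable g)
    {C : ℝ} (hC : ∀ x, ‖g x‖ ≤ C) : Integrable (fun x => fderiv ℝ ψ x (g x)) := by
  refine (hψ.integrable_norm_fderiv.mul_const C).mono'
    (stronglyMeasurable_fderiv_apply (continuous_fderiv_test hψ) hg).aestronglyMeasurable ?_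
  filter_upwards with x
  calc ‖fderiv ℝ ψ x (g x)‖ ≤ ‖fderiv ℝ ψ x‖ * ‖g x‖ := (fderiv ℝ ψ x).le_opNorm _
    _ ≤ ‖fderiv ℝ ψ x‖ * C := by gcongr; exact hC x

theorem measurable_slack {K : Set E} (hK : IsCompact K) {Φ : E → ℝ} (hΦ : Continuous Φ)
    {ψ : E → ℝ} (hψ : Continuous (fderiv ℝ ψ)) {g : E → E} (hg : Measurable g) :
    StronglyMeasurable fun x => slack K Φ (fderiv ℝ ψ x) (g x) := by
  have h1 : StronglyMeasurable fun x => (fderiv ℝ ψ x, g x) :=
    hψ.stronglyMeasurable.prodMk hg.stronglyMeasurable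
  have h2 := Continuous.comp_stronglyMeasurable
    (g := fun q : (E →L[ℝ] ℝ) × E => slack K Φ q.1 q.2) (continuous_slack hK hΦ) h1
  exact h2

omit [MeasurableSpace E] [BorelSpace E] in
/-- Slack is bounded on bounded sets of potentials. -/
theorem exists_bound_slack {K : Set E} (hK : IsCompact K) {Φ : E → ℝ} (hΦ : Continuous Φ)
    (r : ℝ) : ∃ C, ∀ p : E →L[ℝ] ℝ, ‖p‖ ≤ r → ∀ s ∈ K, |slack K Φ p s| ≤ C := by
  have hcpt : IsCompact ((Metric.closedBall (0 : E →L[ℝ] ℝ) r) ×ˢ K) :=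
    (isCompact_closedBall _ _).prod hK
  obtain ⟨C, hC⟩ := hcpt.exists_bound_of_continuousOn (continuous_slack hK hΦ).continuousOn
  refine ⟨C, fun p hp s hs => ?_⟩
  have := hC (p, s) ⟨by simpa using hp, hs⟩
  simpa using this

omit [MeasurableSpace E] [BorelSpace E] [FiniteDimensional ℝ E] in
theorem isClosed_segment' (v w : E) : IsClosed (segment ℝ v w) := by
  rw [segment_eq_image]
  exact (isCompact_Icc.image (by fun_prop)).isClosed

theorem measurableSet_mem_segment {g₁ g₂ : E → E} (hg₁ : Measurable g₁) (hg₂ : Measurable g₂)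
    (m : E) : MeasurableSet {x | m ∈ segment ℝ (g₁ x) (g₂ x)} := by
  have : {x | m ∈ segment ℝ (g₁ x) (g₂ x)} =
      {x | dist (g₁ x) m + dist m (g₂ x) = dist (g₁ x) (g₂ x)} := by
    ext x
    simp only [mem_setOf_eq]
    rw [dist_add_dist_eq_iff, mem_segment_iff_wbtw]
  rw [this]
  exact measurableSet_eq_fun ((hg₁.dist measurable_const).add (measurable_const.dist hg₂))
    (hg₁.dist hg₂)

end Helper15.Dimer
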