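import Mathlib
import Pool.Agent.Helper15.DimerTools

open MeasureTheory Set Filter Topology
open scoped ContDiff RealInnerProductSpace

namespace Helper15.Dimer

variable {E : Type*} [NormedAddCommGroup E] [InnerProductSpace ℝ E] [FiniteDimensional ℝ E]
  [MeasurableSpace E] [BorelSpace E]

/-- Continuity of translations in `L¹`. -/
theorem tendsto_translate {g : E → E} (hg : Integrable g) :
    Tendsto (fun τ : E => ∫ x, ‖g (x + τ) - g x‖) (𝓝 0) (𝓝 0) := by
  set f := hg.toL1 g with hf
  let T : E → C(E, E) := fun τ => ⟨fun x => x + τ, by fun_prop⟩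
  have hT : Continuous T := ContinuousMap.continuous_of_continuous_uncurry T (by
    show Continuous fun p : E × E => p.2 + p.1
    fun_prop)
  have hmp : ∀ τ, MeasurePreserving (T τ) (volume : Measure E) volume := fun τ =>
    measurePreserving_add_right volume τ
  have h1 : Tendsto (fun τ => Lp.compMeasurePreserving (T τ) (hmp τ) f) (𝓝 0)
      (𝓝 (Lp.compMeasurePreserving (T 0) (hmp 0) f)) :=
    Filter.Tendsto.compMeasurePreservingLp (l := 𝓝 0) (f := fun _ : E => f) (f₀ := f)
      tendsto_const_nhds (hT.tendsto 0) hmp (hmp 0) (by simp)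
  rw [tendsto_iff_norm_sub_tendsto_zero] at h1
  refine h1.congr fun τ => ?_
  rw [L1.norm_eq_integral_norm]
  refine integral_congr_ae ?_
  have e1 := Lp.coeFn_compMeasurePreserving f (hmp τ)
  have e2 := Lp.coeFn_compMeasurePreserving f (hmp 0)
  have e3 : f =ᵐ[volume] g := Integrable.coeFn_toL1 hg
  have e4 : (fun x => f (x + τ)) =ᵐ[volume] fun x => g (x + τ) :=
    (hmp τ).quasiMeasurePreserving.ae_eq e3
  filter_upwards [Lp.coeFn_sub (Lp.compMeasurePreserving (T τ) (hmp τ) f)
    (Lp.compMeasurePreserving (T 0) (hmp 0) f), e1, e2, e3, e4] with x h0 h1 h2 h3 h4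
  rw [h0, Pi.sub_apply, h1, h2]
  have h5 : (f ∘ (T τ)) x = g (x + τ) := h4
  have h6 : (f ∘ (T 0)) x = g x := by
    show f (x + 0) = g x
    rw [add_zero, h3]
  rw [h5, h6]

/-- Integrability of products of a compactly supported continuous function with a bounded one. -/
theorem integrable_mul_of_bound {W : E → ℝ} (hW : Continuous W) (hWc : HasCompactSupport W)
    {f : E → ℝ} (hf : AEStronglyMeasurable f volume) {C : ℝ} (hC : ∀ x, |f x| ≤ C) :
    Integrable fun x => W x * f x :=
  (hW.integrable_of_hasCompactSupport hWc).mul_bdd (c := C) hf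
    (Eventually.of_forall fun x => by simpa using hC x)

end Helper15.Dimer
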