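import Mathlib
import Pool.Agent.Helper15.DimerTrans

open MeasureTheory Set Filter Topology
open scoped ContDiff RealInnerProductSpace

namespace Helper15.Dimer

variable {E : Type*} [NormedAddCommGroup E] [InnerProductSpace ℝ E] [FiniteDimensional ℝ E]
  [MeasurableSpace E] [BorelSpace E]

/-- derivative of the sigmoid -/
noncomputable def sg (y : ℝ) : ℝ := Real.sigmoid y * (1 - Real.sigmoid y)

theorem hasDerivAt_sg (y : ℝ) : HasDerivAt Real.sigmoid (sg y) y := Real.hasDerivAt_sigmoid y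

theorem sg_nonneg (y : ℝ) : 0 ≤ sg y :=
  mul_nonneg (Real.sigmoid_nonneg y) (by linarith [Real.sigmoid_le_one y])

theorem sg_le_one (y : ℝ) : sg y ≤ 1 := by
  have h1 := Real.sigmoid_nonneg y
  have h2 := Real.sigmoid_le_one y
  unfold sg; nlinarith

theorem sg_neg (y : ℝ) : sg (-y) = sg y := by
  unfold sg
  rw [Real.sigmoid_neg]; ring

theorem continuous_sg : Continuous sg := by
  unfold sg
  exact continuous_sigmoid.mul (continuous_const.sub continuous_sigmoid)

omit [MeasurableSpace E] [BorelSpace E] [FiniteDimensional ℝ E] in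
theorem Test.comp_add {F : E → ℝ} (hF : Test F) (τ : E) : Test fun x => F (x + τ) := by
  refine ⟨hF.1.comp (contDiff_id.add contDiff_const), ?_⟩
  exact hF.2.comp_homeomorph (Homeomorph.addRight τ)

omit [MeasurableSpace E] [BorelSpace E] [FiniteDimensional ℝ E] in
theorem tsupport_comp_add (F : E → ℝ) (τ : E) :
    tsupport (fun x => F (x + τ)) = (fun x => x + τ) ⁻¹' tsupport F :=
  tsupport_comp_eq_preimage F (Homeomorph.addRight τ)

omit [MeasurableSpace E] [BorelSpace E] [FiniteDimensional ℝ E] in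
theorem fderiv_comp_add' (F : E → ℝ) (τ x : E) :
    fderiv ℝ (fun x => F (x + τ)) x = fderiv ℝ F (x + τ) :=
  fderiv_comp_add_right τ

omit [MeasurableSpace E] [BorelSpace E] [FiniteDimensional ℝ E] in
theorem slack_identity (K : Set E) (Φ : E → ℝ) (p p' : E →L[ℝ] ℝ) (s s' : E) :
    slack K Φ p' s + slack K Φ p s' =
      slack K Φ p s + slack K Φ p' s' + (p' - p) (s' - s) := by
  simp only [slack, _root_.sub_apply, map_sub]
  ring

/-- The potential difference quotient argument. -/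
noncomputable def arg (F : E → ℝ) (τ : E) (c κ : ℝ) (x : E) : ℝ := (F (x + τ) - F x - c) / κ

omit [MeasurableSpace E] [BorelSpace E] [FiniteDimensional ℝ E] in
theorem contDiff_arg {F : E → ℝ} (hF : Test F) (τ : E) (c κ : ℝ) :
    ContDiff ℝ ∞ (arg F τ c κ) := by
  unfold arg
  exact (((hF.comp_add τ).1.sub hF.1).sub contDiff_const).div_const _

omit [MeasurableSpace E] [BorelSpace E] [FiniteDimensional ℝ E] in
theorem contDiff_sigmoid_arg {F : E → ℝ} (hF : Test F) (τ : E) (c κ : ℝ) :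
    ContDiff ℝ ∞ (fun x => Real.sigmoid (arg F τ c κ x)) :=
  (contDiff_sigmoid.of_le le_top).comp (contDiff_arg hF τ c κ)

omit [MeasurableSpace E] [BorelSpace E] [FiniteDimensional ℝ E] in
theorem hasFDerivAt_sigmoid_arg {F : E → ℝ} (hF : Test F) (τ : E) (c κ : ℝ) (x : E) :
    HasFDerivAt (fun x => Real.sigmoid (arg F τ c κ x))
      ((sg (arg F τ c κ x) / κ) • (fderiv ℝ F (x + τ) - fderiv ℝ F x)) x := by
  have h1 : HasFDerivAt (fun x => F (x + τ)) (fderiv ℝ F (x + τ)) x := by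
    have := ((hF.comp_add τ).1.differentiable (by simp) x).hasFDerivAt
    rwa [fderiv_comp_add'] at this
  have h2 : HasFDerivAt F (fderiv ℝ F x) x := (hF.1.differentiable (by simp) x).hasFDerivAt
  have h3 : HasFDerivAt (arg F τ c κ) (κ⁻¹ • (fderiv ℝ F (x + τ) - fderiv ℝ F x)) x := by
    have h3' : HasFDerivAt (fun x => κ⁻¹ * (F (x + τ) - F x - c))
        (κ⁻¹ • (fderiv ℝ F (x + τ) - fderiv ℝ F x)) x :=
      ((h1.fun_sub h2).sub_const c).const_mul κ⁻¹
    have e : arg F τ c κ = fun x => κ⁻¹ * (F (x + τ) - F x - c) := by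
      funext y; simp only [arg, div_eq_inv_mul]
    rw [e]; exact h3'
  have h4 := (hasDerivAt_sg (arg F τ c κ x)).comp_hasFDerivAt x h3
  have e2 : (sg (arg F τ c κ x) / κ) • (fderiv ℝ F (x + τ) - fderiv ℝ F x) =
      sg (arg F τ c κ x) • κ⁻¹ • (fderiv ℝ F (x + τ) - fderiv ℝ F x) := by
    rw [smul_smul, div_eq_mul_inv]
  rw [e2]
  exact h4

/-- The weight `ζ · σ'(arg) / κ`. -/
noncomputable def wt (ζ F : E → ℝ) (τ : E) (c κ : ℝ) (x : E) : ℝ :=
  ζ x * (sg (arg F τ c κ x) / κ)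

omit [MeasurableSpace E] [BorelSpace E] [FiniteDimensional ℝ E] in
theorem continuous_wt {ζ F : E → ℝ} (hζ : Test ζ) (hF : Test F) (τ : E) (c κ : ℝ) :
    Continuous (wt ζ F τ c κ) := by
  unfold wt
  exact hζ.1.continuous.mul ((continuous_sg.comp (contDiff_arg hF τ c κ).continuous).div_const _)

omit [MeasurableSpace E] [BorelSpace E] [FiniteDimensional ℝ E] in
theorem hasCompactSupport_wt {ζ : E → ℝ} (hζ : Test ζ) (F : E → ℝ) (τ : E) (c κ : ℝ) :
    HasCompactSupport (wt ζ F τ c κ) :=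
  hζ.2.mul_right

omit [MeasurableSpace E] [BorelSpace E] [FiniteDimensional ℝ E] [InnerProductSpace ℝ E]
  [NormedAddCommGroup E] in
theorem wt_nonneg [NormedAddCommGroup E] [InnerProductSpace ℝ E] {ζ : E → ℝ}
    (hζ0 : ∀ x, 0 ≤ ζ x) (F : E → ℝ) (τ : E) (c : ℝ) {κ : ℝ} (hκ : 0 < κ)
    (x : E) : 0 ≤ wt ζ F τ c κ x :=
  mul_nonneg (hζ0 x) (div_nonneg (sg_nonneg _) hκ.le)

theorem wt_le {E : Type*} [NormedAddCommGroup E] [InnerProductSpace ℝ E] {ζ : E → ℝ}
    (hζ0 : ∀ x, 0 ≤ ζ x) {Z : ℝ} (hZ : ∀ x, ζ x ≤ Z) (F : E → ℝ) (τ : E) (c : ℝ) {κ : ℝ}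
    (hκ : 0 < κ) (x : E) : wt ζ F τ c κ x ≤ Z / κ := by
  unfold wt
  have h1 := hζ0 x
  have h2 := hZ x
  rw [← mul_div_assoc]
  gcongr
  calc ζ x * sg (arg F τ c κ x) ≤ ζ x * 1 := by gcongr; exact sg_le_one _
    _ ≤ Z := by linarith

/-- The translation inequality (discrete monotonicity of near-optimal potentials). -/
theorem translation_ineq {K : Set E} (hK : IsCompact K) {Φ : E → ℝ} (hΦ : Continuous Φ)
    {Ω : Set E} (hΩ : MeasurableSet Ω) (hΩb : Bornology.IsBounded Ω)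
    {g : E → E} (hg : Measurable g) (hgK : ∀ x, g x ∈ K) (hgi : Integrable g)
    (hdiv : ∀ ψ : E → ℝ, Test ψ → tsupport ψ ⊆ Ω → ∫ x, fderiv ℝ ψ x (g x) = 0)
    {F : E → ℝ} (hF : Test F) {ε : ℝ} (hFε : ∫ x in Ω, slack K Φ (fderiv ℝ F x) (g x) ≤ ε)
    {ζ : E → ℝ} (hζ : Test ζ) (hζ0 : ∀ x, 0 ≤ ζ x) {Z : ℝ} (hZ : ∀ x, ζ x ≤ Z)
    {C₁ : ℝ} (hC₁ : ∀ x, ‖fderiv ℝ ζ x‖ ≤ C₁)
    (hζΩ : tsupport ζ ⊆ Ω) (τ : E) (hτ : ∀ x ∈ tsupport ζ, x + τ ∈ Ω) (c : ℝ) {κ : ℝ}
    (hκ : 0 < κ) :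
    ∫ x, wt ζ F τ c κ x * slack K Φ (fderiv ℝ F (x + τ)) (g x) ≤
      C₁ * (∫ x, ‖g (x + τ) - g x‖) + 2 * (Z / κ * ε) := by
  obtain ⟨r, hr⟩ := hF.exists_bound_fderiv
  obtain ⟨Cs, hCs⟩ := exists_bound_slack hK hΦ r
  obtain ⟨CK, hCK⟩ : ∃ C, ∀ s ∈ K, ‖s‖ ≤ C := hK.isBounded.exists_norm_le
  have hr0 : 0 ≤ r := (norm_nonneg _).trans (hr 0)
  have hZ0 : 0 ≤ Z := (hζ0 0).trans (hZ 0)
  have hZκ : 0 ≤ Z / κ := div_nonneg hZ0 hκ.le
  have hFc := continuous_fderiv_test hF
  have hFτ : Test fun x => F (x + τ) := hF.comp_add τ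
  have hFτc : Continuous fun x => fderiv ℝ F (x + τ) := hFc.comp (by fun_prop)
  have hgτ : Measurable fun x => g (x + τ) := hg.comp (measurable_id.add_const τ)
  have hgiτ : Integrable fun x => g (x + τ) := hgi.comp_add_right τ
  set W := wt ζ F τ c κ with hW
  have hWc : Continuous W := continuous_wt hζ hF τ c κ
  have hWs : HasCompactSupport W := hasCompactSupport_wt hζ F τ c κ
  have hW0 : ∀ x, 0 ≤ W x := wt_nonneg hζ0 F τ c hκ
  have hWle : ∀ x, W x ≤ Z / κ := wt_le hζ0 hZ F τ c hκ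
  have hWsupp : ∀ x, x ∉ tsupport ζ → W x = 0 := fun x hx => by
    have : ζ x = 0 := image_eq_zero_of_notMem_tsupport hx
    simp [hW, wt, this]
  -- measurability
  have hFτ' : (fun x => fderiv ℝ (fun x => F (x + τ)) x) = fun x => fderiv ℝ F (x + τ) := by
    funext x; exact fderiv_comp_add' F τ x
  have m1 : StronglyMeasurable fun x => slack K Φ (fderiv ℝ F x) (g x) :=
    measurable_slack hK hΦ hFc hg
  have m2 : StronglyMeasurable fun x => slack K Φ (fderiv ℝ F (x + τ)) (g (x + τ)) := by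
    have : Continuous (fderiv ℝ fun x => F (x + τ)) := continuous_fderiv_test hFτ
    have h := measurable_slack hK hΦ this hgτ
    simpa only [fderiv_comp_add'] using h
  have m3 : StronglyMeasurable fun x => slack K Φ (fderiv ℝ F (x + τ)) (g x) := by
    have : Continuous (fderiv ℝ fun x => F (x + τ)) := continuous_fderiv_test hFτ
    have h := measurable_slack hK hΦ this hg
    simpa only [fderiv_comp_add'] using h
  have hdm : Measurable fun x => g (x + τ) - g x := hgτ.sub hg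
  have m4 : StronglyMeasurable fun x =>
      (fderiv ℝ F (x + τ) - fderiv ℝ F x) (g (x + τ) - g x) := by
    have h1 : StronglyMeasurable fun x => fderiv ℝ F (x + τ) - fderiv ℝ F x :=
      (hFτc.sub hFc).stronglyMeasurable
    exact (isBoundedBilinearMap_apply (𝕜 := ℝ) (E := E) (F := ℝ)).continuous.comp_stronglyMeasurable
      (h1.prodMk hdm.stronglyMeasurable)
  -- integrability
  have i1 : Integrable fun x => W x * slack K Φ (fderiv ℝ F x) (g x) :=
    integrable_mul_of_bound hWc hWs m1.aestronglyMeasurable fun x => hCs _ (hr x) _ (hgK x)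
  have i2 : Integrable fun x => W x * slack K Φ (fderiv ℝ F (x + τ)) (g (x + τ)) :=
    integrable_mul_of_bound hWc hWs m2.aestronglyMeasurable
      fun x => hCs _ (hr _) _ (hgK (x + τ))
  have i3 : Integrable fun x => W x * slack K Φ (fderiv ℝ F (x + τ)) (g x) :=
    integrable_mul_of_bound hWc hWs m3.aestronglyMeasurable
      fun x => hCs _ (hr _) _ (hgK x)
  have hds : ∀ x, ‖g (x + τ) - g x‖ ≤ 2 * CK := fun x => by
    have := norm_sub_le (g (x + τ)) (g x)
    linarith [hCK _ (hgK (x + τ)), hCK _ (hgK x)]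
  have i4 : Integrable fun x =>
      W x * (fderiv ℝ F (x + τ) - fderiv ℝ F x) (g (x + τ) - g x) := by
    refine integrable_mul_of_bound hWc hWs m4.aestronglyMeasurable (C := (2 * r) * (2 * CK))
      fun x => ?_
    have h1 : ‖fderiv ℝ F (x + τ) - fderiv ℝ F x‖ ≤ 2 * r := by
      have := norm_sub_le (fderiv ℝ F (x + τ)) (fderiv ℝ F x)
      linarith [hr (x + τ), hr x]
    calc |(fderiv ℝ F (x + τ) - fderiv ℝ F x) (g (x + τ) - g x)|
        ≤ ‖fderiv ℝ F (x + τ) - fderiv ℝ F x‖ * ‖g (x + τ) - g x‖ :=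
          (fderiv ℝ F (x + τ) - fderiv ℝ F x).le_opNorm _
      _ ≤ (2 * r) * (2 * CK) := mul_le_mul h1 (hds x) (norm_nonneg _) (by positivity)
  -- pointwise inequality
  have hpt : ∀ x, W x * slack K Φ (fderiv ℝ F (x + τ)) (g x) ≤
      W x * slack K Φ (fderiv ℝ F x) (g x) +
      W x * slack K Φ (fderiv ℝ F (x + τ)) (g (x + τ)) +
      W x * (fderiv ℝ F (x + τ) - fderiv ℝ F x) (g (x + τ) - g x) := by
    intro x
    have h1 := slack_identity K Φ (fderiv ℝ F x) (fderiv ℝ F (x + τ)) (g x) (g (x + τ))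
    have h2 := slack_nonneg hK hΦ (fderiv ℝ F x) (hgK (x + τ))
    rw [← mul_add, ← mul_add]
    exact mul_le_mul_of_nonneg_left (by linarith) (hW0 x)
  -- first two terms
  set q : E → ℝ := Ω.indicator fun x => slack K Φ (fderiv ℝ F x) (g x) with hq
  have hq0 : ∀ x, 0 ≤ q x := fun x => by
    by_cases hx : x ∈ Ω
    · simpa [hq, hx] using slack_nonneg hK hΦ _ (hgK x)
    · simp [hq, hx]
  have hqi : Integrable q := by
    rw [hq, integrable_indicator_iff hΩ]
    refine Measure.integrableOn_of_bounded (M := Cs) hΩb.measure_lt_top.ne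
      m1.aestronglyMeasurable ?_
    exact Eventually.of_forall fun x => hCs _ (hr x) _ (hgK x)
  have hqint : ∫ x, q x ≤ ε := by
    rw [hq, integral_indicator hΩ]; exact hFε
  have b1 : ∫ x, W x * slack K Φ (fderiv ℝ F x) (g x) ≤ Z / κ * ε := by
    calc ∫ x, W x * slack K Φ (fderiv ℝ F x) (g x) ≤ ∫ x, Z / κ * q x := by
          refine integral_mono i1 (hqi.const_mul _) fun x => ?_
          by_cases hx : x ∈ tsupport ζ
          · have hxΩ := hζΩ hx
            simp only [hq, indicator_of_mem hxΩ]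
            exact mul_le_mul_of_nonneg_right (hWle x) (slack_nonneg hK hΦ _ (hgK x))
          · simp only [hWsupp x hx, zero_mul]
            exact mul_nonneg hZκ (hq0 x)
      _ = Z / κ * ∫ x, q x := integral_const_mul _ _
      _ ≤ Z / κ * ε := mul_le_mul_of_nonneg_left hqint hZκ
  have b2 : ∫ x, W x * slack K Φ (fderiv ℝ F (x + τ)) (g (x + τ)) ≤ Z / κ * ε := by
    calc ∫ x, W x * slack K Φ (fderiv ℝ F (x + τ)) (g (x + τ)) ≤ ∫ x, Z / κ * q (x + τ) := by
          refine integral_mono i2 ((hqi.comp_add_right τ).const_mul _) fun x => ?_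
          by_cases hx : x ∈ tsupport ζ
          · have hxΩ := hτ x hx
            simp only [hq, indicator_of_mem hxΩ]
            exact mul_le_mul_of_nonneg_right (hWle x) (slack_nonneg hK hΦ _ (hgK _))
          · simp only [hWsupp x hx, zero_mul]
            exact mul_nonneg hZκ (hq0 _)
      _ = Z / κ * ∫ x, q (x + τ) := integral_const_mul _ _
      _ = Z / κ * ∫ x, q x := by rw [integral_add_right_eq_self q τ]
      _ ≤ Z / κ * ε := mul_le_mul_of_nonneg_left hqint hZκ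
  -- third term
  set ψ : E → ℝ := fun x => ζ x * Real.sigmoid (arg F τ c κ x) with hψ
  have hψT : Test ψ := ⟨hζ.1.mul (contDiff_sigmoid_arg hF τ c κ), hζ.2.mul_right⟩
  have hψs : tsupport ψ ⊆ tsupport ζ := tsupport_mul_subset_left
  have hψd : ∀ x v, fderiv ℝ ψ x v = W x * (fderiv ℝ F (x + τ) - fderiv ℝ F x) v +
      Real.sigmoid (arg F τ c κ x) * fderiv ℝ ζ x v := by
    intro x v
    have h1 : HasFDerivAt ζ (fderiv ℝ ζ x) x := (hζ.1.differentiable (by simp) x).hasFDerivAt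
    have h2 := (h1.fun_mul (hasFDerivAt_sigmoid_arg hF τ c κ x)).fderiv
    rw [hψ, h2]
    simp only [_root_.add_apply, _root_.smul_apply, smul_eq_mul, hW, wt]
    ring
  have z1 : ∫ x, fderiv ℝ ψ x (g x) = 0 := hdiv ψ hψT (hψs.trans hζΩ)
  have z2 : ∫ x, fderiv ℝ ψ x (g (x + τ)) = 0 := by
    have hT' : Test fun x => ψ (x + (-τ)) := hψT.comp_add (-τ)
    have hs' : tsupport (fun x => ψ (x + (-τ))) ⊆ Ω := by
      rw [tsupport_comp_add]
      intro y hy
      have := hτ _ (hψs hy)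
      simpa using this
    have h := hdiv _ hT' hs'
    rw [← integral_add_right_eq_self _ τ] at h
    rw [← h]
    refine integral_congr_ae (Eventually.of_forall fun x => ?_)
    simp only [fderiv_comp_add', add_neg_cancel_right]
  have j1 : Integrable fun x => fderiv ℝ ψ x (g x) :=
    integrable_fderiv_apply hψT hg fun x => hCK _ (hgK x)
  have j2 : Integrable fun x => fderiv ℝ ψ x (g (x + τ)) :=
    integrable_fderiv_apply hψT hgτ fun x => hCK _ (hgK (x + τ))
  have j3 : Integrable fun x => Real.sigmoid (arg F τ c κ x) * fderiv ℝ ζ x (g (x + τ) - g x) := by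
    have h1 : Integrable fun x => fderiv ℝ ζ x (g (x + τ) - g x) :=
      integrable_fderiv_apply hζ hdm hds
    refine h1.bdd_mul (c := 1) (contDiff_sigmoid_arg hF τ c κ).continuous.aestronglyMeasurable
      (Eventually.of_forall fun x => ?_)
    rw [Real.norm_of_nonneg (Real.sigmoid_nonneg _)]
    exact Real.sigmoid_le_one _
  have b3 : ∫ x, W x * (fderiv ℝ F (x + τ) - fderiv ℝ F x) (g (x + τ) - g x) ≤
      C₁ * ∫ x, ‖g (x + τ) - g x‖ := by
    have e1 : ∫ x, W x * (fderiv ℝ F (x + τ) - fderiv ℝ F x) (g (x + τ) - g x) =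
        ((∫ x, fderiv ℝ ψ x (g (x + τ))) - ∫ x, fderiv ℝ ψ x (g x)) -
          ∫ x, Real.sigmoid (arg F τ c κ x) * fderiv ℝ ζ x (g (x + τ) - g x) := by
      have j12 : Integrable fun x => fderiv ℝ ψ x (g (x + τ)) - fderiv ℝ ψ x (g x) := j2.sub j1
      rw [← integral_sub j2 j1, ← integral_sub j12 j3]
      refine integral_congr_ae (Eventually.of_forall fun x => ?_)
      have := hψd x (g (x + τ) - g x)
      simp only [map_sub] at this ⊢
      linarith
    rw [e1, z1, z2, sub_zero, zero_sub, ← integral_neg, ← integral_const_mul]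
    refine integral_mono j3.neg ((hgiτ.sub hgi).norm.const_mul _) fun x => ?_
    have h1 : |Real.sigmoid (arg F τ c κ x) * fderiv ℝ ζ x (g (x + τ) - g x)| ≤
        C₁ * ‖g (x + τ) - g x‖ := by
      rw [abs_mul, abs_of_nonneg (Real.sigmoid_nonneg _)]
      calc Real.sigmoid (arg F τ c κ x) * |fderiv ℝ ζ x (g (x + τ) - g x)|
          ≤ 1 * (C₁ * ‖g (x + τ) - g x‖) := by
            refine mul_le_mul (Real.sigmoid_le_one _) ?_ (abs_nonneg _) zero_le_one
            exact ((fderiv ℝ ζ x).le_opNorm _).trans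
              (mul_le_mul_of_nonneg_right (hC₁ x) (norm_nonneg _))
        _ = C₁ * ‖g (x + τ) - g x‖ := one_mul _
    exact (neg_le_abs _).trans h1
  calc ∫ x, W x * slack K Φ (fderiv ℝ F (x + τ)) (g x)
      ≤ ∫ x, (W x * slack K Φ (fderiv ℝ F x) (g x) +
      W x * slack K Φ (fderiv ℝ F (x + τ)) (g (x + τ)) +
      W x * (fderiv ℝ F (x + τ) - fderiv ℝ F x) (g (x + τ) - g x)) :=
        integral_mono i3 ((i1.add i2).add i4) hpt
    _ = (∫ x, W x * slack K Φ (fderiv ℝ F x) (g x)) +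
      (∫ x, W x * slack K Φ (fderiv ℝ F (x + τ)) (g (x + τ))) +
      ∫ x, W x * (fderiv ℝ F (x + τ) - fderiv ℝ F x) (g (x + τ) - g x) := by
        have i12 : Integrable fun x => W x * slack K Φ (fderiv ℝ F x) (g x) +
          W x * slack K Φ (fderiv ℝ F (x + τ)) (g (x + τ)) := i1.add i2
        rw [integral_add i12 i4, integral_add i1 i2]
    _ ≤ C₁ * (∫ x, ‖g (x + τ) - g x‖) + 2 * (Z / κ * ε) := by linarith

end Helper15.Dimer
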