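import Mathlib
import Pool.Agent.Helper15.DimerStep

open MeasureTheory Set Filter Topology
open scoped ContDiff RealInnerProductSpace

namespace Helper15.Dimer

section pointwise

variable {E : Type*} [NormedAddCommGroup E] [InnerProductSpace ℝ E]

theorem slack_add {K : Set E} {Φ : E → ℝ} {s₁ s₂ s : E} (hs : s = (1 / 2 : ℝ) • (s₁ + s₂))
    (hΦs : 2 * Φ s = Φ s₁ + Φ s₂) (p : E →L[ℝ] ℝ) :
    slack K Φ p s₁ + slack K Φ p s₂ = 2 * slack K Φ p s := by
  have h1 : p s = 1 / 2 * (p s₁ + p s₂) := by rw [hs, map_smul, map_add, smul_eq_mul]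
  simp only [slack]
  linarith

theorem h_bound {K : Set E} (hK : IsCompact K) {Φ : E → ℝ} (hΦ : Continuous Φ) {s₁ s₂ s : E}
    (h₁ : s₁ ∈ K) (h₂ : s₂ ∈ K) (hs : s = (1 / 2 : ℝ) • (s₁ + s₂))
    (hΦs : 2 * Φ s = Φ s₁ + Φ s₂) (p p' : E →L[ℝ] ℝ) :
    |(p' - p) (s₁ - s₂)| ≤ 2 * slack K Φ p' s + 2 * slack K Φ p s := by
  have e1 := slack_add (K := K) hs hΦs p
  have e2 := slack_add (K := K) hs hΦs p'
  have n1 := slack_nonneg hK hΦ p h₁
  have n2 := slack_nonneg hK hΦ p h₂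
  have n3 := slack_nonneg hK hΦ p' h₁
  have n4 := slack_nonneg hK hΦ p' h₂
  have e3 : (p' - p) (s₁ - s₂) = -(slack K Φ p' s₁ - slack K Φ p' s₂) +
      (slack K Φ p s₁ - slack K Φ p s₂) := by
    simp only [slack, _root_.sub_apply, map_sub]
    ring
  rw [e3, abs_le]
  constructor <;> linarith

theorem slack_segment {K : Set E} (hK : IsCompact K) {Φ : E → ℝ} (hΦ : Continuous Φ)
    (hΦc : ConcaveOn ℝ K Φ) {s₁ s₂ s : E}
    (h₁ : s₁ ∈ K) (h₂ : s₂ ∈ K) (hs : s = (1 / 2 : ℝ) • (s₁ + s₂))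
    (hΦs : 2 * Φ s = Φ s₁ + Φ s₂) {m : E} (hm : m ∈ segment ℝ s₁ s₂) (p : E →L[ℝ] ℝ) :
    slack K Φ p m ≤ 2 * slack K Φ p s := by
  have e1 := slack_add (K := K) hs hΦs p
  have n1 := slack_nonneg hK hΦ p h₁
  have n2 := slack_nonneg hK hΦ p h₂
  obtain ⟨a, b, ha, hb, hab, rfl⟩ := hm
  have h3 := hΦc.2 h₁ h₂ ha hb hab
  simp only [smul_eq_mul] at h3
  have h4 : slack K Φ p (a • s₁ + b • s₂) ≤ a * slack K Φ p s₁ + b * slack K Φ p s₂ := by
    have h5 : a * slack K Φ p s₁ + b * slack K Φ p s₂ =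
        (a + b) * Psi K Φ p - (a * p s₁ + b * p s₂) - (a * Φ s₁ + b * Φ s₂) := by
      simp only [slack]; ring
    rw [h5, hab]
    simp only [slack, map_add, map_smul, smul_eq_mul]
    linarith
  nlinarith

theorem slope_bound {K : Set E} (hK : IsCompact K) (hKc : Convex ℝ K) {Φ : E → ℝ}
    (hΦ : Continuous Φ) (hΦc : ConcaveOn ℝ K Φ) {s₁ s₂ s : E}
    (h₁ : s₁ ∈ K) (h₂ : s₂ ∈ K) (hs : s = (1 / 2 : ℝ) • (s₁ + s₂))
    (hΦs : 2 * Φ s = Φ s₁ + Φ s₂) {m m' : E} (hm : m ∈ segment ℝ s₁ s₂) (hm' : m' ∈ K)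
    (p : E →L[ℝ] ℝ) :
    2 * (Φ ((1 / 2 : ℝ) • (m + m')) - Φ m) - 4 * slack K Φ p s ≤ p (m - m') := by
  have hmK : m ∈ K := hKc.segment_subset h₁ h₂ hm
  have hn : (1 / 2 : ℝ) • (m + m') ∈ K := by
    have := hKc hmK hm' (show (0 : ℝ) ≤ 1 / 2 by norm_num) (show (0 : ℝ) ≤ 1 / 2 by norm_num)
      (by norm_num)
    rwa [← smul_add] at this
  have h3 := slack_segment hK hΦ hΦc h₁ h₂ hs hΦs hm p
  have h4 := le_Psi hK hΦ p hn
  have h5 : p ((1 / 2 : ℝ) • (m + m')) = 1 / 2 * (p m + p m') := by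
    rw [map_smul, map_add, smul_eq_mul]
  rw [map_sub]
  simp only [slack] at h3 ⊢
  linarith

end pointwise

variable {E : Type*} [NormedAddCommGroup E] [InnerProductSpace ℝ E] [FiniteDimensional ℝ E]
  [MeasurableSpace E] [BorelSpace E]

/-- Monotonicity of the averaged sigmoid along the direction `u`. -/
theorem monotone_ineq {K : Set E} (hK : IsCompact K) {Φ : E → ℝ} (hΦ : Continuous Φ)
    {Ω : Set E} (hΩ : MeasurableSet Ω) (hΩb : Bornology.IsBounded Ω)
    {g : E → E} (hg : Measurable g) (hgK : ∀ x, g x ∈ K) (hgi : Integrable g)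
    (hdiv : ∀ ψ : E → ℝ, Test ψ → tsupport ψ ⊆ Ω → ∫ x, fderiv ℝ ψ x (g x) = 0)
    {F : E → ℝ} (hF : Test F) {ε : ℝ} (hFε : ∫ x in Ω, slack K Φ (fderiv ℝ F x) (g x) ≤ ε)
    {ζ : E → ℝ} (hζ : Test ζ) (hζ0 : ∀ x, 0 ≤ ζ x) {Z : ℝ} (hZ : ∀ x, ζ x ≤ Z)
    {C₁ : ℝ} (hC₁ : ∀ x, ‖fderiv ℝ ζ x‖ ≤ C₁)
    (hζΩ : tsupport ζ ⊆ Ω) (u : E) {t : ℝ} (ht : 0 < t)
    (hτ : ∀ r ∈ Icc (0 : ℝ) t, ∀ x ∈ tsupport ζ, x + r • u ∈ Ω) {κ : ℝ}
    (hκ : 0 < κ) {B : ℝ}
    (hB : ∀ r ∈ Icc (0 : ℝ) t,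
      C₁ * (∫ x, ‖g (x + r • u) - g x‖) + 2 * (Z / κ * ε) ≤ B)
    {A : Set E} (hA : MeasurableSet A) {θ a : ℝ} (hθ : θ = 1 ∨ θ = -1)
    (hAu : ∀ᵐ x, x ∈ Ω → x ∈ A → ∀ p : E →L[ℝ] ℝ, a - 4 * slack K Φ p (g x) ≤ θ * p u) (M : ℝ) :
    Real.sigmoid M * (∫ x in A, ζ x) - 4 * t * B ≤
      ∫ x in A, ζ x * Real.sigmoid ((θ * (F (x + t • u) - F x) - a * t) / κ + M) := by
  obtain ⟨r₀, hr₀⟩ := hF.exists_bound_fderiv
  obtain ⟨Cs, hCs⟩ := exists_bound_slack hK hΦ r₀
  have hr0 : 0 ≤ r₀ := (norm_nonneg _).trans (hr₀ 0)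
  have hFc := continuous_fderiv_test hF
  have hFcont : Continuous F := hF.1.continuous
  set w : ℝ → E → ℝ := fun r x => (θ * (F (x + r • u) - F x) - a * r) / κ + M with hw
  set G : ℝ → E → ℝ := fun r x => ζ x * Real.sigmoid (w r x) with hG
  set G' : ℝ → E → ℝ := fun r x =>
    ζ x * (sg (w r x) / κ * (θ * fderiv ℝ F (x + r • u) u - a)) with hG'
  have hwc : ∀ r, Continuous (w r) := fun r => by
    simp only [hw]
    fun_prop
  have hζi : Integrable ζ := hζ.1.continuous.integrable_of_hasCompactSupport hζ.2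
  have hθ1 : |θ| = 1 := by rcases hθ with h | h <;> simp [h]
  -- integrability of G
  have hGi : ∀ r, Integrable (G r) := fun r =>
    integrable_mul_of_bound hζ.1.continuous hζ.2
      (continuous_sigmoid.comp (hwc r)).aestronglyMeasurable (C := 1) fun x => by
        rw [abs_of_nonneg (Real.sigmoid_nonneg _)]; exact Real.sigmoid_le_one _
  have hG'c : ∀ r, Continuous (G' r) := fun r => by
    have h1 : Continuous fun x => fderiv ℝ F (x + r • u) u :=
      (hFc.comp (by fun_prop : Continuous fun x => x + r • u)).clm_apply continuous_const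
    exact hζ.1.continuous.mul (((continuous_sg.comp (hwc r)).div_const _).mul
      ((continuous_const.mul h1).sub continuous_const))
  have hG'b : ∀ r x, ‖G' r x‖ ≤ ζ x * ((r₀ * ‖u‖ + |a|) / κ) := by
    intro r x
    have h1 : |θ * fderiv ℝ F (x + r • u) u - a| ≤ r₀ * ‖u‖ + |a| := by
      calc |θ * fderiv ℝ F (x + r • u) u - a| ≤ |θ * fderiv ℝ F (x + r • u) u| + |a| := abs_sub _ _
        _ = |fderiv ℝ F (x + r • u) u| + |a| := by rw [abs_mul, hθ1, one_mul]
        _ ≤ r₀ * ‖u‖ + |a| := by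
          gcongr
          exact ((fderiv ℝ F (x + r • u)).le_opNorm u).trans
            (mul_le_mul_of_nonneg_right (hr₀ _) (norm_nonneg _))
    rw [Real.norm_eq_abs, abs_mul, abs_of_nonneg (hζ0 x)]
    refine mul_le_mul_of_nonneg_left ?_ (hζ0 x)
    rw [abs_mul, abs_of_nonneg (div_nonneg (sg_nonneg _) hκ.le)]
    calc sg (w r x) / κ * |θ * fderiv ℝ F (x + r • u) u - a| ≤
        1 / κ * (r₀ * ‖u‖ + |a|) := by
          refine mul_le_mul ?_ h1 (abs_nonneg _) (by positivity)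
          gcongr
          exact sg_le_one _
      _ = (r₀ * ‖u‖ + |a|) / κ := by ring
  have hGd : ∀ x r, HasDerivAt (fun r => G r x) (G' r x) r := by
    intro x r
    have h1 : HasDerivAt (fun r : ℝ => x + r • u) u r := by
      simpa using ((hasDerivAt_id r).smul_const u).const_add x
    have h2 : HasDerivAt (fun r : ℝ => F (x + r • u)) (fderiv ℝ F (x + r • u) u) r :=
      ((hF.1.differentiable (by simp) (x + r • u)).hasFDerivAt).comp_hasDerivAt r h1
    have h3 : HasDerivAt (fun r : ℝ => w r x) ((θ * fderiv ℝ F (x + r • u) u - a) / κ) r := by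
      have := ((((h2.sub_const (F x)).const_mul θ).fun_sub
        ((hasDerivAt_id r).const_mul a)).div_const κ).add_const M
      simpa [hw] using this
    have h4 := ((hasDerivAt_sg (w r x)).comp r h3).const_mul (ζ x)
    have e : G' r x = ζ x * (sg (w r x) * ((θ * fderiv ℝ F (x + r • u) u - a) / κ)) := by
      simp only [hG']; ring
    rw [e]
    exact h4
  set Y : ℝ → ℝ := fun r => ∫ x in A, G r x with hY
  have hYd : ∀ r, HasDerivAt Y (∫ x in A, G' r x) r := by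
    intro r
    refine (hasDerivAt_integral_of_dominated_loc_of_deriv_le (F := G) (F' := G') (s := univ)
      (bound := fun x => ζ x * ((r₀ * ‖u‖ + |a|) / κ)) (x₀ := r) univ_mem ?_ ?_ ?_ ?_ ?_ ?_).2
    · exact Eventually.of_forall fun r => (hGi r).aestronglyMeasurable.restrict
    · exact (hGi r).integrableOn
    · exact (hG'c r).aestronglyMeasurable
    · exact Eventually.of_forall fun x r _ => hG'b r x
    · exact (hζi.mul_const _).integrableOn
    · exact Eventually.of_forall fun x r _ => hGd x r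
  -- lower bound for the derivative
  have hlow : ∀ r ∈ Icc (0 : ℝ) t, -4 * B ≤ ∫ x in A, G' r x := by
    intro r hr
    set c : ℝ := θ * (a * r - κ * M) with hc
    have hwsg : ∀ x, sg (w r x) = sg (arg F (r • u) c κ x) := by
      intro x
      have hκ' := hκ.ne'
      rcases hθ with h | h
      · have : w r x = arg F (r • u) c κ x := by
          simp only [hw, arg, hc, h]
          field_simp
          ring
        rw [this]
      · have : w r x = -arg F (r • u) c κ x := by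
          simp only [hw, arg, hc, h]
          field_simp
          ring
        rw [this, sg_neg]
    have htr := translation_ineq hK hΦ hΩ hΩb hg hgK hgi hdiv hF hFε hζ hζ0 hZ hC₁ hζΩ (r • u)
      (hτ r hr) c hκ
    have m3 : StronglyMeasurable fun x => slack K Φ (fderiv ℝ F (x + r • u)) (g x) := by
      have : Continuous (fderiv ℝ fun x => F (x + r • u)) :=
        continuous_fderiv_test (hF.comp_add (r • u))
      have h := measurable_slack hK hΦ this hg
      simpa only [fderiv_comp_add'] using h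
    have i3 : Integrable fun x => wt ζ F (r • u) c κ x * slack K Φ (fderiv ℝ F (x + r • u)) (g x) :=
      integrable_mul_of_bound (continuous_wt hζ hF _ c κ) (hasCompactSupport_wt hζ F _ c κ)
        m3.aestronglyMeasurable fun x => hCs _ (hr₀ _) _ (hgK x)
    have hnn : ∀ x, 0 ≤ wt ζ F (r • u) c κ x * slack K Φ (fderiv ℝ F (x + r • u)) (g x) :=
      fun x => mul_nonneg (wt_nonneg hζ0 F _ c hκ x) (slack_nonneg hK hΦ _ (hgK x))
    have h1 : ∫ x in A, wt ζ F (r • u) c κ x * slack K Φ (fderiv ℝ F (x + r • u)) (g x) ≤ B :=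
      ((setIntegral_le_integral i3 (Eventually.of_forall hnn)).trans htr).trans (hB r hr)
    have h2 : ∫ x in A, -4 * (wt ζ F (r • u) c κ x * slack K Φ (fderiv ℝ F (x + r • u)) (g x)) ≤
        ∫ x in A, G' r x := by
      refine integral_mono_ae (i3.const_mul _).integrableOn ?_ ?_
      · exact ((hζi.mul_const ((r₀ * ‖u‖ + |a|) / κ)).mono' (hG'c r).aestronglyMeasurable
          (Eventually.of_forall (hG'b r))).integrableOn
      · have h3 : ∀ᵐ x ∂(volume.restrict A), x ∈ Ω →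
            ∀ p : E →L[ℝ] ℝ, a - 4 * slack K Φ p (g x) ≤ θ * p u := by
          rw [ae_restrict_iff' hA]
          filter_upwards [hAu] with x hx hxA hxΩ using hx hxΩ hxA
        filter_upwards [h3] with x hx
        by_cases hxs : x ∈ tsupport ζ
        · have h4 := hx (hζΩ hxs) (fderiv ℝ F (x + r • u))
          simp only [hG', wt, hwsg]
          have h5 : 0 ≤ ζ x * (sg (arg F (r • u) c κ x) / κ) :=
            mul_nonneg (hζ0 x) (div_nonneg (sg_nonneg _) hκ.le)
          nlinarith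
        · have h4 : ζ x = 0 := image_eq_zero_of_notMem_tsupport hxs
          simp [hG', wt, h4]
    rw [integral_const_mul] at h2
    linarith
  have hmv := (convex_Icc (0 : ℝ) t).mul_sub_le_image_sub_of_le_deriv (f := Y)
    (fun r _ => (hYd r).continuousAt.continuousWithinAt)
    (fun r _ => (hYd r).differentiableAt.differentiableWithinAt) (C := -4 * B)
    (fun r hr => by
      rw [(hYd r).deriv]
      exact hlow r (interior_subset hr)) 0 (left_mem_Icc.2 ht.le) t (right_mem_Icc.2 ht.le) ht.le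
  have hY0 : Y 0 = Real.sigmoid M * ∫ x in A, ζ x := by
    simp only [hY, hG, hw]
    rw [← integral_const_mul]
    refine integral_congr_ae (Eventually.of_forall fun x => ?_)
    simp [mul_comm]
  have hYt : Y t = ∫ x in A, ζ x * Real.sigmoid ((θ * (F (x + t • u) - F x) - a * t) / κ + M) := rfl
  rw [← hYt]
  rw [hY0] at hmv
  linarith

/-- The weighted slack at the base point. -/
theorem wt_slack_le {K : Set E} (hK : IsCompact K) {Φ : E → ℝ} (hΦ : Continuous Φ)
    {Ω : Set E} (hΩ : MeasurableSet Ω) (hΩb : Bornology.IsBounded Ω)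
    {g : E → E} (hg : Measurable g) (hgK : ∀ x, g x ∈ K)
    {F : E → ℝ} (hF : Test F) {ε : ℝ} (hFε : ∫ x in Ω, slack K Φ (fderiv ℝ F x) (g x) ≤ ε)
    {ζ : E → ℝ} (hζ : Test ζ) (hζ0 : ∀ x, 0 ≤ ζ x) {Z : ℝ} (hZ : ∀ x, ζ x ≤ Z)
    (hζΩ : tsupport ζ ⊆ Ω) (τ : E) (c : ℝ) {κ : ℝ} (hκ : 0 < κ) :
    Integrable (fun x => wt ζ F τ c κ x * slack K Φ (fderiv ℝ F x) (g x)) ∧
    ∫ x, wt ζ F τ c κ x * slack K Φ (fderiv ℝ F x) (g x) ≤ Z / κ * ε := by
  obtain ⟨r, hr⟩ := hF.exists_bound_fderiv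
  obtain ⟨Cs, hCs⟩ := exists_bound_slack hK hΦ r
  have hZ0 : 0 ≤ Z := (hζ0 0).trans (hZ 0)
  have hZκ : 0 ≤ Z / κ := div_nonneg hZ0 hκ.le
  have hFc := continuous_fderiv_test hF
  have m1 : StronglyMeasurable fun x => slack K Φ (fderiv ℝ F x) (g x) :=
    measurable_slack hK hΦ hFc hg
  have i1 : Integrable fun x => wt ζ F τ c κ x * slack K Φ (fderiv ℝ F x) (g x) :=
    integrable_mul_of_bound (continuous_wt hζ hF τ c κ) (hasCompactSupport_wt hζ F τ c κ)
      m1.aestronglyMeasurable fun x => hCs _ (hr x) _ (hgK x)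
  refine ⟨i1, ?_⟩
  set q : E → ℝ := Ω.indicator fun x => slack K Φ (fderiv ℝ F x) (g x) with hq
  have hq0 : ∀ x, 0 ≤ q x := fun x => by
    by_cases hx : x ∈ Ω
    · simpa [hq, hx] using slack_nonneg hK hΦ _ (hgK x)
    · simp [hq, hx]
  have hqi : Integrable q := by
    rw [hq, integrable_indicator_iff hΩ]
    refine Measure.integrableOn_of_bounded (M := Cs) hΩb.measure_lt_top.ne
      m1.aestronglyMeasurable ?_
    exact Eventually.of_forall fun x => hCs _ (hr x) _ (hgK x)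
  have hqint : ∫ x, q x ≤ ε := by
    rw [hq, integral_indicator hΩ]; exact hFε
  calc ∫ x, wt ζ F τ c κ x * slack K Φ (fderiv ℝ F x) (g x) ≤ ∫ x, Z / κ * q x := by
        refine integral_mono i1 (hqi.const_mul _) fun x => ?_
        by_cases hx : x ∈ tsupport ζ
        · have hxΩ := hζΩ hx
          simp only [hq, indicator_of_mem hxΩ]
          exact mul_le_mul_of_nonneg_right (wt_le hζ0 hZ F τ c hκ x)
            (slack_nonneg hK hΦ _ (hgK x))
        · have : ζ x = 0 := image_eq_zero_of_notMem_tsupport hx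
          simp only [wt, this, zero_mul]
          exact mul_nonneg hZκ (hq0 x)
    _ = Z / κ * ∫ x, q x := integral_const_mul _ _
    _ ≤ Z / κ * ε := mul_le_mul_of_nonneg_left hqint hZκ

theorem separating_function (K : Set E) (hK : IsCompact K) (hKc : Convex ℝ K)
    (Φ : E → ℝ) (hΦ : Continuous Φ) (hΦc : ConcaveOn ℝ K Φ)
    (Ω : Set E) (hΩ : IsOpen Ω) (hΩb : Bornology.IsBounded Ω)
    (g g₁ g₂ : E → E) (hg₁ : Measurable g₁) (hg₂ : Measurable g₂)
    (hg₁K : ∀ x, g₁ x ∈ K) (hg₂K : ∀ x, g₂ x ∈ K)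
    (hg : ∀ x, g x = (1 / 2 : ℝ) • (g₁ x + g₂ x))
    (hg0 : HasCompactSupport g)
    (hΦg : ∀ᵐ x, x ∈ Ω → 2 * Φ (g x) = Φ (g₁ x) + Φ (g₂ x))
    (hdiv : ∀ ψ : E → ℝ, Test ψ → tsupport ψ ⊆ Ω → ∫ x, fderiv ℝ ψ x (g x) = 0)
    (hcert : ∀ ε : ℝ, 0 < ε → ∃ F : E → ℝ, Test F ∧
      ∫ x in Ω, slack K Φ (fderiv ℝ F x) (g x) ≤ ε)
    (m m' : E) (hm : m ∈ K) (hm' : m' ∈ K)
    (hmm : Φ m + Φ m' < 2 * Φ ((1 / 2 : ℝ) • (m + m')))
    (ζ : E → ℝ) (hζ : Test ζ) (hζ0 : ∀ x, 0 ≤ ζ x) (hζΩ : tsupport ζ ⊆ Ω)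
    (ϱ : ℝ) (hϱ : 0 < ϱ) :
    ∃ S : E → ℝ, ContDiff ℝ ∞ S ∧ (∀ x, 0 ≤ S x ∧ S x ≤ 1) ∧
      ∫ x, ζ x * |fderiv ℝ S x (g₁ x - g₂ x)| ≤ ϱ ∧
      ∫ x in {x | m ∈ segment ℝ (g₁ x) (g₂ x)}, ζ x * (1 - S x) ≤ ϱ ∧
      ∫ x in {x | m' ∈ segment ℝ (g₁ x) (g₂ x)}, ζ x * S x ≤ ϱ := by
  -- basic facts
  have hgm : Measurable g := by
    have h1 : g = fun x => (1 / 2 : ℝ) • (g₁ x + g₂ x) := funext hg
    rw [h1]; fun_prop
  have hgK : ∀ x, g x ∈ K := fun x => by
    have := hKc (hg₁K x) (hg₂K x) (show (0 : ℝ) ≤ 1 / 2 by norm_num)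
      (show (0 : ℝ) ≤ 1 / 2 by norm_num) (by norm_num)
    rw [hg x, smul_add]; exact this
  obtain ⟨CK, hCK⟩ : ∃ C, ∀ s ∈ K, ‖s‖ ≤ C := hK.isBounded.exists_norm_le
  have hgi : Integrable g := by
    have h1 : IntegrableOn g (tsupport g) :=
      Measure.integrableOn_of_bounded (M := CK) hg0.isCompact.measure_lt_top.ne
        hgm.aestronglyMeasurable (Eventually.of_forall fun x => hCK _ (hgK x))
    exact (integrableOn_iff_integrable_of_support_subset (subset_tsupport g)).1 h1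
  obtain ⟨Z, hZ'⟩ := hζ.exists_bound
  have hZ : ∀ x, ζ x ≤ Z := fun x => (le_abs_self _).trans (hZ' x)
  have hZ0 : 0 ≤ Z := (hζ0 0).trans (hZ 0)
  obtain ⟨C₁, hC₁⟩ := hζ.exists_bound_fderiv
  have hζi : Integrable ζ := hζ.1.continuous.integrable_of_hasCompactSupport hζ.2
  set I := ∫ x, ζ x with hI
  have hI0 : 0 ≤ I := integral_nonneg hζ0
  have hIA : ∀ A : Set E, ∫ x in A, ζ x ≤ I := fun A =>
    setIntegral_le_integral hζi (Eventually.of_forall hζ0)
  set n : E := (1 / 2 : ℝ) • (m + m') with hn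
  set a := 2 * (Φ n - Φ m) with ha
  set a' := 2 * (Φ n - Φ m') with ha'
  set β := (a - a') / 2 with hβ
  set b := (a + a') / 2 with hb
  have hbpos : 0 < b := by rw [hb, ha, ha']; linarith
  set u : E := m - m' with hu
  -- choice of M
  obtain ⟨M, hM0, hM⟩ : ∃ M : ℝ, 0 < M ∧ (1 - Real.sigmoid M) * I ≤ ϱ / 2 := by
    have h1 : Tendsto (fun M => (1 - Real.sigmoid M) * I) atTop (𝓝 ((1 - 1) * I)) :=
      (tendsto_const_nhds.sub Real.tendsto_sigmoid_atTop).mul_const I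
    rw [sub_self, zero_mul] at h1
    obtain ⟨M, hM, hM'⟩ := ((h1.eventually (gt_mem_nhds (half_pos hϱ))).and
      (eventually_gt_atTop 0)).exists
    exact ⟨M, hM', hM.le⟩
  -- choice of t
  obtain ⟨η, hη0, hη⟩ : ∃ η > 0, ∀ τ : E, ‖τ‖ < η →
      C₁ * (∫ x, ‖g (x + τ) - g x‖) ≤ ϱ / 16 := by
    have h1 := (tendsto_translate hgi).const_mul C₁
    rw [mul_zero] at h1
    obtain ⟨η, hη0, hη⟩ := Metric.eventually_nhds_iff.1
      (h1.eventually (gt_mem_nhds (show 0 < ϱ / 16 by positivity)))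
    exact ⟨η, hη0, fun τ hτ => (hη (by simpa using hτ)).le⟩
  obtain ⟨δ, hδ0, hδ⟩ := hζ.2.isCompact.exists_thickening_subset_open hΩ hζΩ
  set t : ℝ := min 1 (min η δ / (2 * (‖u‖ + 1))) with ht
  have ht0 : 0 < t := by
    rw [ht]
    have := norm_nonneg u
    positivity
  have ht1 : t ≤ 1 := min_le_left _ _
  have htu : ∀ r ∈ Icc (0 : ℝ) t, ‖r • u‖ < min η δ := by
    intro r hr
    have h1 : t ≤ min η δ / (2 * (‖u‖ + 1)) := min_le_right _ _
    have h2 : 0 < min η δ := lt_min hη0 hδ0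
    have hu0 := norm_nonneg u
    rw [norm_smul, Real.norm_of_nonneg hr.1]
    calc r * ‖u‖ ≤ min η δ / (2 * (‖u‖ + 1)) * ‖u‖ := by gcongr; exact hr.2.trans h1
      _ < min η δ := by
        rw [div_mul_eq_mul_div, div_lt_iff₀ (by positivity)]
        nlinarith
  have hτ : ∀ r ∈ Icc (0 : ℝ) t, ∀ x ∈ tsupport ζ, x + r • u ∈ Ω := by
    intro r hr x hx
    apply hδ
    rw [Metric.mem_thickening_iff]
    refine ⟨x, hx, ?_⟩
    rw [dist_eq_norm, add_sub_cancel_left]
    exact (htu r hr).trans_le (min_le_right _ _)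
  set κ := b * t / M with hκ
  have hκ0 : 0 < κ := by positivity
  set ε := κ * ϱ / (32 * (Z + 1)) with hε
  have hε0 : 0 < ε := by positivity
  have hZε : Z / κ * ε ≤ ϱ / 32 := by
    rw [hε, div_mul_div_comm, div_le_div_iff₀ (by positivity) (by positivity)]
    have : 0 ≤ κ * ϱ := by positivity
    nlinarith
  obtain ⟨F, hF, hFε⟩ := hcert ε hε0
  have hB : ∀ r ∈ Icc (0 : ℝ) t,
      C₁ * (∫ x, ‖g (x + r • u) - g x‖) + 2 * (Z / κ * ε) ≤ ϱ / 8 := by
    intro r hr
    have h1 := hη (r • u) ((htu r hr).trans_le (min_le_left _ _))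
    linarith
  have hΩm : MeasurableSet Ω := hΩ.measurableSet
  set S : E → ℝ := fun x => Real.sigmoid (arg F (t • u) (β * t) κ x) with hS
  have hSc : ContDiff ℝ ∞ S := contDiff_sigmoid_arg hF _ _ _
  have hS01 : ∀ x, 0 ≤ S x ∧ S x ≤ 1 := fun x =>
    ⟨Real.sigmoid_nonneg _, Real.sigmoid_le_one _⟩
  have hκM : κ * M = b * t := by rw [hκ]; field_simp
  have hζS : Integrable fun x => ζ x * S x :=
    integrable_mul_of_bound hζ.1.continuous hζ.2 hSc.continuous.aestronglyMeasurable (C := 1)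
      fun x => by rw [abs_of_nonneg (hS01 x).1]; exact (hS01 x).2
  refine ⟨S, hSc, hS01, ?_, ?_, ?_⟩
  · -- first estimate
    have htr := translation_ineq hK hΦ hΩm hΩb hgm hgK hgi hdiv hF hFε hζ hζ0 hZ hC₁ hζΩ (t • u)
      (hτ t (right_mem_Icc.2 ht0.le)) (β * t) hκ0
    have htr' := htr.trans (hB t (right_mem_Icc.2 ht0.le))
    obtain ⟨i1, hws⟩ := wt_slack_le hK hΦ hΩm hΩb hgm hgK hF hFε hζ hζ0 hZ hζΩ (t • u) (β * t) hκ0
    obtain ⟨r₀, hr₀⟩ := hF.exists_bound_fderiv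
    obtain ⟨Cs, hCs⟩ := exists_bound_slack hK hΦ r₀
    have m3 : StronglyMeasurable fun x => slack K Φ (fderiv ℝ F (x + t • u)) (g x) := by
      have : Continuous (fderiv ℝ fun x => F (x + t • u)) :=
        continuous_fderiv_test (hF.comp_add (t • u))
      have h := measurable_slack hK hΦ this hgm
      simpa only [fderiv_comp_add'] using h
    have i3 : Integrable fun x =>
        wt ζ F (t • u) (β * t) κ x * slack K Φ (fderiv ℝ F (x + t • u)) (g x) :=
      integrable_mul_of_bound (continuous_wt hζ hF _ _ κ) (hasCompactSupport_wt hζ F _ _ κ)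
        m3.aestronglyMeasurable fun x => hCs _ (hr₀ _) _ (hgK x)
    have hSf : ∀ x v, fderiv ℝ S x v = sg (arg F (t • u) (β * t) κ x) / κ *
        (fderiv ℝ F (x + t • u) - fderiv ℝ F x) v := by
      intro x v
      rw [hS, (hasFDerivAt_sigmoid_arg hF (t • u) (β * t) κ x).fderiv]
      rfl
    have hpt : ∀ᵐ x : E, ζ x * |fderiv ℝ S x (g₁ x - g₂ x)| ≤
        2 * (wt ζ F (t • u) (β * t) κ x * slack K Φ (fderiv ℝ F (x + t • u)) (g x)) +
        2 * (wt ζ F (t • u) (β * t) κ x * slack K Φ (fderiv ℝ F x) (g x)) := by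
      filter_upwards [hΦg] with x hx
      by_cases hxs : x ∈ tsupport ζ
      · have h1 := h_bound hK hΦ (hg₁K x) (hg₂K x) (hg x) (hx (hζΩ hxs)) (fderiv ℝ F x)
          (fderiv ℝ F (x + t • u))
        have h2 : 0 ≤ sg (arg F (t • u) (β * t) κ x) / κ := div_nonneg (sg_nonneg _) hκ0.le
        rw [hSf, abs_mul, abs_of_nonneg h2]
        have h3 : ζ x * (sg (arg F (t • u) (β * t) κ x) / κ *
            |(fderiv ℝ F (x + t • u) - fderiv ℝ F x) (g₁ x - g₂ x)|) =
            wt ζ F (t • u) (β * t) κ x *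
            |(fderiv ℝ F (x + t • u) - fderiv ℝ F x) (g₁ x - g₂ x)| := by
          simp only [wt]; ring
        rw [h3]
        have h4 : 0 ≤ wt ζ F (t • u) (β * t) κ x := wt_nonneg hζ0 F _ _ hκ0 x
        nlinarith [mul_le_mul_of_nonneg_left h1 h4]
      · have h4 : ζ x = 0 := image_eq_zero_of_notMem_tsupport hxs
        simp [wt, h4]
    have hint : Integrable fun x =>
        2 * (wt ζ F (t • u) (β * t) κ x * slack K Φ (fderiv ℝ F (x + t • u)) (g x)) +
        2 * (wt ζ F (t • u) (β * t) κ x * slack K Φ (fderiv ℝ F x) (g x)) :=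
      (i3.const_mul 2).add (i1.const_mul 2)
    calc ∫ x, ζ x * |fderiv ℝ S x (g₁ x - g₂ x)| ≤
        ∫ x, (2 * (wt ζ F (t • u) (β * t) κ x * slack K Φ (fderiv ℝ F (x + t • u)) (g x)) +
        2 * (wt ζ F (t • u) (β * t) κ x * slack K Φ (fderiv ℝ F x) (g x))) := by
          refine integral_mono_of_nonneg (Eventually.of_forall fun x =>
            mul_nonneg (hζ0 x) (abs_nonneg _)) hint hpt
      _ = 2 * (∫ x, wt ζ F (t • u) (β * t) κ x * slack K Φ (fderiv ℝ F (x + t • u)) (g x)) +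
        2 * (∫ x, wt ζ F (t • u) (β * t) κ x * slack K Φ (fderiv ℝ F x) (g x)) := by
          rw [integral_add (i3.const_mul 2) (i1.const_mul 2), integral_const_mul,
            integral_const_mul]
      _ ≤ ϱ := by linarith
  · -- second estimate
    set A : Set E := {x | m ∈ segment ℝ (g₁ x) (g₂ x)} with hA
    have hAm : MeasurableSet A := measurableSet_mem_segment hg₁ hg₂ m
    have hAu : ∀ᵐ x, x ∈ Ω → x ∈ A → ∀ p : E →L[ℝ] ℝ,
        a - 4 * slack K Φ p (g x) ≤ 1 * p u := by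
      filter_upwards [hΦg] with x hx hxΩ hxA p
      have := slope_bound hK hKc hΦ hΦc (hg₁K x) (hg₂K x) (hg x) (hx hxΩ) hxA hm' p
      rw [one_mul]
      exact this
    have h1 := monotone_ineq hK hΦ hΩm hΩb hgm hgK hgi hdiv hF hFε hζ hζ0 hZ hC₁ hζΩ u ht0 hτ
      hκ0 hB hAm (θ := 1) (Or.inl rfl) hAu M
    have h2 : ∫ x in A, ζ x * Real.sigmoid ((1 * (F (x + t • u) - F x) - a * t) / κ + M) =
        ∫ x in A, ζ x * S x := by
      refine integral_congr_ae (Eventually.of_forall fun x => ?_)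
      have h3 : (1 * (F (x + t • u) - F x) - a * t) / κ + M = arg F (t • u) (β * t) κ x := by
        simp only [arg]
        rw [div_add' _ _ _ hκ0.ne', mul_comm M κ, hκM, hβ, hb]
        congr 1; ring
      simp only [h3, hS]
    rw [h2] at h1
    have h4 : ∫ x in A, ζ x * (1 - S x) = (∫ x in A, ζ x) - ∫ x in A, ζ x * S x := by
      rw [← integral_sub hζi.integrableOn hζS.integrableOn]
      refine integral_congr_ae (Eventually.of_forall fun x => ?_)
      simp only []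
      ring
    rw [h4]
    have h5 : (1 - Real.sigmoid M) * (∫ x in A, ζ x) ≤ (1 - Real.sigmoid M) * I :=
      mul_le_mul_of_nonneg_left (hIA A) (by linarith [Real.sigmoid_le_one M])
    nlinarith
  · -- third estimate
    set A : Set E := {x | m' ∈ segment ℝ (g₁ x) (g₂ x)} with hA
    have hAm : MeasurableSet A := measurableSet_mem_segment hg₁ hg₂ m'
    have hAu : ∀ᵐ x, x ∈ Ω → x ∈ A → ∀ p : E →L[ℝ] ℝ,
        a' - 4 * slack K Φ p (g x) ≤ -1 * p u := by
      filter_upwards [hΦg] with x hx hxΩ hxA p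
      have := slope_bound hK hKc hΦ hΦc (hg₁K x) (hg₂K x) (hg x) (hx hxΩ) hxA hm p
      rw [add_comm m' m] at this
      have h6 : -1 * p u = p (m' - m) := by
        rw [hu, map_sub, map_sub]; ring
      rw [h6]
      exact this
    have h1 := monotone_ineq hK hΦ hΩm hΩb hgm hgK hgi hdiv hF hFε hζ hζ0 hZ hC₁ hζΩ u ht0 hτ
      hκ0 hB hAm (θ := -1) (Or.inr rfl) hAu M
    have h2 : ∫ x in A, ζ x * Real.sigmoid ((-1 * (F (x + t • u) - F x) - a' * t) / κ + M) =
        ∫ x in A, ζ x * (1 - S x) := by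
      refine integral_congr_ae (Eventually.of_forall fun x => ?_)
      have h3 : (-1 * (F (x + t • u) - F x) - a' * t) / κ + M =
          -arg F (t • u) (β * t) κ x := by
        simp only [arg]
        rw [div_add' _ _ _ hκ0.ne', mul_comm M κ, hκM, hβ, hb, ← neg_div]
        congr 1; ring
      simp only [h3, hS, Real.sigmoid_neg]
    rw [h2] at h1
    have hζS' : Integrable fun x => ζ x * (1 - S x) := by
      have : Integrable fun x => ζ x - ζ x * S x := hζi.sub hζS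
      refine this.congr (Eventually.of_forall fun x => ?_)
      simp only []
      ring
    have h4 : ∫ x in A, ζ x * S x = (∫ x in A, ζ x) - ∫ x in A, ζ x * (1 - S x) := by
      rw [← integral_sub hζi.integrableOn hζS'.integrableOn]
      refine integral_congr_ae (Eventually.of_forall fun x => ?_)
      simp only []
      ring
    rw [h4]
    have h5 : (1 - Real.sigmoid M) * (∫ x in A, ζ x) ≤ (1 - Real.sigmoid M) * I :=
      mul_le_mul_of_nonneg_left (hIA A) (by linarith [Real.sigmoid_le_one M])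
    nlinarith

end Helper15.Dimer
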