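import Mathlib
import Pool.Agent.Helper15.DimerDefs
import Pool.Agent.Helper15.DimerBase
import Pool.Agent.Helper15.DimerSep
import Pool.Agent.Helper6.DimerOCT
import Pool.Agent.Helper20.DimerLINE
import Pool.Agent.Helper20.DimerBLOW
import Pool.Agent.Helper67.DimerTYPE
import Pool.Agent.Helper68.DimerBDRY
import Pool.Agent.Helper77.DimerCert

open MeasureTheory Set Filter Topology
open scoped ContDiff RealInnerProductSpace

namespace Helper15.Dimer

open Helper6.Dimer Helper20.Dimer Helper67.Dimer Helper68.Dimer Helper77.Dimer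

/-- The exit point argument. -/
theorem vanish_on_interior (R : Set E3) (hR : IsRegion R) (h : E3 → E3) (hh : Measurable h)
    (C : ℝ) (hC : ∀ x, ‖h x‖ ≤ C) (hh0 : ∀ x, x ∉ interior R → h x = 0)
    (hdivh : ∀ ψ : E3 → ℝ, Test ψ → ∫ x, fderiv ℝ ψ x (h x) = 0)
    (c : E3 → ℝ) (hc : Measurable c) (C' : ℝ) (hC' : ∀ x, |c x| ≤ C') (D : E3) (hD : D ≠ 0)
    (hch : ∀ᵐ x : E3, x ∈ interior R → c x ≠ 0 → h x = c x • D)
    (hdivc : ∀ ψ : E3 → ℝ, Test ψ → tsupport ψ ⊆ interior R →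
      ∫ x, c x * fderiv ℝ ψ x D = 0) :
    ∀ᵐ x : E3, x ∈ interior R → c x = 0 := by
  obtain ⟨hRc, -, N, hN, hreg⟩ := hR
  have hRcl : IsClosed R := hRc.isClosed
  obtain ⟨-, hbad⟩ := bad_lines_null R hRcl N hN hreg D hD
  set B : Set E3 := {x : E3 | ∃ t : ℝ, x + t • D ∈ frontier R ∧
      ¬ ∃ W : Set E3, IsOpen W ∧ x + t • D ∈ W ∧ ∃ f : E3 → ℝ, ContDiffOn ℝ 1 f W ∧
        fderiv ℝ f (x + t • D) D ≠ 0 ∧ ∀ y ∈ W, (y ∈ R ↔ f y ≤ 0)} with hB
  have hΩo : IsOpen (interior R) := isOpen_interior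
  have key : volume ({x | x ∈ interior R ∧ c x ≠ 0} \ B) = 0 := by
    refine measure_null_of_locally_null _ fun x hx => ?_
    obtain ⟨⟨hxΩ, -⟩, hxB⟩ := hx
    -- exit time
    set T : Set ℝ := {s | 0 ≤ s ∧ x + s • D ∉ interior R} with hT
    have hTcl : IsClosed T := by
      have : T = Ici 0 ∩ (fun s : ℝ => x + s • D) ⁻¹' (interior R)ᶜ := by
        ext s; simp [hT]
      rw [this]
      exact isClosed_Ici.inter (hΩo.isClosed_compl.preimage (by fun_prop))
    have hTne : T.Nonempty := by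
      obtain ⟨r, hr⟩ := hRc.isBounded.subset_ball (0 : E3)
      have hDn : 0 < ‖D‖ := norm_pos_iff.2 hD
      refine ⟨(‖x‖ + |r|) / ‖D‖, by positivity, fun hmem => ?_⟩
      have h1 := hr (interior_subset hmem)
      have h0 := hr (interior_subset hxΩ)
      rw [mem_ball_zero_iff] at h1 h0
      have h2 : ‖((‖x‖ + |r|) / ‖D‖) • D‖ = ‖x‖ + |r| := by
        rw [norm_smul, Real.norm_of_nonneg (by positivity), div_mul_cancel₀ _ hDn.ne']
      have h3 : ‖((‖x‖ + |r|) / ‖D‖) • D‖ ≤ ‖x + ((‖x‖ + |r|) / ‖D‖) • D‖ + ‖x‖ := by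
        have := norm_sub_le (x + ((‖x‖ + |r|) / ‖D‖) • D) x
        simpa using this
      have h4 := le_abs_self r
      linarith
    have hTbd : BddBelow T := ⟨0, fun s hs => hs.1⟩
    set L := sInf T with hL
    have hLT : L ∈ T := hTcl.csInf_mem hTne hTbd
    have hlt : ∀ s, 0 ≤ s → s < L → x + s • D ∈ interior R := by
      intro s hs0 hs
      by_contra hcon
      exact absurd (csInf_le hTbd (show s ∈ T from ⟨hs0, hcon⟩)) (not_le.2 hs)
    have hLpos : 0 < L := by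
      rcases hLT.1.lt_or_eq with h | h
      · exact h
      · exfalso
        apply hLT.2
        rw [← h]; simpa using hxΩ
    -- the exit point
    have hcont : Tendsto (fun s : ℝ => x + s • D) (𝓝[<] L) (𝓝 (x + L • D)) :=
      ((by fun_prop : Continuous fun s : ℝ => x + s • D).tendsto L).mono_left
        nhdsWithin_le_nhds
    have hev : ∀ᶠ s in 𝓝[<] L, 0 ≤ s ∧ s < L := by
      have h1 : ∀ᶠ s in 𝓝[<] L, s ∈ Iio L := self_mem_nhdsWithin
      have h2 : ∀ᶠ s in 𝓝[<] L, s ∈ Ioi 0 := mem_nhdsWithin_of_mem_nhds (Ioi_mem_nhds hLpos)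
      filter_upwards [h1, h2] with s hs hs' using ⟨le_of_lt hs', hs⟩
    have hzR : x + L • D ∈ R := by
      refine hRcl.mem_of_tendsto hcont ?_
      filter_upwards [hev] with s hs using interior_subset (hlt s hs.1 hs.2)
    have hzf : x + L • D ∈ frontier R := ⟨subset_closure hzR, hLT.2⟩
    have hgood : ∃ W : Set E3, IsOpen W ∧ x + L • D ∈ W ∧ ∃ f : E3 → ℝ, ContDiffOn ℝ 1 f W ∧
        fderiv ℝ f (x + L • D) D ≠ 0 ∧ ∀ y ∈ W, (y ∈ R ↔ f y ≤ 0) := by
      by_contra hcon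
      exact hxB ⟨L, hzf, hcon⟩
    obtain ⟨W, hW, hzW, f, hf, hfD, hfR⟩ := hgood
    obtain ⟨W', hW', hzW', hW'0⟩ := vanish_near_boundary R hRcl h hh C hC hh0 hdivh c hc C' hC' D
      hch hdivc W hW _ hzf hzW f hf hfD hfR
    obtain ⟨s, hs0, hsL, hsW⟩ : ∃ s, 0 ≤ s ∧ s < L ∧ x + s • D ∈ W' := by
      have h3 : ∀ᶠ s in 𝓝[<] L, x + s • D ∈ W' := hcont (hW'.mem_nhds hzW')
      obtain ⟨s, hs, hs'⟩ := (hev.and h3).exists
      exact ⟨s, hs.1, hs.2, hs'⟩
    have hline := line_invariance (interior R) hΩo c hc C' hC' D hdivc s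
    -- open neighbourhood
    have hU1 : ∀ᶠ y in 𝓝 x, ∀ r ∈ Icc (0 : ℝ) 1, y + (r * s) • D ∈ interior R := by
      refine isCompact_Icc.eventually_forall_of_forall_eventually fun r hr => ?_
      have hcts : Continuous fun q : E3 × ℝ => q.1 + (q.2 * s) • D := by fun_prop
      refine hcts.continuousAt.eventually (hΩo.mem_nhds ?_)
      refine hlt (r * s) (mul_nonneg hr.1 hs0) ?_
      calc r * s ≤ 1 * s := mul_le_mul_of_nonneg_right hr.2 hs0
        _ < L := by rw [one_mul]; exact hsL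
    have hU2 : ∀ᶠ y in 𝓝 x, y + s • D ∈ W' := by
      have hcts : Continuous fun y : E3 => y + s • D := by fun_prop
      exact hcts.continuousAt.eventually (hW'.mem_nhds hsW)
    have hW'0' : ∀ᵐ y : E3, y + s • D ∈ interior R → y + s • D ∈ W' → c (y + s • D) = 0 :=
      (measurePreserving_add_right volume (s • D)).quasiMeasurePreserving.ae hW'0
    refine ⟨{y | c y = 0 → False} ∩ {y | (∀ r ∈ Icc (0 : ℝ) 1, y + (r * s) • D ∈ interior R) ∧
      y + s • D ∈ W'}, ?_, ?_⟩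
    · have h1 : {y | (∀ r ∈ Icc (0 : ℝ) 1, y + (r * s) • D ∈ interior R) ∧
          y + s • D ∈ W'} ∈ 𝓝[{x | x ∈ interior R ∧ c x ≠ 0} \ B] x :=
        mem_nhdsWithin_of_mem_nhds (hU1.and hU2)
      filter_upwards [h1, self_mem_nhdsWithin] with y hy hy' using ⟨hy'.1.2, hy⟩
    · have : ∀ᵐ y : E3, y ∉ {y | c y = 0 → False} ∩
          {y | (∀ r ∈ Icc (0 : ℝ) 1, y + (r * s) • D ∈ interior R) ∧ y + s • D ∈ W'} := by
        filter_upwards [hline, hW'0'] with y hy1 hy2 hy3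
        apply hy3.1
        rw [← hy1 hy3.2.1]
        exact hy2 (by simpa using hy3.2.1 1 (by simp)) hy3.2.2
      exact (measure_eq_zero_iff_ae_notMem).2 this
  have key2 : volume {x | x ∈ interior R ∧ c x ≠ 0} = 0 := by
    refine measure_mono_null (t := ({x | x ∈ interior R ∧ c x ≠ 0} \ B) ∪ B) ?_ ?_
    · intro x hx
      by_cases hxB : x ∈ B
      · exact Or.inr hxB
      · exact Or.inl ⟨hx, hxB⟩
    · exact measure_union_null key hbad
  have := (measure_eq_zero_iff_ae_notMem).1 key2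
  filter_upwards [this] with x hx hxΩ
  by_contra hcon
  exact hx ⟨hxΩ, hcon⟩

/-- The boundary has measure zero. -/
theorem volume_frontier (R : Set E3) (hR : IsRegion R) : volume (frontier R) = 0 := by
  obtain ⟨hRc, -, N, hN, hreg⟩ := hR
  have hD : (EuclideanSpace.single (0 : Fin 3) (1 : ℝ) : E3) ≠ 0 := by
    intro h
    have := congrArg (fun v : E3 => v 0) h
    simp at this
  exact (bad_lines_null R hRc.isClosed N hN hreg _ hD).1

theorem zero_mem_octahedron : (0 : E3) ∈ octahedron := by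
  simp [octahedron]

theorem main_theorem (ent : E3 → ℝ) (hcont : ContinuousOn ent octahedron)
    (hconc : StrictConcaveOn ℝ (octahedron \ edges) ent) (R : Set E3) (hR : IsRegion R)
    (b : (E3 → ℝ) → ℝ) (g₁ g₂ : E3 → E3) (h₁ : IsMaximizer ent R b g₁)
    (h₂ : IsMaximizer ent R b g₂) : g₁ =ᵐ[volume] g₂ := by
  have hRcpt : IsCompact R := hR.1
  have hRcl : IsClosed R := hRcpt.isClosed
  have hRm : MeasurableSet R := hRcl.measurableSet
  have hRfin : volume R < ⊤ := hRcpt.measure_lt_top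
  have hRint : (interior R).Nonempty := by
    obtain ⟨-, ⟨U, hU, hUc, rfl⟩, -⟩ := hR
    exact hUc.nonempty.mono (interior_maximal subset_closure hU)
  have hRpos : 0 < (volume R).toReal := by
    refine ENNReal.toReal_pos ?_ hRfin.ne
    exact (Measure.measure_pos_of_nonempty_interior _ hRint).ne'
  have hfr : volume (frontier R) = 0 := volume_frontier R hR
  have hK : IsCompact octahedron := isCompact_octahedron
  have hKc : Convex ℝ octahedron := convex_octahedron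
  obtain ⟨C, hC⟩ : ∃ C, ∀ s ∈ octahedron, ‖s‖ ≤ C := hK.isBounded.exists_norm_le
  have hC0 : 0 ≤ C := (norm_nonneg _).trans (hC 0 zero_mem_octahedron)
  -- extension of the entropy
  obtain ⟨Φ, hΦ⟩ : ∃ Φ : C(E3, ℝ), ∀ s ∈ octahedron, Φ s = ent s := by
    obtain ⟨Φ, hΦ⟩ := ContinuousMap.exists_restrict_eq hK.isClosed
      (⟨octahedron.domRestrict ent, hcont.domRestrict⟩ : C(octahedron, ℝ))
    refine ⟨Φ, fun s hs => ?_⟩
    exact congrArg (fun F : C(octahedron, ℝ) => F ⟨s, hs⟩) hΦ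
  obtain ⟨v, w, hvw, hdisj, hface⟩ := octahedron_edges
  obtain ⟨hconc', hcommon⟩ := hface ent hcont hconc
  have hΦc : ConcaveOn ℝ octahedron Φ := hconc'.congr fun s hs => (hΦ s hs).symm
  have hmid : ∀ s ∈ octahedron, ∀ t ∈ octahedron, (1 / 2 : ℝ) • (s + t) ∈ octahedron := by
    intro s hs t ht
    have := hKc hs ht (show (0 : ℝ) ≤ 1 / 2 by norm_num) (show (0 : ℝ) ≤ 1 / 2 by norm_num)
      (by norm_num)
    rwa [← smul_add] at this
  have hcommon' : ∀ s ∈ octahedron, ∀ t ∈ octahedron, s ≠ t →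
        2 * Φ ((1 / 2 : ℝ) • (s + t)) ≤ Φ s + Φ t →
        ∃ j, s ∈ segment ℝ (v j) (w j) ∧ t ∈ segment ℝ (v j) (w j) := by
    intro s hs t ht hst hle
    rw [hΦ _ (hmid s hs t ht), hΦ s hs, hΦ t ht] at hle
    exact hcommon s hs t ht hst hle
  have hmidconc : ∀ s ∈ octahedron, ∀ t ∈ octahedron,
      Φ s + Φ t ≤ 2 * Φ ((1 / 2 : ℝ) • (s + t)) := by
    intro s hs t ht
    have := hΦc.2 hs ht (show (0 : ℝ) ≤ 1 / 2 by norm_num) (show (0 : ℝ) ≤ 1 / 2 by norm_num)
      (by norm_num)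
    simp only [smul_eq_mul] at this
    rw [← smul_add] at this
    linarith
  obtain ⟨⟨hg₁m, hg₁0, hg₁R, hg₁i, hg₁b⟩, hmax₁⟩ := h₁
  obtain ⟨⟨hg₂m, hg₂0, hg₂R, hg₂i, hg₂b⟩, hmax₂⟩ := h₂
  have hg₁K : ∀ x, g₁ x ∈ octahedron := fun x => by
    by_cases hx : x ∈ R
    · exact hg₁R x hx
    · rw [hg₁0 x hx]; exact zero_mem_octahedron
  have hg₂K : ∀ x, g₂ x ∈ octahedron := fun x => by
    by_cases hx : x ∈ R
    · exact hg₂R x hx
    · rw [hg₂0 x hx]; exact zero_mem_octahedron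
  set g : E3 → E3 := fun x => (1 / 2 : ℝ) • (g₁ x + g₂ x) with hg
  have hgm : Measurable g := by
    have : Measurable fun x => (1 / 2 : ℝ) • (g₁ x + g₂ x) := by fun_prop
    exact this
  have hgK : ∀ x, g x ∈ octahedron := fun x => hmid _ (hg₁K x) _ (hg₂K x)
  have hg0 : ∀ x, x ∉ R → g x = 0 := fun x hx => by simp [hg, hg₁0 x hx, hg₂0 x hx]
  have hint₁ : ∀ ψ : E3 → ℝ, Test ψ → Integrable fun x => fderiv ℝ ψ x (g₁ x) :=
    fun ψ hψ => integrable_fderiv_apply hψ hg₁m fun x => hC _ (hg₁K x)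
  have hint₂ : ∀ ψ : E3 → ℝ, Test ψ → Integrable fun x => fderiv ℝ ψ x (g₂ x) :=
    fun ψ hψ => integrable_fderiv_apply hψ hg₂m fun x => hC _ (hg₂K x)
  have hdivg : ∀ ψ : E3 → ℝ, Test ψ →
      divergence g ψ = (1 / 2) * (divergence g₁ ψ + divergence g₂ ψ) := by
    intro ψ hψ
    have h1 : ∫ x, fderiv ℝ ψ x (g x) =
        (1 / 2) * ((∫ x, fderiv ℝ ψ x (g₁ x)) + ∫ x, fderiv ℝ ψ x (g₂ x)) := by
      rw [← integral_add (hint₁ ψ hψ) (hint₂ ψ hψ), ← integral_const_mul]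
      refine integral_congr_ae (Eventually.of_forall fun x => ?_)
      simp only [hg, map_smul, map_add, smul_eq_mul]
    unfold divergence
    rw [h1]; ring
  have hdivh : ∀ ψ : E3 → ℝ, Test ψ → ∫ x, fderiv ℝ ψ x (g₁ x - g₂ x) = 0 := by
    intro ψ hψ
    have h1 : ∫ x, fderiv ℝ ψ x (g₁ x - g₂ x) =
        (∫ x, fderiv ℝ ψ x (g₁ x)) - ∫ x, fderiv ℝ ψ x (g₂ x) := by
      rw [← integral_sub (hint₁ ψ hψ) (hint₂ ψ hψ)]
      refine integral_congr_ae (Eventually.of_forall fun x => ?_)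
      simp only [map_sub]
    have h2 := hg₁b ψ hψ
    have h3 := hg₂b ψ hψ
    unfold divergence at h2 h3
    rw [h1]; linarith
  have hgAF : g ∈ AF R b := by
    refine ⟨hgm, hg0, fun x _ => hgK x, fun ψ hψ hs => ?_, fun ψ hψ => ?_⟩
    · rw [hdivg ψ hψ, hg₁i ψ hψ hs, hg₂i ψ hψ hs]; ring
    · rw [hdivg ψ hψ, hg₁b ψ hψ, hg₂b ψ hψ]; ring
  -- reduce to the integral of Φ
  have hEnt : ∀ f : E3 → E3, (∀ x ∈ R, f x ∈ octahedron) →
      Ent ent R f = (volume R).toReal⁻¹ * ∫ x in R, Φ (f x) := by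
    intro f hf
    unfold Ent
    congr 1
    refine setIntegral_congr_fun hRm fun x hx => ?_
    exact (hΦ _ (hf x hx)).symm
  have hcmp : ∀ f f' : E3 → E3, (∀ x ∈ R, f x ∈ octahedron) → (∀ x ∈ R, f' x ∈ octahedron) →
      Ent ent R f ≤ Ent ent R f' → ∫ x in R, Φ (f x) ≤ ∫ x in R, Φ (f' x) := by
    intro f f' hf hf' hle
    rw [hEnt f hf, hEnt f' hf'] at hle
    exact le_of_mul_le_mul_left hle (inv_pos.2 hRpos)
  obtain ⟨CΦ, hCΦ⟩ : ∃ C, ∀ s ∈ octahedron, ‖Φ s‖ ≤ C :=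
    hK.exists_bound_of_continuousOn Φ.continuous.continuousOn
  have hintΦ : ∀ f : E3 → E3, Measurable f → (∀ x, f x ∈ octahedron) →
      IntegrableOn (fun x => Φ (f x)) R := by
    intro f hf hfK
    refine Measure.integrableOn_of_bounded (M := CΦ) hRfin.ne ?_ ?_
    · exact (Φ.continuous.measurable.comp hf).aestronglyMeasurable
    · exact Eventually.of_forall fun x => hCΦ _ (hfK x)
  have hI1 : ∫ x in R, Φ (g x) ≤ ∫ x in R, Φ (g₁ x) :=
    hcmp g g₁ (fun x _ => hgK x) hg₁R (hmax₁ g hgAF)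
  have hI2 : ∫ x in R, Φ (g x) ≤ ∫ x in R, Φ (g₂ x) :=
    hcmp g g₂ (fun x _ => hgK x) hg₂R (hmax₂ g hgAF)
  have hI3 : ∫ x in R, (2 * Φ (g x) - (Φ (g₁ x) + Φ (g₂ x))) =
      2 * (∫ x in R, Φ (g x)) - ((∫ x in R, Φ (g₁ x)) + ∫ x in R, Φ (g₂ x)) := by
    rw [integral_sub, integral_const_mul, integral_add]
    · exact hintΦ g₁ hg₁m hg₁K
    · exact hintΦ g₂ hg₂m hg₂K
    · exact (hintΦ g hgm hgK).const_mul 2
    · exact (hintΦ g₁ hg₁m hg₁K).add (hintΦ g₂ hg₂m hg₂K)
  have hnn : ∀ x, 0 ≤ 2 * Φ (g x) - (Φ (g₁ x) + Φ (g₂ x)) := fun x => by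
    have := hmidconc _ (hg₁K x) _ (hg₂K x)
    simp only [hg]; linarith
  have hI4 : ∫ x in R, (2 * Φ (g x) - (Φ (g₁ x) + Φ (g₂ x))) = 0 := by
    refine le_antisymm ?_ (integral_nonneg hnn)
    rw [hI3]; linarith
  have hΦg : ∀ᵐ x, x ∈ R → 2 * Φ (g x) = Φ (g₁ x) + Φ (g₂ x) := by
    have h1 := (setIntegral_eq_zero_iff_of_nonneg_ae (μ := volume) (s := R)
      (Eventually.of_forall hnn)
      (((hintΦ g hgm hgK).const_mul 2).sub
        ((hintΦ g₁ hg₁m hg₁K).add (hintΦ g₂ hg₂m hg₂K)))).1 hI4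
    have h2 := (ae_restrict_iff' hRm).1 h1
    filter_upwards [h2] with x hx hxR
    have := hx hxR
    simp only [Pi.zero_apply] at this
    linarith
  -- certificates
  have hcert : ∀ ε : ℝ, 0 < ε → ∃ F : E3 → ℝ, Test F ∧
      ∫ x in interior R, slack octahedron Φ (fderiv ℝ F x) (g x) ≤ ε := by
    intro ε hε
    obtain ⟨F, hF, hFε⟩ := exists_certificate octahedron hK hKc Φ Φ.continuous hΦc R hRm
      hRcpt.isBounded g hgm (fun x _ => hgK x) (by
        intro f hf hfK hfdiv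
        have hf' : R.indicator f ∈ AF R b := by
          have hd : ∀ ψ : E3 → ℝ, Test ψ →
              divergence (R.indicator f) ψ = divergence g ψ := by
            intro ψ hψ
            unfold divergence
            congr 1
            have e1 : ∫ x, fderiv ℝ ψ x (R.indicator f x) = ∫ x in R, fderiv ℝ ψ x (f x) := by
              rw [← integral_indicator hRm]
              refine integral_congr_ae (Eventually.of_forall fun x => ?_)
              by_cases hx : x ∈ R <;> simp [hx]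
            have e2 : ∫ x, fderiv ℝ ψ x (g x) = ∫ x in R, fderiv ℝ ψ x (g x) := by
              rw [← integral_indicator hRm]
              refine integral_congr_ae (Eventually.of_forall fun x => ?_)
              by_cases hx : x ∈ R
              · simp [hx]
              · simp [hx, hg0 x hx]
            rw [e1, e2, hfdiv ψ hψ]
          refine ⟨hf.indicator hRm, fun x hx => by simp [hx], fun x hx => by
            simpa [hx] using hfK x hx, fun ψ hψ hs => ?_, fun ψ hψ => ?_⟩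
          · rw [hd ψ hψ]; exact hgAF.2.2.2.1 ψ hψ hs
          · rw [hd ψ hψ]; exact hgAF.2.2.2.2 ψ hψ
        have h1 : ∫ x in R, Φ (R.indicator f x) ≤ ∫ x in R, Φ (g₁ x) :=
          hcmp _ g₁ (fun x hx => hf'.2.2.1 x hx) hg₁R (hmax₁ _ hf')
        have h2 : ∫ x in R, Φ (R.indicator f x) = ∫ x in R, Φ (f x) :=
          setIntegral_congr_fun hRm fun x hx => by simp [hx]
        have h3 : ∫ x in R, Φ (R.indicator f x) ≤ ∫ x in R, Φ (g₂ x) :=
          hcmp _ g₂ (fun x hx => hf'.2.2.1 x hx) hg₂R (hmax₂ _ hf')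
        rw [h2] at h1 h3
        rw [hI3] at hI4
        linarith) ε hε
    refine ⟨F, hF, le_trans ?_ hFε⟩
    obtain ⟨r, hr⟩ := hF.exists_bound_fderiv
    obtain ⟨Cs, hCs⟩ := exists_bound_slack hK Φ.continuous r
    refine setIntegral_mono_set ?_ (Eventually.of_forall fun x =>
      slack_nonneg hK Φ.continuous _ (hgK x)) interior_subset.eventuallyLE
    refine Measure.integrableOn_of_bounded (M := Cs) hRfin.ne ?_ ?_
    · exact (measurable_slack hK Φ.continuous (continuous_fderiv_test hF) hgm).aestronglyMeasurable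
    · exact Eventually.of_forall fun x => hCs _ (hr x) _ (hgK x)
  -- type decomposition
  have htype : ∀ᵐ x, x ∈ interior R → g₁ x ≠ g₂ x →
      ∃ j, g₁ x ∈ segment ℝ (v j) (w j) ∧ g₂ x ∈ segment ℝ (v j) (w j) := by
    filter_upwards [hΦg] with x hx hxR hne
    exact hcommon' _ (hg₁K x) _ (hg₂K x) hne (hx (interior_subset hxR)).le
  have hgsupp : HasCompactSupport g := by
    refine hRcpt.of_isClosed_subset (isClosed_tsupport g) ?_
    refine closure_minimal ?_ hRcl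
    intro x hx
    by_contra hcon
    exact hx (hg0 x hcon)
  have hsep : ∀ j k, j ≠ k → ∀ m ∈ openSegment ℝ (v j) (w j),
      ∀ m' ∈ openSegment ℝ (v k) (w k),
      ∀ ζ : E3 → ℝ, Test ζ → (∀ x, 0 ≤ ζ x) → tsupport ζ ⊆ interior R → ∀ ϱ : ℝ, 0 < ϱ →
      ∃ S : E3 → ℝ, ContDiff ℝ ∞ S ∧ (∀ x, 0 ≤ S x ∧ S x ≤ 1) ∧
      ∫ x, ζ x * |fderiv ℝ S x (g₁ x - g₂ x)| ≤ ϱ ∧
      ∫ x in {x | m ∈ segment ℝ (g₁ x) (g₂ x)}, ζ x * (1 - S x) ≤ ϱ ∧
      ∫ x in {x | m' ∈ segment ℝ (g₁ x) (g₂ x)}, ζ x * S x ≤ ϱ := by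
    intro j k hjk m hm m' hm' ζ hζ hζ0 hζΩ ϱ hϱ
    have hseg : ∀ l, segment ℝ (v l) (w l) ⊆ octahedron := fun l =>
      hKc.segment_subset (hvw l).1 (hvw l).2.1
    have hmK : m ∈ octahedron := hseg j (openSegment_subset_segment _ _ _ hm)
    have hmK' : m' ∈ octahedron := hseg k (openSegment_subset_segment _ _ _ hm')
    have hmm : Φ m + Φ m' < 2 * Φ ((1 / 2 : ℝ) • (m + m')) := by
      by_contra hcon
      push Not at hcon
      have hne : m ≠ m' := by
        rintro rfl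
        exact hdisj j k hjk m hm (openSegment_subset_segment _ _ _ hm')
      obtain ⟨l, hl, hl'⟩ := hcommon' m hmK m' hmK' hne hcon
      have h1 : j = l := by
        by_contra hjl
        exact hdisj j l hjl m hm hl
      have h2 : k = l := by
        by_contra hkl
        exact hdisj k l hkl m' hm' hl'
      exact hjk (h1.trans h2.symm)
    exact separating_function octahedron hK hKc Φ Φ.continuous hΦc (interior R) isOpen_interior
      (hRcpt.isBounded.subset interior_subset) g g₁ g₂ hg₁m hg₂m hg₁K hg₂K (fun x => rfl)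
      hgsupp (by filter_upwards [hΦg] with x hx hxR using hx (interior_subset hxR))
      (fun ψ hψ hs => by
        have := hgAF.2.2.2.1 ψ hψ hs
        unfold divergence at this
        linarith) hcert m m' hmK hmK' hmm ζ hζ hζ0 hζΩ ϱ hϱ
  have hhC : ∀ x, ‖g₁ x - g₂ x‖ ≤ 2 * C := fun x => by
    have := norm_sub_le (g₁ x) (g₂ x)
    linarith [hC _ (hg₁K x), hC _ (hg₂K x)]
  have hdivj : ∀ j, ∀ ψ : E3 → ℝ, Test ψ → tsupport ψ ⊆ interior R →
      ∫ x in {x | g₁ x ≠ g₂ x ∧ g₁ x ∈ segment ℝ (v j) (w j) ∧ g₂ x ∈ segment ℝ (v j) (w j)},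
      fderiv ℝ ψ x (g₁ x - g₂ x) = 0 := fun j ψ hψ hs =>
    type_divergence_free v w (fun j => (hvw j).2.2) hdisj (interior R) isOpen_interior
      (hRcpt.isBounded.subset interior_subset) g₁ g₂ hg₁m hg₂m (2 * C) hhC
      (fun ψ hψ _ => hdivh ψ hψ) htype hsep j ψ hψ hs
  -- vector field on the interior
  set h : E3 → E3 := (interior R).indicator fun x => g₁ x - g₂ x with hh
  have hhm : Measurable h := (hg₁m.sub hg₂m).indicator isOpen_interior.measurableSet
  have hheq : h =ᵐ[volume] fun x => g₁ x - g₂ x := by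
    have h1 := (measure_eq_zero_iff_ae_notMem).1 hfr
    filter_upwards [h1] with x hx
    by_cases hxi : x ∈ interior R
    · simp [hh, hxi]
    · have hxR : x ∉ R := fun hxR => hx ⟨subset_closure hxR, hxi⟩
      simp [hh, hxi, hg₁0 x hxR, hg₂0 x hxR]
  have hhC' : ∀ x, ‖h x‖ ≤ 2 * C := fun x => by
    by_cases hxi : x ∈ interior R
    · simpa [hh, hxi] using hhC x
    · simpa [hh, hxi] using hC0
  have hh0 : ∀ x, x ∉ interior R → h x = 0 := fun x hx => by simp [hh, hx]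
  have hdivh' : ∀ ψ : E3 → ℝ, Test ψ → ∫ x, fderiv ℝ ψ x (h x) = 0 := by
    intro ψ hψ
    rw [← hdivh ψ hψ]
    refine integral_congr_ae ?_
    filter_upwards [hheq] with x hx
    rw [hx]
  have hconcl : ∀ j, ∀ᵐ x : E3, x ∈ interior R →
      ¬ (g₁ x ≠ g₂ x ∧ g₁ x ∈ segment ℝ (v j) (w j) ∧ g₂ x ∈ segment ℝ (v j) (w j)) := by
    intro j
    set D : E3 := w j - v j with hD
    have hD0 : D ≠ 0 := sub_ne_zero.2 (hvw j).2.2.symm
    have hDn : 0 < ‖D‖ := norm_pos_iff.2 hD0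
    set A : Set E3 := {x | g₁ x ≠ g₂ x ∧ g₁ x ∈ segment ℝ (v j) (w j) ∧
      g₂ x ∈ segment ℝ (v j) (w j)} with hA
    have hAm : MeasurableSet A := by
      have e1 : MeasurableSet {x | g₁ x = g₂ x} := measurableSet_eq_fun hg₁m hg₂m
      have e2 : MeasurableSet (g₁ ⁻¹' segment ℝ (v j) (w j)) :=
        hg₁m (isClosed_segment' _ _).measurableSet
      have e3 : MeasurableSet (g₂ ⁻¹' segment ℝ (v j) (w j)) :=
        hg₂m (isClosed_segment' _ _).measurableSet
      exact e1.compl.inter (e2.inter e3)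
    have hpar : ∀ x ∈ A, g₁ x - g₂ x = (⟪D, g₁ x - g₂ x⟫ / ‖D‖ ^ 2) • D := by
      rintro x ⟨-, hx1, hx2⟩
      rw [segment_eq_image'] at hx1 hx2
      obtain ⟨θ₁, -, e1⟩ := hx1
      obtain ⟨θ₂, -, e2⟩ := hx2
      have e3 : g₁ x - g₂ x = (θ₁ - θ₂) • D := by
        rw [← e1, ← e2]
        simp only [hD]
        module
      rw [e3, inner_smul_right, real_inner_self_eq_norm_sq, mul_div_assoc, div_self (by positivity),
        mul_one]
    set c : E3 → ℝ := A.indicator fun x => ⟪D, g₁ x - g₂ x⟫ / ‖D‖ ^ 2 with hc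
    have hcm : Measurable c :=
      ((measurable_const.inner (hg₁m.sub hg₂m)).div_const _).indicator hAm
    have hcb : ∀ x, |c x| ≤ 2 * C / ‖D‖ := by
      intro x
      by_cases hx : x ∈ A
      · simp only [hc, indicator_of_mem hx]
        rw [abs_div, abs_of_nonneg (show (0 : ℝ) ≤ ‖D‖ ^ 2 by positivity), div_le_div_iff₀
          (by positivity) hDn]
        calc |⟪D, g₁ x - g₂ x⟫| * ‖D‖ ≤ (‖D‖ * ‖g₁ x - g₂ x‖) * ‖D‖ := by
              gcongr; exact abs_real_inner_le_norm _ _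
          _ ≤ (‖D‖ * (2 * C)) * ‖D‖ := by gcongr; exact hhC x
          _ = 2 * C * ‖D‖ ^ 2 := by ring
      · simp only [hc, indicator_of_notMem hx, abs_zero]
        positivity
    have hch : ∀ᵐ x : E3, x ∈ interior R → c x ≠ 0 → h x = c x • D := by
      refine Eventually.of_forall fun x hxi hcx => ?_
      have hxA : x ∈ A := by
        by_contra hcon
        exact hcx (by simp [hc, hcon])
      simp only [hh, indicator_of_mem hxi, hc, indicator_of_mem hxA]
      exact hpar x hxA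
    have hdivc : ∀ ψ : E3 → ℝ, Test ψ → tsupport ψ ⊆ interior R →
        ∫ x, c x * fderiv ℝ ψ x D = 0 := by
      intro ψ hψ hs
      rw [← hdivj j ψ hψ hs, ← integral_indicator hAm]
      refine integral_congr_ae (Eventually.of_forall fun x => ?_)
      by_cases hx : x ∈ A
      · have := hpar x hx
        simp only [hc, indicator_of_mem hx]
        conv_rhs => rw [this]
        rw [map_smul, smul_eq_mul]
      · simp only [hc, indicator_of_notMem hx, zero_mul]
    have hfin := vanish_on_interior R hR h hhm (2 * C) hhC' hh0 hdivh' c hcm (2 * C / ‖D‖) hcb D hD0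
      hch hdivc
    filter_upwards [hfin] with x hx hxi hxA
    have h1 := hx hxi
    have hxA' : x ∈ A := hxA
    simp only [hc, indicator_of_mem hxA'] at h1
    have h2 := hpar x hxA'
    rw [h1, zero_smul] at h2
    exact hxA.1 (sub_eq_zero.1 h2)
  have hall := (ae_all_iff (μ := (volume : Measure E3))).2 hconcl
  filter_upwards [hall, htype, (measure_eq_zero_iff_ae_notMem).1 hfr] with x hx1 hx2 hx3
  by_cases hxi : x ∈ interior R
  · by_contra hne
    obtain ⟨j, hj⟩ := hx2 hxi hne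
    exact hx1 j hxi ⟨hne, hj⟩
  · have hxR : x ∉ R := fun hxR => hx3 ⟨subset_closure hxR, hxi⟩
    rw [hg₁0 x hxR, hg₂0 x hxR]

end Helper15.Dimer
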