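import Mathlib

namespace Pool.Agent.Helper15.HamFour

open Finset

/-- The Hamilton cycle `c_0, c_1, ..., c_{n-1}` of `K_n` (indices cyclic, `finRotate n` is the cyclic
successor of indices) is (2,2)-acceptable with respect to `F`. -/
def Acceptable {n : ℕ} (F : Finset (Finset (Fin n))) (c : Equiv.Perm (Fin n)) : Prop :=
  ∀ i j : Fin n,
    Disjoint ({c i, c (finRotate n i)} : Finset (Fin n)) {c j, c (finRotate n j)} →
    ({c i, c (finRotate n i)} : Finset (Fin n)) ∪ {c j, c (finRotate n j)} ∉ F

/-- `F` is a family of 4-sets for which no Hamilton cycle is acceptable. -/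
def Blocking {n : ℕ} (F : Finset (Finset (Fin n))) : Prop :=
  (∀ X ∈ F, X.card = 4) ∧ ∀ c : Equiv.Perm (Fin n), ¬ Acceptable F c

/-- The automorphism group of the family `F` is transitive on the vertices. -/
def VertexTransitive {n : ℕ} (F : Finset (Finset (Fin n))) : Prop :=
  ∀ a b : Fin n, ∃ σ : Equiv.Perm (Fin n), F.image (Finset.image σ) = F ∧ σ a = b

/-- The minimum size of a vertex-transitive blocking family. -/
noncomputable def v (n : ℕ) : ℕ :=
  sInf {m | ∃ F : Finset (Finset (Fin n)), Blocking F ∧ VertexTransitive F ∧ F.card = m}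

end Pool.Agent.Helper15.HamFour
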