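import Pool.Agent.Helper15.HamFourDefs

namespace Pool.Agent.Helper15.HamFour

open Finset

section LLL

variable {α ι : Type*} [Fintype α] [DecidableEq α] [DecidableEq ι]

open Classical in
lemma step (Q : Equiv.Perm α → Prop) (x y : α) (R : Finset α)
    (h : ∀ b, b ∉ R → ∀ π, Q π → π x = y → Q (Equiv.swap y b * π)) :
    (Fintype.card α - R.card) * (univ.filter fun π : Equiv.Perm α => Q π ∧ π x = y).card ≤
      (univ.filter fun π : Equiv.Perm α => Q π).card := by
  have h1 : ∀ b ∈ (univ \ R : Finset α), (univ.filter fun π : Equiv.Perm α => Q π ∧ π x = y).card ≤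
      (univ.filter fun π : Equiv.Perm α => Q π ∧ π x = b).card := by
    intro b hb
    have hb' : b ∉ R := by simpa using hb
    refine Finset.card_le_card_of_injOn (fun π => Equiv.swap y b * π) ?_ ?_
    · intro π hπ
      have hπ' : Q π ∧ π x = y := by simpa using hπ
      have : Q (Equiv.swap y b * π) ∧ (Equiv.swap y b * π) x = b := by
        refine ⟨h b hb' π hπ'.1 hπ'.2, ?_⟩
        simp [Equiv.Perm.mul_apply, hπ'.2]
      simpa using this
    · intro π _ π' _ hh
      exact mul_left_cancel hh
  have h2 : (univ \ R : Finset α).card * (univ.filter fun π : Equiv.Perm α => Q π ∧ π x = y).card ≤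
      ∑ b ∈ (univ \ R : Finset α), (univ.filter fun π : Equiv.Perm α => Q π ∧ π x = b).card := by
    rw [← smul_eq_mul]
    exact Finset.card_nsmul_le_sum _ _ _ h1
  have h3 : ∑ b ∈ (univ \ R : Finset α), (univ.filter fun π : Equiv.Perm α => Q π ∧ π x = b).card ≤
      (univ.filter fun π : Equiv.Perm α => Q π).card := by
    rw [← Finset.card_biUnion]
    · apply Finset.card_le_card
      intro π hπ
      simp only [Finset.mem_biUnion, Finset.mem_filter, Finset.mem_univ, true_and] at hπ ⊢
      obtain ⟨b, _, hb⟩ := hπ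
      exact hb.1
    · intro b _ b' _ hbb
      rw [Function.onFun, Finset.disjoint_left]
      intro π hπ hπ'
      simp only [Finset.mem_filter, Finset.mem_univ, true_and] at hπ hπ'
      exact hbb (hπ.2.symm.trans hπ'.2)
  have h4 : (univ \ R : Finset α).card = Fintype.card α - R.card := by
    rw [Finset.card_sdiff_of_subset (Finset.subset_univ R), Finset.card_univ]
  rw [← h4]
  exact h2.trans h3

/-- The permutations avoiding all the events indexed by `S`. -/
noncomputable def av (X Y : ι → Fin 4 → α) (S : Finset ι) : Finset (Equiv.Perm α) :=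
  open Classical in univ.filter fun π => ∀ e ∈ S, ¬ ∀ t, π (X e t) = Y e t

omit [DecidableEq ι] in
lemma mem_av (X Y : ι → Fin 4 → α) (S : Finset ι) (π : Equiv.Perm α) :
    π ∈ av X Y S ↔ ∀ e ∈ S, ¬ ∀ t, π (X e t) = Y e t := by
  simp [av]

omit [DecidableEq ι] in
open Classical in
lemma chain (X Y : ι → Fin 4 → α) (S : Finset ι) (x y : Fin 4 → α)
    (hy : Function.Injective y)
    (hS : ∀ f ∈ S, ∀ t u, x t = X f u ↔ y t = Y f u) (k : ℕ) (hk : k ≤ 4) :
    (Fintype.card α).descFactorial k *
      (univ.filter fun π : Equiv.Perm α => π ∈ av X Y S ∧ ∀ t : Fin 4, t.val < k → π (x t) = y t).card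
      ≤ (av X Y S).card := by
  induction k with
  | zero => simp
  | succ k ih =>
    have hk' : k < 4 := hk
    refine le_trans ?_ (ih (by omega))
    rw [Nat.descFactorial_succ]
    set Q : Equiv.Perm α → Prop := fun π => π ∈ av X Y S ∧ ∀ t : Fin 4, t.val < k → π (x t) = y t with hQ
    set R : Finset α := (univ.filter fun t : Fin 4 => t.val < k).image y with hR
    have hRc : R.card = k := by
      rw [hR, Finset.card_image_of_injective _ hy]
      interval_cases k <;> decide
    have hst := step Q (x ⟨k, hk'⟩) (y ⟨k, hk'⟩) R (by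
      intro b hb π hπ hπx
      refine ⟨?_, ?_⟩
      · rw [mem_av]
        intro f hf hcon
        refine (mem_av X Y S π).1 hπ.1 f hf ?_
        intro u
        by_cases hxu : x ⟨k, hk'⟩ = X f u
        · have := (hS f hf ⟨k, hk'⟩ u).1 hxu
          rw [← hxu, ← this, hπx]
        · have hyu : y ⟨k, hk'⟩ ≠ Y f u := fun h => hxu ((hS f hf ⟨k, hk'⟩ u).2 h)
          have h1 := hcon u
          rw [Equiv.Perm.mul_apply] at h1
          have h2 : π (X f u) = Equiv.swap (y ⟨k, hk'⟩) b (Y f u) := by
            rw [← h1, Equiv.swap_apply_self]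
          by_cases hb' : Y f u = b
          · rw [hb', Equiv.swap_apply_right, ← hπx] at h2
            exact absurd (π.injective h2).symm hxu
          · rw [h2, Equiv.swap_apply_of_ne_of_ne (Ne.symm hyu) hb']
      · intro t ht
        rw [Equiv.Perm.mul_apply, hπ.2 t ht, Equiv.swap_apply_of_ne_of_ne]
        · intro h
          have := hy h
          rw [this] at ht
          exact lt_irrefl _ ht
        · intro h
          apply hb
          rw [hR, ← h]
          exact Finset.mem_image_of_mem _ (by simpa using ht))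
    rw [hRc] at hst
    have heq : (univ.filter fun π : Equiv.Perm α => π ∈ av X Y S ∧ ∀ t : Fin 4, t.val < k + 1 → π (x t) = y t)
        = (univ.filter fun π : Equiv.Perm α => Q π ∧ π (x ⟨k, hk'⟩) = y ⟨k, hk'⟩) := by
      ext π
      simp only [Finset.mem_filter, Finset.mem_univ, true_and, hQ]
      constructor
      · rintro ⟨h1, h2⟩
        exact ⟨⟨h1, fun t ht => h2 t (by omega)⟩, h2 ⟨k, hk'⟩ (by simp)⟩
      · rintro ⟨⟨h1, h2⟩, h3⟩
        refine ⟨h1, fun t ht => ?_⟩
        rcases Nat.lt_succ_iff_lt_or_eq.1 ht with h | h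
        · exact h2 t h
        · have : t = ⟨k, hk'⟩ := Fin.ext h
          rw [this]; exact h3
    rw [heq]
    calc (Fintype.card α - k) * (Fintype.card α).descFactorial k * _
        = (Fintype.card α).descFactorial k * ((Fintype.card α - k) *
          (univ.filter fun π : Equiv.Perm α => Q π ∧ π (x ⟨k, hk'⟩) = y ⟨k, hk'⟩).card) := by ring
      _ ≤ _ := by
        refine Nat.mul_le_mul_left _ ?_
        convert hst using 3
        ext π
        simp only [Finset.mem_filter]

/-- Two events conflict. -/
def Conf (X Y : ι → Fin 4 → α) (e f : ι) : Prop := ∃ t u, ¬ (X e t = X f u ↔ Y e t = Y f u)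

omit [DecidableEq ι] in
open Classical in
lemma noconf (X Y : ι → Fin 4 → α) (S : Finset ι) (e : ι)
    (hy : Function.Injective (Y e))
    (hS : ∀ f ∈ S, ¬ Conf X Y e f) :
    (Fintype.card α).descFactorial 4 *
      ((av X Y S).filter fun π : Equiv.Perm α => ∀ t : Fin 4, π (X e t) = Y e t).card
      ≤ (av X Y S).card := by
  have := chain X Y S (X e) (Y e) hy (by
    intro f hf t u
    have := hS f hf
    simp only [Conf, not_exists, not_not] at this
    exact this t u) 4 le_rfl
  convert this using 3
  ext π
  simp only [Finset.mem_filter, Finset.mem_univ, true_and]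
  constructor
  · rintro ⟨h1, h2⟩
    exact ⟨h1, fun t _ => h2 t⟩
  · rintro ⟨h1, h2⟩
    exact ⟨h1, fun t => h2 t t.2⟩

omit [DecidableEq ι] in
open Classical in
lemma lll (X Y : ι → Fin 4 → α) (B : Finset ι)
    (hy : ∀ e ∈ B, Function.Injective (Y e))
    (hB : ∀ e ∈ B, 4 * (B.filter fun f => Conf X Y e f).card ≤ (Fintype.card α).descFactorial 4) :
    ∀ (m : ℕ) (S : Finset ι), S.card = m → S ⊆ B → ∀ e ∈ B,
      (Fintype.card α).descFactorial 4 *
      ((av X Y S).filter fun π : Equiv.Perm α => ∀ t : Fin 4, π (X e t) = Y e t).card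
      ≤ 2 * (av X Y S).card := by
  intro m
  induction m using Nat.strong_induction_on with
  | _ m ih =>
    intro S hSm hSB e he
    set N := (Fintype.card α).descFactorial 4 with hN
    by_cases hcf : ∀ f ∈ S, ¬ Conf X Y e f
    · have := noconf X Y S e (hy e he) hcf
      exact this.trans (Nat.le_mul_of_pos_left _ two_pos)
    push Not at hcf
    obtain ⟨f0, hf0, hcf0⟩ := hcf
    set S1 := S.filter (fun f => Conf X Y e f) with hS1
    set S2 := S.filter (fun f => ¬ Conf X Y e f) with hS2
    have hS2c : S2.card < m := by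
      rw [← hSm]
      apply Finset.card_lt_card
      refine ⟨Finset.filter_subset _ _, fun h => ?_⟩
      have := h hf0
      rw [hS2, Finset.mem_filter] at this
      exact this.2 hcf0
    have hS2B : S2 ⊆ B := (Finset.filter_subset _ _).trans hSB
    have h1 : N * ((av X Y S2).filter fun π : Equiv.Perm α => ∀ t : Fin 4, π (X e t) = Y e t).card
        ≤ (av X Y S2).card := by
      apply noconf X Y S2 e (hy e he)
      intro f hf
      exact (Finset.mem_filter.1 hf).2
    have h2 : ((av X Y S).filter fun π : Equiv.Perm α => ∀ t : Fin 4, π (X e t) = Y e t).card ≤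
        ((av X Y S2).filter fun π : Equiv.Perm α => ∀ t : Fin 4, π (X e t) = Y e t).card := by
      apply Finset.card_le_card
      apply Finset.filter_subset_filter
      intro π hπ
      rw [mem_av] at hπ ⊢
      intro f hf
      exact hπ f (Finset.mem_filter.1 hf).1
    have h3 : (av X Y S2).card ≤ (av X Y S).card +
        ∑ f ∈ S1, ((av X Y S2).filter fun π : Equiv.Perm α => ∀ t : Fin 4, π (X f t) = Y f t).card := by
      calc (av X Y S2).card ≤ (av X Y S ∪ S1.biUnion (fun f =>
          (av X Y S2).filter fun π : Equiv.Perm α => ∀ t : Fin 4, π (X f t) = Y f t)).card := by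
            apply Finset.card_le_card
            intro π hπ
            by_cases hπS : π ∈ av X Y S
            · exact Finset.mem_union_left _ hπS
            · apply Finset.mem_union_right
              rw [mem_av] at hπS
              push Not at hπS
              obtain ⟨f, hf, hff⟩ := hπS
              rw [Finset.mem_biUnion]
              refine ⟨f, ?_, ?_⟩
              · rw [hS1, Finset.mem_filter]
                refine ⟨hf, ?_⟩
                by_contra hcon
                exact (mem_av X Y S2 π).1 hπ f (Finset.mem_filter.2 ⟨hf, hcon⟩) hff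
              · exact Finset.mem_filter.2 ⟨hπ, hff⟩
        _ ≤ _ := (Finset.card_union_le _ _).trans (Nat.add_le_add_left Finset.card_biUnion_le _)
    have h4 : N * ∑ f ∈ S1, ((av X Y S2).filter fun π : Equiv.Perm α =>
        ∀ t : Fin 4, π (X f t) = Y f t).card ≤ S1.card * (2 * (av X Y S2).card) := by
      rw [Finset.mul_sum, ← smul_eq_mul (a := S1.card)]
      apply Finset.sum_le_card_nsmul
      intro f hf
      exact ih S2.card hS2c S2 rfl hS2B f (hSB (Finset.mem_filter.1 hf).1)
    have h5 : 4 * S1.card ≤ N := by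
      refine le_trans (Nat.mul_le_mul_left 4 (Finset.card_le_card ?_)) (hB e he)
      intro f hf
      rw [Finset.mem_filter] at hf ⊢
      exact ⟨hSB hf.1, hf.2⟩
    -- conclude
    have h6 : (av X Y S2).card ≤ 2 * (av X Y S).card := by
      rcases Nat.eq_zero_or_pos N with hN0 | hNpos
      · have : S1.card = 0 := by omega
        rw [Finset.card_eq_zero] at this
        have hmem : f0 ∈ S1 := by rw [hS1, Finset.mem_filter]; exact ⟨hf0, hcf0⟩
        rw [this] at hmem
        simp at hmem
      · set A := (av X Y S2).card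
        set A' := (av X Y S).card
        have h7 : N * A ≤ N * A' + S1.card * (2 * A) := by
          calc N * A ≤ N * (A' + _) := Nat.mul_le_mul_left _ h3
            _ = N * A' + N * _ := by ring
            _ ≤ _ := Nat.add_le_add_left h4 _
        have h8 : S1.card * (2 * A) * 2 ≤ N * A := by
          calc S1.card * (2 * A) * 2 = (4 * S1.card) * A := by ring
            _ ≤ N * A := Nat.mul_le_mul_right _ h5
        have h9 : N * A ≤ N * (2 * A') := by nlinarith
        exact Nat.le_of_mul_le_mul_left h9 hNpos
    calc N * _ ≤ N * _ := Nat.mul_le_mul_left _ h2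
      _ ≤ _ := h1
      _ ≤ _ := h6

open Classical in
lemma exists_avoiding (X Y : ι → Fin 4 → α) (B : Finset ι) (hn : 4 ≤ Fintype.card α)
    (hy : ∀ e ∈ B, Function.Injective (Y e))
    (hB : ∀ e ∈ B, 4 * (B.filter fun f => Conf X Y e f).card ≤ (Fintype.card α).descFactorial 4) :
    ∃ π : Equiv.Perm α, ∀ e ∈ B, ¬ ∀ t, π (X e t) = Y e t := by
  have hN : 3 ≤ (Fintype.card α).descFactorial 4 := by
    have : Nat.descFactorial 4 4 ≤ (Fintype.card α).descFactorial 4 :=
      Nat.descFactorial_le 4 hn
    have h24 : Nat.descFactorial 4 4 = 24 := by decide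
    omega
  have key : ∀ S : Finset ι, S ⊆ B → 0 < (av X Y S).card := by
    intro S
    induction S using Finset.induction_on with
    | empty =>
      intro _
      rw [Finset.card_pos]
      exact ⟨1, by rw [mem_av]; simp⟩
    | insert e S he ih =>
      intro hSB
      have hS : S ⊆ B := (Finset.subset_insert e S).trans hSB
      have heB : e ∈ B := hSB (Finset.mem_insert_self e S)
      have h1 := ih hS
      have h2 := lll X Y B hy hB S.card S rfl hS e heB
      set A := ((av X Y S).filter fun π : Equiv.Perm α => ∀ t : Fin 4, π (X e t) = Y e t).card with hA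
      have h3 : (av X Y S).card = (av X Y (insert e S)).card + A := by
        have : av X Y (insert e S) = (av X Y S).filter fun π : Equiv.Perm α => ¬ ∀ t : Fin 4, π (X e t) = Y e t := by
          ext π
          rw [Finset.mem_filter, mem_av, mem_av]
          constructor
          · intro h
            exact ⟨fun f hf => h f (Finset.mem_insert_of_mem hf), h e (Finset.mem_insert_self _ _)⟩
          · rintro ⟨h, h'⟩ f hf
            rcases Finset.mem_insert.1 hf with rfl | hf
            · exact h'
            · exact h f hf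
        rw [this, hA, add_comm]
        exact (Finset.card_filter_add_card_filter_not _).symm
      by_contra hcon
      have h4 : (av X Y (insert e S)).card = 0 := by omega
      rw [h4, zero_add] at h3
      rw [h3] at h2 h1
      nlinarith
  obtain ⟨π, hπ⟩ := Finset.card_pos.1 (key B (Finset.Subset.refl B))
  exact ⟨π, (mem_av X Y B π).1 hπ⟩

end LLL

section Lower

/-- The four positions used by the cyclic edges starting at `i` and `j`. -/
def pos {n : ℕ} (e : (Fin n × Fin n) × (Fin 4 ↪ Fin n)) : Fin 4 → Fin n :=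
  ![e.1.1, finRotate n e.1.1, e.1.2, finRotate n e.1.2]

def val {n : ℕ} (e : (Fin n × Fin n) × (Fin 4 ↪ Fin n)) : Fin 4 → Fin n := e.2

/-- Ordered versions of the members of `F`. -/
noncomputable def ords {n : ℕ} (F : Finset (Finset (Fin n))) : Finset (Fin 4 ↪ Fin n) :=
  univ.filter fun y => (univ : Finset (Fin 4)).map y ∈ F

lemma ords_card_le {n : ℕ} (F : Finset (Finset (Fin n))) : (ords F).card ≤ 24 * F.card := by
  classical
  have h1 : ords F ⊆ F.biUnion (fun X => univ.filter fun y : Fin 4 ↪ Fin n => (univ : Finset (Fin 4)).map y = X) := by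
    intro y hy
    rw [ords, Finset.mem_filter] at hy
    rw [Finset.mem_biUnion]
    exact ⟨_, hy.2, by simp⟩
  refine (Finset.card_le_card h1).trans ?_
  refine (Finset.card_biUnion_le_card_mul _ _ 24 ?_).trans (by rw [mul_comm])
  intro X _
  by_cases hX : X.card = 4
  · have : Fintype.card (Fin 4 ↪ X) = 24 := by
      rw [Fintype.card_embedding_eq, Fintype.card_coe, hX]; decide
    rw [← this, ← Finset.card_univ]
    refine Finset.card_le_card_of_surjOn (fun g : Fin 4 ↪ X => g.trans (Function.Embedding.subtype _)) ?_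
    intro y hy
    have hy' : (univ : Finset (Fin 4)).map y = X := by simpa using hy
    refine ⟨⟨fun t => ⟨y t, by rw [← hy']; simp⟩, fun a b hab => y.injective (by simpa using hab)⟩, by simp, ?_⟩
    ext t
    rfl
  · have : (univ.filter fun y : Fin 4 ↪ Fin n => (univ : Finset (Fin 4)).map y = X) = ∅ := by
      rw [Finset.filter_eq_empty_iff]
      intro y _ hy
      apply hX
      rw [← hy, Finset.card_map]
      rfl
    rw [this]; simp

lemma ords_fiber {n : ℕ} (F : Finset (Finset (Fin n))) (hF : VertexTransitive F) (u : Fin 4) (v : Fin n) :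
    n * ((ords F).filter fun y => y u = v).card = (ords F).card := by
  classical
  have h1 : ∀ a b : Fin n, ((ords F).filter fun y => y u = a).card ≤ ((ords F).filter fun y => y u = b).card := by
    intro a b
    obtain ⟨σ, hσ, hab⟩ := hF a b
    refine Finset.card_le_card_of_injOn (fun y => y.trans σ.toEmbedding) ?_ ?_
    · intro y hy
      have hy' : (univ : Finset (Fin 4)).map y ∈ F ∧ y u = a := by
        simpa [ords] using hy
      have : (univ : Finset (Fin 4)).map (y.trans σ.toEmbedding) ∈ F ∧ (y.trans σ.toEmbedding) u = b := by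
        refine ⟨?_, ?_⟩
        · rw [← Finset.map_map, Finset.map_eq_image (σ.toEmbedding)]
          rw [← hσ]
          exact Finset.mem_image_of_mem _ hy'.1
        · simp [hy'.2, hab]
      simpa [ords] using this
    · intro y _ y' _ h
      refine DFunLike.ext _ _ (fun t => ?_)
      have := DFunLike.congr_fun h t
      simpa using this
  have h2 : (ords F).card = ∑ b : Fin n, ((ords F).filter fun y => y u = b).card :=
    Finset.card_eq_sum_card_fiberwise (fun y _ => Finset.mem_univ _)
  rw [h2, Finset.sum_congr rfl (fun b _ => le_antisymm (h1 b v) (h1 v b))]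
  simp

lemma fiber_pos {n : ℕ} (Ys : Finset (Fin 4 ↪ Fin n)) (u : Fin 4) (x : Fin n) :
    ((((univ : Finset (Fin n)) ×ˢ (univ : Finset (Fin n))) ×ˢ Ys).filter fun f => pos f u = x).card ≤ n * Ys.card := by
  classical
  have hcard : ((univ : Finset (Fin n)) ×ˢ Ys).card = n * Ys.card := by
    rw [Finset.card_product, Finset.card_univ, Fintype.card_fin]
  rw [← hcard]
  have hmem : ∀ f ∈ ((((univ : Finset (Fin n)) ×ˢ (univ : Finset (Fin n))) ×ˢ Ys).filter fun f => pos f u = x),
      f.2 ∈ Ys ∧ pos f u = x := by
    intro f hf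
    simpa using hf
  by_cases hu : u.val < 2
  · refine Finset.card_le_card_of_injOn (fun f => (f.1.2, f.2)) ?_ ?_
    · intro f hf
      have := hmem f hf
      simp [this.1]
    · intro f hf g hg h
      have hf' := (hmem f hf).2
      have hg' := (hmem g hg).2
      simp only [Prod.mk.injEq] at h
      have h1 : f.1.1 = g.1.1 := by
        have hfg := hf'.trans hg'.symm
        fin_cases u
        · exact hfg
        · exact (finRotate n).injective hfg
        · simp at hu
        · simp at hu
      exact Prod.ext (Prod.ext h1 h.1) h.2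
  · refine Finset.card_le_card_of_injOn (fun f => (f.1.1, f.2)) ?_ ?_
    · intro f hf
      have := hmem f hf
      simp [this.1]
    · intro f hf g hg h
      have hf' := (hmem f hf).2
      have hg' := (hmem g hg).2
      simp only [Prod.mk.injEq] at h
      have h1 : f.1.2 = g.1.2 := by
        have hfg := hf'.trans hg'.symm
        fin_cases u
        · simp at hu
        · simp at hu
        · exact hfg
        · exact (finRotate n).injective hfg
      exact Prod.ext (Prod.ext h.1 h1) h.2

lemma fiber_val {n : ℕ} (Ys : Finset (Fin 4 ↪ Fin n)) (u : Fin 4) (x : Fin n) :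
    ((((univ : Finset (Fin n)) ×ˢ (univ : Finset (Fin n))) ×ˢ Ys).filter fun f => val f u = x).card
      = n * (n * (Ys.filter fun y => y u = x).card) := by
  classical
  have : ((((univ : Finset (Fin n)) ×ˢ (univ : Finset (Fin n))) ×ˢ Ys).filter fun f => val f u = x)
      = ((univ : Finset (Fin n)) ×ˢ (univ : Finset (Fin n))) ×ˢ (Ys.filter fun y => y u = x) := by
    ext f
    rw [Finset.mem_filter, Finset.mem_product, Finset.mem_product, Finset.mem_product,
      Finset.mem_filter]
    simp only [Finset.mem_product, Finset.mem_univ, true_and, val]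
  rw [this]
  simp [Finset.card_product, mul_assoc]

open Classical in
lemma conf_card {n : ℕ} (F : Finset (Finset (Fin n))) (hF : VertexTransitive F)
    (e : (Fin n × Fin n) × (Fin 4 ↪ Fin n)) :
    ((((univ : Finset (Fin n)) ×ˢ (univ : Finset (Fin n))) ×ˢ ords F).filter fun f => Conf pos val e f).card
      ≤ 32 * (n * (ords F).card) := by
  set U := (((univ : Finset (Fin n)) ×ˢ (univ : Finset (Fin n))) ×ˢ ords F) with hU
  have h1 : (U.filter fun f => Conf pos val e f) ⊆
      ((univ : Finset (Fin 4)) ×ˢ (univ : Finset (Fin 4))).biUnion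
        (fun tu => (U.filter fun f => pos f tu.2 = pos e tu.1) ∪ (U.filter fun f => val f tu.2 = val e tu.1)) := by
    intro f hf
    rw [Finset.mem_filter] at hf
    obtain ⟨hfU, t, u, htu⟩ := hf
    rw [Finset.mem_biUnion]
    refine ⟨(t, u), by simp, ?_⟩
    rw [Finset.mem_union, Finset.mem_filter, Finset.mem_filter]
    by_cases h : pos e t = pos f u
    · exact Or.inl ⟨hfU, h.symm⟩
    · right
      refine ⟨hfU, ?_⟩
      by_contra h'
      exact htu ⟨fun h'' => absurd h'' h, fun h'' => absurd h''.symm h'⟩
  refine (Finset.card_le_card h1).trans ?_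
  refine (Finset.card_biUnion_le_card_mul _ _ (2 * (n * (ords F).card)) ?_).trans ?_
  · intro tu _
    refine (Finset.card_union_le _ _).trans ?_
    have h2 := fiber_pos (ords F) tu.2 (pos e tu.1)
    have h3 := fiber_val (ords F) tu.2 (val e tu.1)
    rw [ords_fiber F hF] at h3
    rw [← hU] at h2 h3
    omega
  · simp
    ring_nf
    omega

lemma inj4 {β : Type*} {a b c d : β} (hab : a ≠ b) (hac : a ≠ c) (had : a ≠ d) (hbc : b ≠ c)
    (hbd : b ≠ d) (hcd : c ≠ d) : Function.Injective (![a, b, c, d]) := by
  intro x y hxy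
  fin_cases x <;> fin_cases y <;> first
    | rfl
    | exact absurd hxy hab
    | exact absurd hxy hab.symm
    | exact absurd hxy hac
    | exact absurd hxy hac.symm
    | exact absurd hxy had
    | exact absurd hxy had.symm
    | exact absurd hxy hbc
    | exact absurd hxy hbc.symm
    | exact absurd hxy hbd
    | exact absurd hxy hbd.symm
    | exact absurd hxy hcd
    | exact absurd hxy hcd.symm

lemma finRotate_ne {n : ℕ} (hn : 4 ≤ n) (i : Fin n) : finRotate n i ≠ i := by
  obtain ⟨m, rfl⟩ : ∃ m, n = m + 4 := ⟨n - 4, by omega⟩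
  rw [finRotate_apply]
  intro h
  simp at h

lemma exists_acceptable {n : ℕ} (hn : 4 ≤ n) (F : Finset (Finset (Fin n))) (hF : VertexTransitive F)
    (hc : 3072 * F.card ≤ (n - 1) * (n - 2) * (n - 3)) :
    ∃ c, Acceptable F c := by
  classical
  set U := (((univ : Finset (Fin n)) ×ˢ (univ : Finset (Fin n))) ×ˢ ords F) with hU
  set B := U.filter (fun e => Function.Injective (pos e)) with hB
  obtain ⟨π, hπ⟩ := exists_avoiding (pos (n := n)) (val (n := n)) B (by simpa using hn)
    (by intro e _; exact e.2.injective) (by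
      intro e _
      have h1 : (B.filter fun f => Conf pos val e f).card ≤ 32 * (n * (ords F).card) := by
        refine le_trans (Finset.card_le_card ?_) (conf_card F hF e)
        intro f hf
        rw [Finset.mem_filter] at hf ⊢
        exact ⟨(Finset.mem_filter.1 hf.1).1, hf.2⟩
      have h2 := ords_card_le F
      have h3 : (Fintype.card (Fin n)).descFactorial 4 = n * ((n - 1) * (n - 2) * (n - 3)) := by
        rw [Fintype.card_fin]
        simp only [Nat.descFactorial_succ, Nat.descFactorial_zero]
        simp only [Nat.sub_zero]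
        ring
      rw [h3]
      calc 4 * (B.filter fun f => Conf pos val e f).card ≤ 4 * (32 * (n * (24 * F.card))) := by
            refine Nat.mul_le_mul_left _ (h1.trans ?_)
            exact Nat.mul_le_mul_left _ (Nat.mul_le_mul_left _ h2)
        _ = n * (3072 * F.card) := by ring
        _ ≤ _ := Nat.mul_le_mul_left _ hc)
  refine ⟨π, ?_⟩
  intro i j hdis hmem
  rw [Finset.disjoint_left] at hdis
  have hii : π (finRotate n i) ≠ π i := fun h => finRotate_ne hn i (π.injective h)
  have hjj : π (finRotate n j) ≠ π j := fun h => finRotate_ne hn j (π.injective h)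
  have h1 := hdis (a := π i) (by simp)
  have h2 := hdis (a := π (finRotate n i)) (by simp)
  simp only [Finset.mem_insert, Finset.mem_singleton, not_or] at h1 h2
  have hyinj : Function.Injective (![π i, π (finRotate n i), π j, π (finRotate n j)]) :=
    inj4 (Ne.symm hii) h1.1 h1.2 h2.1 h2.2 (Ne.symm hjj)
  refine hπ ((i, j), ⟨_, hyinj⟩) ?_ ?_
  · rw [hB, Finset.mem_filter]
    refine ⟨?_, ?_⟩
    swap
    · exact inj4 (fun h => hii (congrArg π h).symm) (fun h => h1.1 (congrArg π h))
        (fun h => h1.2 (congrArg π h)) (fun h => h2.1 (congrArg π h)) (fun h => h2.2 (congrArg π h))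
        (fun h => hjj (congrArg π h).symm)
    rw [hU, Finset.mem_product]
    refine ⟨by simp, ?_⟩
    rw [ords, Finset.mem_filter]
    refine ⟨Finset.mem_univ _, ?_⟩
    convert hmem using 1
    ext z
    simp only [Finset.mem_map, Finset.mem_univ, true_and, Function.Embedding.coeFn_mk,
      Finset.mem_union, Finset.mem_insert, Finset.mem_singleton]
    constructor
    · rintro ⟨t, rfl⟩
      fin_cases t <;> simp
    · rintro ((h | h) | (h | h))
      · exact ⟨0, h.symm⟩
      · exact ⟨1, h.symm⟩
      · exact ⟨2, h.symm⟩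
      · exact ⟨3, h.symm⟩
  · intro t
    fin_cases t <;> rfl

end Lower

section Upper

/-- All 4-sets containing two cyclically consecutive vertices. -/
def consec (n : ℕ) : Finset (Finset (Fin n)) :=
  univ.filter fun X => X.card = 4 ∧ ∃ i, i ∈ X ∧ finRotate n i ∈ X

lemma consec_vt (n : ℕ) (hn : 4 ≤ n) : VertexTransitive (consec n) := by
  obtain ⟨m, rfl⟩ : ∃ m, n = m + 4 := ⟨n - 4, by omega⟩
  intro a b
  refine ⟨Equiv.addRight (b - a), ?_, by simp⟩
  apply Finset.eq_of_subset_of_card_le
  · intro X hX
    rw [Finset.mem_image] at hX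
    obtain ⟨Y, hY, rfl⟩ := hX
    rw [consec, Finset.mem_filter] at hY ⊢
    obtain ⟨_, hc, i, hi, hi'⟩ := hY
    refine ⟨Finset.mem_univ _, ?_, i + (b - a), ?_, ?_⟩
    · rw [Finset.card_image_of_injective _ (Equiv.injective _), hc]
    · exact Finset.mem_image_of_mem (Equiv.addRight (b - a)) hi
    · have := Finset.mem_image_of_mem (Equiv.addRight (b - a)) hi'
      rw [finRotate_apply] at this ⊢
      convert this using 1
      simp only [Equiv.coe_addRight]
      exact add_right_comm _ _ _
  · rw [Finset.card_image_of_injective]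
    exact Finset.image_injective (Equiv.injective _)

lemma choose_two (m : ℕ) : 2 * m.choose 2 = m * (m - 1) := by
  rw [Nat.choose_two_right]
  exact Nat.mul_div_cancel' (Nat.even_mul_pred_self m).two_dvd

lemma consec_card (n : ℕ) (hn : 4 ≤ n) : 2 * (consec n).card ≤ n * (n - 2) * (n - 3) := by
  classical
  have h1 : consec n ⊆ (univ : Finset (Fin n)).biUnion (fun i =>
      (powersetCard 2 (univ \ {i, finRotate n i})).image (fun P => {i, finRotate n i} ∪ P)) := by
    intro X hX
    rw [consec, Finset.mem_filter] at hX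
    obtain ⟨_, hc, i, hi, hi'⟩ := hX
    rw [Finset.mem_biUnion]
    refine ⟨i, Finset.mem_univ _, ?_⟩
    rw [Finset.mem_image]
    have hsub : ({i, finRotate n i} : Finset (Fin n)) ⊆ X := by
      intro z hz
      rw [Finset.mem_insert, Finset.mem_singleton] at hz
      rcases hz with rfl | rfl
      · exact hi
      · exact hi'
    have hpair : ({i, finRotate n i} : Finset (Fin n)).card = 2 :=
      Finset.card_pair (Ne.symm (finRotate_ne hn i))
    refine ⟨X \ {i, finRotate n i}, ?_, ?_⟩
    · rw [Finset.mem_powersetCard]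
      refine ⟨Finset.sdiff_subset_sdiff (Finset.subset_univ _) (Finset.Subset.refl _), ?_⟩
      rw [Finset.card_sdiff_of_subset hsub, hc, hpair]
    · exact Finset.union_sdiff_of_subset hsub
  have h2 := (Finset.card_le_card h1).trans (Finset.card_biUnion_le_card_mul _ _ ((n - 2).choose 2) (by
    intro i _
    refine Finset.card_image_le.trans ?_
    rw [Finset.card_powersetCard, Finset.card_sdiff_of_subset (Finset.subset_univ _), Finset.card_univ,
      Fintype.card_fin, Finset.card_pair (Ne.symm (finRotate_ne hn i))]))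
  rw [Finset.card_univ, Fintype.card_fin] at h2
  have h3 := choose_two (n - 2)
  calc 2 * (consec n).card ≤ 2 * (n * (n - 2).choose 2) := Nat.mul_le_mul_left _ h2
    _ = n * (2 * (n - 2).choose 2) := by ring
    _ = n * ((n - 2) * (n - 3)) := by rw [h3]; rfl
    _ = _ := by ring

lemma mem_consec_of {n : ℕ} (c : Equiv.Perm (Fin n)) (x y z w p : Fin n)
    (hxy : x ≠ y) (hxz : x ≠ z) (hxw : x ≠ w) (hyz : y ≠ z) (hyw : y ≠ w) (hzw : z ≠ w)
    (hp : p ∈ ({c x, c y, c z, c w} : Finset (Fin n)))
    (hq : finRotate n p ∈ ({c x, c y, c z, c w} : Finset (Fin n))) :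
    Disjoint ({c x, c y} : Finset (Fin n)) {c z, c w} ∧
      ({c x, c y} : Finset (Fin n)) ∪ {c z, c w} ∈ consec n := by
  have e1 : c x ≠ c y := fun h => hxy (c.injective h)
  have e2 : c x ≠ c z := fun h => hxz (c.injective h)
  have e3 : c x ≠ c w := fun h => hxw (c.injective h)
  have e4 : c y ≠ c z := fun h => hyz (c.injective h)
  have e5 : c y ≠ c w := fun h => hyw (c.injective h)
  have e6 : c z ≠ c w := fun h => hzw (c.injective h)
  have hd : Disjoint ({c x, c y} : Finset (Fin n)) {c z, c w} := by
    simp only [Finset.disjoint_insert_left, Finset.mem_insert, Finset.mem_singleton, not_or,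
      Finset.disjoint_singleton_left]
    exact ⟨⟨e2, e3⟩, e4, e5⟩
  refine ⟨hd, ?_⟩
  have hu : ({c x, c y} : Finset (Fin n)) ∪ {c z, c w} = {c x, c y, c z, c w} := by
    rw [Finset.insert_union, Finset.singleton_union]
  rw [consec, Finset.mem_filter]
  refine ⟨Finset.mem_univ _, ?_, p, by rw [hu]; exact hp, by rw [hu]; exact hq⟩
  rw [Finset.card_union_of_disjoint hd, Finset.card_pair e1, Finset.card_pair e6]

lemma consec_blocking (n : ℕ) (hn : 4 ≤ n) : Blocking (consec n) := by
  refine ⟨fun X hX => (Finset.mem_filter.1 hX).2.1, ?_⟩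
  intro c hacc
  have hs1 : ∀ i, finRotate n i ≠ i := finRotate_ne hn
  obtain ⟨m, rfl⟩ : ∃ m, n = m + 4 := ⟨n - 4, by omega⟩
  have hs2 : ∀ i, finRotate (m + 4) (finRotate (m + 4) i) ≠ i := by
    intro i h
    rw [finRotate_apply, finRotate_apply, add_assoc, add_eq_left] at h
    have h' := congrArg Fin.val h
    simp only [Fin.val_add, Fin.val_one, Fin.val_zero] at h'
    rw [Nat.mod_eq_of_lt (by omega)] at h'
    omega
  have hs3 : ∀ i, finRotate (m + 4) (finRotate (m + 4) (finRotate (m + 4) i)) ≠ i := by
    intro i h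
    rw [finRotate_apply, finRotate_apply, finRotate_apply, add_assoc, add_assoc, add_eq_left] at h
    have h' := congrArg Fin.val h
    simp only [Fin.val_add, Fin.val_one, Fin.val_zero] at h'
    rw [Nat.mod_eq_of_lt (a := 1 + 1) (by omega), Nat.mod_eq_of_lt (by omega)] at h'
    omega
  set s := finRotate (m + 4) with hs
  -- the vertices `p` and `s p`, at positions `i` and `j`
  set p : Fin (m + 4) := 0 with hp
  obtain ⟨i, hi⟩ := c.surjective p
  obtain ⟨j, hj⟩ := c.surjective (s p)
  have hij : i ≠ j := by
    intro h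
    rw [h, hj] at hi
    exact hs1 _ hi
  by_cases h1 : j = s i
  · -- use the edges starting at `s.symm i` and `j`
    obtain ⟨i', hi'⟩ := s.surjective i
    have := mem_consec_of c i' i j (s j) p
      (by rw [← hi']; exact (hs1 i').symm)
      (by rw [h1, ← hi']; exact (hs2 i').symm)
      (by rw [h1, ← hi']; exact (hs3 i').symm)
      hij (by rw [h1]; exact (hs2 i).symm) (hs1 j).symm
      (by rw [hi]; simp) (by rw [← hs, ← hj]; simp)
    have h2 := hacc i' j
    rw [← hs, hi'] at h2
    exact h2 this.1 this.2
  by_cases h2 : i = s j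
  · obtain ⟨j', hj'⟩ := s.surjective j
    have := mem_consec_of c j' j i (s i) p
      (by rw [← hj']; exact (hs1 j').symm)
      (by rw [h2, ← hj']; exact (hs2 j').symm)
      (by rw [h2, ← hj']; exact (hs3 j').symm)
      hij.symm (by rw [h2]; exact (hs2 j).symm) (hs1 i).symm
      (by rw [hi]; simp) (by rw [← hs, ← hj]; simp)
    have h3 := hacc j' i
    rw [← hs, hj'] at h3
    exact h3 this.1 this.2
  · have := mem_consec_of c i (s i) j (s j) p (hs1 i).symm hij h2 (Ne.symm h1)
      (fun h => hij (s.injective h)) (hs1 j).symm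
      (by rw [hi]; simp) (by rw [← hs, ← hj]; simp)
    exact hacc i j this.1 this.2

end Upper

lemma lower_bound (n : ℕ) (hn : 4 ≤ n) (F : Finset (Finset (Fin n))) (hF : Blocking F)
    (hv : VertexTransitive F) : (n - 1) * (n - 2) * (n - 3) < 3072 * F.card := by
  by_contra h
  obtain ⟨c, hc⟩ := exists_acceptable hn F hv (by omega)
  exact hF.2 c hc

/-- `v(n)` has cubic order of magnitude; in particular `v(n) ≤ c n^2` fails for every constant. -/
theorem cubic_order :
    (∀ n : ℕ, 4 ≤ n →
      (∃ F : Finset (Finset (Fin n)), Blocking F ∧ VertexTransitive F ∧ F.card = v n) ∧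
      (n - 1) * (n - 2) * (n - 3) < 3072 * v n ∧
      2 * v n ≤ n * (n - 2) * (n - 3)) ∧
    ¬ ∃ c : ℝ, ∀ n : ℕ, 4 ≤ n → (v n : ℝ) ≤ c * (n : ℝ) ^ 2 := by
  have key : ∀ n : ℕ, 4 ≤ n →
      (∃ F : Finset (Finset (Fin n)), Blocking F ∧ VertexTransitive F ∧ F.card = v n) ∧
      (n - 1) * (n - 2) * (n - 3) < 3072 * v n ∧
      2 * v n ≤ n * (n - 2) * (n - 3) := by
    intro n hn
    have hne : {m | ∃ F : Finset (Finset (Fin n)), Blocking F ∧ VertexTransitive F ∧ F.card = m}.Nonempty :=
      ⟨(consec n).card, consec n, consec_blocking n hn, consec_vt n hn, rfl⟩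
    have hmem : ∃ F : Finset (Finset (Fin n)), Blocking F ∧ VertexTransitive F ∧ F.card = v n :=
      Nat.sInf_mem hne
    refine ⟨hmem, ?_, ?_⟩
    · obtain ⟨F, hF, hv, hc⟩ := hmem
      rw [← hc]
      exact lower_bound n hn F hF hv
    · have : v n ≤ (consec n).card :=
        Nat.sInf_le ⟨consec n, consec_blocking n hn, consec_vt n hn, rfl⟩
      exact (Nat.mul_le_mul_left _ this).trans (consec_card n hn)
  refine ⟨key, ?_⟩
  rintro ⟨c, hc⟩
  obtain ⟨K, hK⟩ := exists_nat_ge c
  set n := 8 * 3072 * (K + 1) + 8 with hn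
  have hn4 : 4 ≤ n := by omega
  have h1 := (key n hn4).2.1
  have h2 := hc n hn4
  have h3 : (v n : ℝ) ≤ (K : ℝ) * (n : ℝ) ^ 2 :=
    h2.trans (mul_le_mul_of_nonneg_right hK (by positivity))
  have h4 : v n ≤ K * n ^ 2 := by exact_mod_cast h3
  have h5 : n ≤ 2 * (n - 1) ∧ n ≤ 2 * (n - 2) ∧ n ≤ 2 * (n - 3) := by omega
  have h6 : n * n * n ≤ (2 * (n - 1)) * (2 * (n - 2)) * (2 * (n - 3)) :=
    Nat.mul_le_mul (Nat.mul_le_mul h5.1 h5.2.1) h5.2.2
  have h7 : n * n * n < 8 * 3072 * (K * n ^ 2) := by
    calc n * n * n ≤ (2 * (n - 1)) * (2 * (n - 2)) * (2 * (n - 3)) := h6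
      _ = 8 * ((n - 1) * (n - 2) * (n - 3)) := by ring
      _ < 8 * (3072 * v n) := by omega
      _ ≤ 8 * (3072 * (K * n ^ 2)) := by
          exact Nat.mul_le_mul_left _ (Nat.mul_le_mul_left _ h4)
      _ = _ := by ring
  have h8 : n * (n ^ 2) < (8 * 3072 * K) * n ^ 2 := by
    calc n * n ^ 2 = n * n * n := by ring
      _ < 8 * 3072 * (K * n ^ 2) := h7
      _ = _ := by ring
  have h9 : n < 8 * 3072 * K := lt_of_mul_lt_mul_right h8 (Nat.zero_le _)
  omega

end Pool.Agent.Helper15.HamFour
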