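import Mathlib

/-!
# Fundamental domains of two-dimensional sails: definitions

`V` is `ℝ³`.  `D` is a finite family of faces (points, segments, convex polygons) given by their
vertex sets in `ℤ³`; `W` is the complex of all translates of these faces, glued by the prescribed
incidences.
-/

namespace Pool.Agent.Helper15.Sail

open Matrix

/-- Real three-space. -/
abbrev V := Fin 3 → ℝ

/-- An integer point as a point of `ℝ³`. -/
def toR (z : Fin 3 → ℤ) : V := fun j => (z j : ℝ)

/-- The action of an integer matrix on `ℝ³`. -/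
def act (g : Matrix (Fin 3) (Fin 3) ℤ) (x : V) : V := (g.map (Int.cast : ℤ → ℝ)).mulVec x

/-- The closed face with vertex set `S`: all convex combinations of the points of `S`. -/
def closedFace (S : Finset (Fin 3 → ℤ)) : Set V :=
  {x | ∃ w : (Fin 3 → ℤ) → ℝ, (∀ v ∈ S, 0 ≤ w v) ∧ ∑ v ∈ S, w v = 1 ∧ x = ∑ v ∈ S, w v • toR v}

/-- The relatively open face with vertex set `S`: all convex combinations of the points of `S`
with strictly positive weights (the relative interior of `closedFace S`). -/
def openFace (S : Finset (Fin 3 → ℤ)) : Set V :=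
  {x | ∃ w : (Fin 3 → ℤ) → ℝ, (∀ v ∈ S, 0 < w v) ∧ ∑ v ∈ S, w v = 1 ∧ x = ∑ v ∈ S, w v • toR v}

/-- `Ξ₊(A)`: the matrices of `GL(3,ℤ)` commuting with `A` all of whose eigenvalues are positive
(for the matrices `A` considered here these eigenvalues are real). -/
def XiPlus (A : Matrix (Fin 3) (Fin 3) ℤ) : Set (GL (Fin 3) ℤ) :=
  {B | (B : Matrix (Fin 3) (Fin 3) ℤ) * A = A * (B : Matrix (Fin 3) (Fin 3) ℤ) ∧
    ∀ μ : ℝ, (((B : Matrix (Fin 3) (Fin 3) ℤ).charpoly).map (Int.castRingHom ℝ)).IsRoot μ → 0 < μ}

/-- A candidate: a finite family `D` of pairwise disjoint relatively open faces (indexed by `ι`)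
with vertices in `ℤ³`, together with its incidences in the torus.  The faces of the cover `W` of
the torus are the pairs `(i, g)`, `g ∈ Ξ₊(A)`, with position `g (openFace (verts i))`;
`(j, h) ∈ face i` means that `(j, g h)` is a face of the closed face `(i, g)` of `W`
(for every `g`). -/
structure Candidate (A : Matrix (Fin 3) (Fin 3) ℤ) (ι : Type) where
  /-- the vertices of a face of `D` -/
  verts : ι → Finset (Fin 3 → ℤ)
  nonempty : ∀ i, (verts i).Nonempty
  /-- the points of `verts i` are extreme points of the closed face -/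
  extreme : ∀ i, ∀ v ∈ verts i, toR v ∉ closedFace ((verts i).erase v)
  /-- faces have dimension at most two -/
  planar : ∀ i, Coplanar ℝ (toR '' (verts i : Set (Fin 3 → ℤ)))
  /-- the faces of `D` are pairwise disjoint -/
  disj : ∀ i j, i ≠ j → Disjoint (openFace (verts i)) (openFace (verts j))
  /-- the faces of the closed face `(i, 1)` of `W` -/
  face : ι → Finset (ι × GL (Fin 3) ℤ)
  face_mem : ∀ i, ∀ f ∈ face i, f.2 ∈ XiPlus A
  face_self : ∀ i, (i, 1) ∈ face i
  face_trans : ∀ i, ∀ f ∈ face i, ∀ f' ∈ face f.1, (f'.1, f.2 * f'.2) ∈ face i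
  /-- a closed face is the disjoint union of its faces -/
  face_union : ∀ i, closedFace (verts i) = ⋃ f ∈ face i, act f.2 '' openFace (verts f.1)
  face_disj : ∀ i, ∀ f ∈ face i, ∀ f' ∈ face i, f ≠ f' →
    Disjoint (act f.2 '' openFace (verts f.1)) (act f'.2 '' openFace (verts f'.1))
  /-- `W` is a surface without isolated edges and vertices: every face lies in the closure of a
  polygon of `W` -/
  pure : ∀ j, ∃ i, 3 ≤ (verts i).card ∧ ∃ h, (j, h) ∈ face i

variable {A : Matrix (Fin 3) (Fin 3) ℤ} {ι : Type}

/-- The closure of `D`. -/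
def Candidate.Dbar (C : Candidate A ι) : Set V := closure (⋃ i, openFace (C.verts i))

/-- Condition 1: the closure of `D` is homeomorphic to a closed disk. -/
def Candidate.Cond1 (C : Candidate A ι) : Prop :=
  Nonempty (C.Dbar ≃ₜ Metric.closedBall (0 : ℂ) 1)

/-- Condition 3: no plane of a polygon of `D` passes through the origin. -/
def Candidate.Cond3 (C : Candidate A ι) : Prop :=
  ∀ i, 3 ≤ (C.verts i).card →
    (0 : V) ∉ affineSpan ℝ (toR '' (C.verts i : Set (Fin 3 → ℤ)))

/-- Condition 5: at every edge `(e, g)` of every polygon `(i, 1)` another polygon `(i', g h⁻¹)`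
of `W` is attached (so that `(e, h)` is a face of `i'`), and the dihedral angle of the two
polygons at this edge is well placed: `O` lies in the opposite dihedral angle.  In formulas: there
are points `q`, `q'` of the two open polygons and a point `y` strictly between `q` and `q'` such
that the half-open segment from `O` to `y` meets the line of the edge, at a point `θ y`,
`0 < θ ≤ 1`.  (`θ < 1` says exactly that `O` lies in the opposite dihedral angle;
`θ = 1` additionally allows two coplanar polygons on both sides of an edge.) -/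
def Candidate.Cond5 (C : Candidate A ι) : Prop :=
  ∀ i, 3 ≤ (C.verts i).card → ∀ e g, (e, g) ∈ C.face i → (C.verts e).card = 2 →
    ∃ i' h, 3 ≤ (C.verts i').card ∧ (e, h) ∈ C.face i' ∧
      ∃ q ∈ openFace (C.verts i),
        ∃ q' ∈ act ((g * h⁻¹ : GL (Fin 3) ℤ) : Matrix (Fin 3) (Fin 3) ℤ) '' openFace (C.verts i'),
          ∃ y ∈ openSegment ℝ q q', ∃ θ : ℝ, 0 < θ ∧ θ ≤ 1 ∧
            θ • y ∈ affineSpan ℝ (act g '' (toR '' (C.verts e : Set (Fin 3 → ℤ))))

/-- Condition 7, for all points of the closure of `D` (in particular for all vertices): they lie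
in one invariant cone, i.e. there are three linearly independent eigenvectors `v₁, v₂, v₃` of `A`
such that all these points are combinations of `v₁, v₂, v₃` with strictly positive coefficients. -/
def Candidate.Cond7 (C : Candidate A ι) : Prop :=
  ∃ v : Fin 3 → V, LinearIndependent ℝ v ∧ (∀ k, ∃ μ : ℝ, act A (v k) = μ • v k) ∧
    ∀ x ∈ C.Dbar, ∃ c : Fin 3 → ℝ, (∀ k, 0 < c k) ∧ x = ∑ k, c k • v k

end Pool.Agent.Helper15.Sail
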