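import Pool.Agent.Helper15.SailLocal

namespace Pool.Agent.Helper15.Sail

open Topology Filter Set

/-! ### Closed and open faces -/

lemma toR_injective : Function.Injective toR := by
  intro a b h
  funext j
  have := congrFun h j
  simpa [toR] using this

lemma openFace_subset_closedFace (S : Finset (Fin 3 → ℤ)) : openFace S ⊆ closedFace S := by
  rintro x ⟨w, hw, h1, h2⟩
  exact ⟨w, fun v hv => (hw v hv).le, h1, h2⟩

lemma closedFace_eq_convexHull (S : Finset (Fin 3 → ℤ)) :
    closedFace S = convexHull ℝ (toR '' (S : Set (Fin 3 → ℤ))) := by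
  apply Subset.antisymm
  · rintro x ⟨w, hw, h1, rfl⟩
    apply (convex_convexHull ℝ _).sum_mem hw h1
    intro v hv
    exact subset_convexHull ℝ _ ⟨v, hv, rfl⟩
  · apply convexHull_min
    · rintro x ⟨v, hv, rfl⟩
      classical
      refine ⟨fun u => if u = v then 1 else 0, ?_, ?_, ?_⟩
      · intro u _
        dsimp only
        split_ifs <;> norm_num
      · simp only [Finset.sum_ite_eq', Finset.mem_coe.mp hv, if_true]
      · simp only [ite_smul, one_smul, zero_smul, Finset.sum_ite_eq', Finset.mem_coe.mp hv, if_true]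
    · rintro x ⟨w, hw, h1, rfl⟩ y ⟨w', hw', h1', rfl⟩ a b ha hb hab
      refine ⟨fun v => a * w v + b * w' v, ?_, ?_, ?_⟩
      · intro v hv
        exact add_nonneg (mul_nonneg ha (hw v hv)) (mul_nonneg hb (hw' v hv))
      · rw [Finset.sum_add_distrib, ← Finset.mul_sum, ← Finset.mul_sum, h1, h1']
        simpa using hab
      · rw [Finset.smul_sum, Finset.smul_sum, ← Finset.sum_add_distrib]
        apply Finset.sum_congr rfl
        intro v _
        module

lemma closedFace_convex (S : Finset (Fin 3 → ℤ)) : Convex ℝ (closedFace S) := by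
  rw [closedFace_eq_convexHull]; exact convex_convexHull ℝ _

lemma closedFace_isCompact (S : Finset (Fin 3 → ℤ)) : IsCompact (closedFace S) := by
  rw [closedFace_eq_convexHull]
  exact ((S.finite_toSet).image toR).isCompact_convexHull (𝕜 := ℝ)

lemma closedFace_isClosed (S : Finset (Fin 3 → ℤ)) : IsClosed (closedFace S) :=
  (closedFace_isCompact S).isClosed

lemma vertex_mem_closedFace {S : Finset (Fin 3 → ℤ)} {v : Fin 3 → ℤ} (hv : v ∈ S) :
    toR v ∈ closedFace S := by
  rw [closedFace_eq_convexHull]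
  exact subset_convexHull ℝ _ ⟨v, hv, rfl⟩

lemma segment_mem_openFace {S : Finset (Fin 3 → ℤ)} {x y : V} (hx : x ∈ closedFace S)
    (hy : y ∈ openFace S) {a b : ℝ} (ha : 0 ≤ a) (hb : 0 < b) (hab : a + b = 1) :
    a • x + b • y ∈ openFace S := by
  obtain ⟨w, hw, h1, rfl⟩ := hx
  obtain ⟨w', hw', h1', rfl⟩ := hy
  refine ⟨fun v => a * w v + b * w' v, ?_, ?_, ?_⟩
  · intro v hv
    exact add_pos_of_nonneg_of_pos (mul_nonneg ha (hw v hv)) (mul_pos hb (hw' v hv))
  · rw [Finset.sum_add_distrib, ← Finset.mul_sum, ← Finset.mul_sum, h1, h1']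
    simpa using hab
  · rw [Finset.smul_sum, Finset.smul_sum, ← Finset.sum_add_distrib]
    apply Finset.sum_congr rfl
    intro v _
    module

lemma openFace_nonempty {S : Finset (Fin 3 → ℤ)} (hS : S.Nonempty) : (openFace S).Nonempty := by
  have hc : (0 : ℝ) < S.card := by exact_mod_cast hS.card_pos
  refine ⟨∑ v ∈ S, (1 / (S.card : ℝ)) • toR v, fun _ => 1 / (S.card : ℝ), ?_, ?_, rfl⟩
  · intro v _
    positivity
  · rw [Finset.sum_const, nsmul_eq_mul]
    field_simp

lemma functional_closedFace {S : Finset (Fin 3 → ℤ)} {φ : V →ₗ[ℝ] ℝ}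
    (hφ : ∀ v ∈ S, φ (toR v) = 1) : ∀ y ∈ closedFace S, φ y = 1 := by
  rintro y ⟨w, hw, h1, rfl⟩
  rw [map_sum]
  simp only [map_smul, smul_eq_mul]
  rw [← h1]
  apply Finset.sum_congr rfl
  intro v hv
  rw [hφ v hv, mul_one]

lemma closedFace_pair {a b : Fin 3 → ℤ} (hab : a ≠ b) (y : V) :
    y ∈ closedFace {a, b} ↔ ∃ α β : ℝ, 0 ≤ α ∧ 0 ≤ β ∧ α + β = 1 ∧ y = α • toR a + β • toR b := by
  constructor
  · rintro ⟨w, hw, h1, rfl⟩
    rw [Finset.sum_pair hab] at h1 ⊢
    exact ⟨w a, w b, hw a (by simp), hw b (by simp), h1, rfl⟩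
  · rintro ⟨α, β, hα, hβ, h1, rfl⟩
    classical
    refine ⟨fun v => if v = a then α else β, ?_, ?_, ?_⟩
    · intro v _
      dsimp only
      split_ifs <;> assumption
    · rw [Finset.sum_pair hab]
      simp [hab.symm, h1]
    · rw [Finset.sum_pair hab]
      simp [hab.symm]

lemma openFace_pair {a b : Fin 3 → ℤ} (hab : a ≠ b) (y : V) :
    y ∈ openFace {a, b} ↔ ∃ α β : ℝ, 0 < α ∧ 0 < β ∧ α + β = 1 ∧ y = α • toR a + β • toR b := by
  constructor
  · rintro ⟨w, hw, h1, rfl⟩
    rw [Finset.sum_pair hab] at h1 ⊢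
    exact ⟨w a, w b, hw a (by simp), hw b (by simp), h1, rfl⟩
  · rintro ⟨α, β, hα, hβ, h1, rfl⟩
    classical
    refine ⟨fun v => if v = a then α else β, ?_, ?_, ?_⟩
    · intro v _
      dsimp only
      split_ifs <;> assumption
    · rw [Finset.sum_pair hab]
      simp [hab.symm, h1]
    · rw [Finset.sum_pair hab]
      simp [hab.symm]

/-- Near a point of an open polygon with three linearly independent vertices, everything is in the
cone over the polygon. -/
lemma eventually_mem_cone {S : Finset (Fin 3 → ℤ)} {a b c : Fin 3 → ℤ} (ha : a ∈ S) (hb : b ∈ S)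
    (hc : c ∈ S) (hli : LinearIndependent ℝ ![toR a, toR b, toR c]) {y : V}
    (hy : y ∈ openFace S) : ∀ᶠ z in 𝓝 y, z ∈ cone (closedFace S) := by
  classical
  obtain ⟨w, hw, h1, rfl⟩ := hy
  have hcard : Fintype.card (Fin 3) = Module.finrank ℝ V := by simp
  set B := basisOfLinearIndependentOfCardEqFinrank hli hcard with hB
  have hexp : ∀ w : V, w = B.coord 0 w • toR a + B.coord 1 w • toR b + B.coord 2 w • toR c := by
    intro w
    have := B.sum_repr w
    rw [Fin.sum_univ_three] at this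
    have e0 : B 0 = toR a := by simp [hB]
    have e1 : B 1 = toR b := by simp [hB]
    have e2 : B 2 = toR c := by simp [hB]
    rw [e0, e1, e2] at this
    exact this.symm
  have hcc : ∀ k, Continuous (B.coord k) := fun k =>
    LinearMap.continuous_of_finiteDimensional _
  obtain ⟨m, hm0, hm⟩ : ∃ m : ℝ, 0 < m ∧ ∀ v ∈ S, m ≤ w v := by
    obtain ⟨v0, hv0, hv0'⟩ := Finset.exists_min_image S w ⟨a, ha⟩
    exact ⟨w v0, hw v0 hv0, hv0'⟩
  set y : V := ∑ v ∈ S, w v • toR v with hy
  have hk : ∀ k, ∀ᶠ z in 𝓝 y, |B.coord k (z - y)| < m / 4 := by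
    intro k
    have h2 : Tendsto (fun z : V => |B.coord k (z - y)|) (𝓝 y) (𝓝 0) := by
      have h3 : Continuous (fun z : V => |B.coord k (z - y)|) :=
        ((hcc k).comp (continuous_id.sub continuous_const)).abs
      have h4 := h3.tendsto y
      simpa using h4
    exact h2.eventually (gt_mem_nhds (by positivity))
  filter_upwards [hk 0, hk 1, hk 2] with z h0 h1' h2'
  set α := B.coord 0 (z - y) with hα
  set β := B.coord 1 (z - y) with hβ
  set γ := B.coord 2 (z - y) with hγ
  set w' : (Fin 3 → ℤ) → ℝ := fun v => w v + (if v = a then α else 0) + (if v = b then β else 0)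
    + (if v = c then γ else 0) with hw'
  have hw'pos : ∀ v ∈ S, 0 < w' v := by
    intro v hv
    have h3 := hm v hv
    have e0 : -(m / 4) < (if v = a then α else 0) := by
      split_ifs
      · exact (abs_lt.mp h0).1
      · linarith
    have e1 : -(m / 4) < (if v = b then β else 0) := by
      split_ifs
      · exact (abs_lt.mp h1').1
      · linarith
    have e2 : -(m / 4) < (if v = c then γ else 0) := by
      split_ifs
      · exact (abs_lt.mp h2').1
      · linarith
    simp only [hw']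
    linarith
  have hz : z = ∑ v ∈ S, w' v • toR v := by
    have h3 : z = y + (z - y) := by abel
    rw [h3, hexp (z - y)]
    simp only [hw', add_smul, Finset.sum_add_distrib, ite_smul, zero_smul, Finset.sum_ite_eq',
      ha, hb, hc, if_true]
    rw [← hy, ← hα, ← hβ, ← hγ]
    abel
  have hsum : 0 < ∑ v ∈ S, w' v := Finset.sum_pos hw'pos ⟨a, ha⟩
  refine ⟨∑ v ∈ S, w' v, hsum, ∑ v ∈ S, (w' v / ∑ v ∈ S, w' v) • toR v,
    ⟨fun v => w' v / ∑ v ∈ S, w' v, ?_, ?_, rfl⟩, ?_⟩
  · intro v hv
    exact div_nonneg (hw'pos v hv).le hsum.le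
  · rw [← Finset.sum_div, div_self hsum.ne']
  · rw [hz, Finset.smul_sum]
    apply Finset.sum_congr rfl
    intro v _
    rw [smul_smul, mul_div_cancel₀ _ hsum.ne']

/-- Three vertices of a polygon in convex position are not collinear. -/
lemma exists_noncollinear {S : Finset (Fin 3 → ℤ)} (hS : 3 ≤ S.card)
    (hext : ∀ v ∈ S, toR v ∉ closedFace (S.erase v)) :
    ∃ a ∈ S, ∃ b ∈ S, ∃ c ∈ S, a ≠ b ∧ ∀ t : ℝ, toR c ≠ toR a + t • (toR b - toR a) := by
  obtain ⟨a, b, c, ha, hb, hc, hab, hac, hbc⟩ := Finset.two_lt_card_iff.mp (by omega : 2 < S.card)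
  refine ⟨a, ha, b, hb, c, hc, hab, ?_⟩
  intro t ht
  have key : ∀ {u v w : Fin 3 → ℤ} {s : ℝ}, u ∈ S → v ∈ S → w ∈ S → u ≠ w → v ≠ w → u ≠ v →
      0 ≤ s → s ≤ 1 → toR w = (1 - s) • toR u + s • toR v → False := by
    intro u v w s hu hv hw huw hvw huv h0 h1 h
    apply hext w hw
    rw [h]
    apply closedFace_convex (S.erase w)
      (vertex_mem_closedFace (Finset.mem_erase.mpr ⟨huw, hu⟩))
      (vertex_mem_closedFace (Finset.mem_erase.mpr ⟨hvw, hv⟩)) (by linarith) h0 (by ring)
  rcases lt_or_ge t 0 with h | h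
  · -- `a` between `b` and `c`
    have h1t : 0 < 1 - t := by linarith
    apply key (u := b) (v := c) (w := a) (s := 1 / (1 - t)) hb hc ha hab.symm hac.symm hbc
      (by positivity)
    · rw [div_le_one h1t]; linarith
    · rw [ht]
      match_scalars <;> field_simp <;> ring
  · rcases le_or_gt t 1 with h' | h'
    · apply key (u := a) (v := b) (w := c) (s := t) ha hb hc hac hbc hab h h'
      rw [ht]; module
    · have ht0 : 0 < t := by linarith
      apply key (u := a) (v := c) (w := b) (s := 1 / t) ha hc hb hab hbc.symm hac (by positivity)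
      · rw [div_le_one ht0]; exact h'.le
      · rw [ht]
        match_scalars <;> field_simp <;> ring

/-- Data attached to a polygon whose plane does not contain the origin. -/
lemma polygon_data {S : Finset (Fin 3 → ℤ)} (hS : 3 ≤ S.card)
    (hext : ∀ v ∈ S, toR v ∉ closedFace (S.erase v))
    (hpl : Coplanar ℝ (toR '' (S : Set (Fin 3 → ℤ))))
    (h0 : (0 : V) ∉ affineSpan ℝ (toR '' (S : Set (Fin 3 → ℤ)))) :
    ∃ q : Fin 3 → ℚ, q ≠ 0 ∧ (∀ v ∈ S, ∑ j, (q j : ℝ) * toR v j = 1) ∧
      ∃ a ∈ S, ∃ b ∈ S, ∃ c ∈ S, LinearIndependent ℝ ![toR a, toR b, toR c] := by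
  obtain ⟨a, ha, b, hb, c, hc, hab, hnc⟩ := exists_noncollinear hS hext
  have hab' : toR b - toR a ≠ 0 := by
    intro h
    exact hab (toR_injective (sub_eq_zero.mp h)).symm
  have mem_aff : ∀ v ∈ S, toR v ∈ affineSpan ℝ (toR '' (S : Set (Fin 3 → ℤ))) := fun v hv =>
    subset_affineSpan ℝ _ ⟨v, hv, rfl⟩
  have hli2 : LinearIndependent ℝ ![toR b - toR a, toR c - toR a] := by
    rw [LinearIndependent.pair_iff]
    intro s t hst
    have ht : t = 0 := by
      by_contra ht
      apply hnc (-(s / t))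
      have h1 : toR c - toR a = (-(s / t)) • (toR b - toR a) := by
        have h2 : t • (toR c - toR a) = -(s • (toR b - toR a)) := by
          rw [eq_neg_iff_add_eq_zero, add_comm]; exact hst
        have h3 : toR c - toR a = t⁻¹ • (t • (toR c - toR a)) := by
          rw [smul_smul, inv_mul_cancel₀ ht, one_smul]
        rw [h3, h2, smul_neg, smul_smul, neg_smul]
        congr 2
        field_simp
      rw [← h1]; abel
    refine ⟨?_, ht⟩
    rw [ht, zero_smul, add_zero] at hst
    rcases smul_eq_zero.mp hst with h | h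
    · exact h
    · exact absurd h hab'
  have hli : LinearIndependent ℝ ![toR a, toR b, toR c] := by
    rw [Fintype.linearIndependent_iff]
    intro g hg
    rw [Fin.sum_univ_three] at hg
    simp only [Matrix.cons_val_zero, Matrix.cons_val_one, Matrix.cons_val] at hg
    have hsum : g 0 + g 1 + g 2 = 0 := by
      by_contra hs
      apply h0
      have h1 : (0 : V) = ((g 1 / (g 0 + g 1 + g 2)) • (toR b - toR a)
          + (g 2 / (g 0 + g 1 + g 2)) • (toR c - toR a)) +ᵥ toR a := by
        have h2 : (0 : V) = (g 0 + g 1 + g 2)⁻¹ • (g 0 • toR a + g 1 • toR b + g 2 • toR c) := by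
          rw [hg, smul_zero]
        rw [h2, vadd_eq_add]
        match_scalars <;> field_simp <;> ring
      rw [h1]
      apply AffineSubspace.vadd_mem_of_mem_direction _ (mem_aff a ha)
      apply Submodule.add_mem
      · apply Submodule.smul_mem
        exact AffineSubspace.vsub_mem_direction (mem_aff b hb) (mem_aff a ha)
      · apply Submodule.smul_mem
        exact AffineSubspace.vsub_mem_direction (mem_aff c hc) (mem_aff a ha)
    rw [LinearIndependent.pair_iff] at hli2
    have h1 : g 1 • (toR b - toR a) + g 2 • (toR c - toR a) = 0 := by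
      have h2 : g 1 • (toR b - toR a) + g 2 • (toR c - toR a)
          = (g 0 • toR a + g 1 • toR b + g 2 • toR c) - (g 0 + g 1 + g 2) • toR a := by module
      rw [h2, hg, hsum, zero_smul, sub_zero]
    obtain ⟨e1, e2⟩ := hli2 _ _ h1
    intro i
    fin_cases i
    · simp only [Fin.zero_eta, Fin.isValue]; linarith
    · exact e1
    · exact e2
  -- the rational functional
  let N : Matrix (Fin 3) (Fin 3) ℚ := Matrix.of ![fun j => (a j : ℚ), fun j => (b j : ℚ),
    fun j => (c j : ℚ)]
  have hN : IsUnit N.det := by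
    rw [isUnit_iff_ne_zero]
    intro hdet
    obtain ⟨w, hw0, hw⟩ := Matrix.exists_vecMul_eq_zero_iff.mpr hdet
    apply hw0
    rw [Fintype.linearIndependent_iff] at hli
    have h1 := hli (fun k => (w k : ℝ)) (by
      rw [Fin.sum_univ_three]
      funext j
      have h2 := congrFun hw j
      simp only [N, Matrix.vecMul, dotProduct, Fin.sum_univ_three, Matrix.of_apply,
        Matrix.cons_val_zero, Matrix.cons_val_one, Matrix.cons_val, Pi.zero_apply] at h2
      simp only [Matrix.cons_val_zero, Matrix.cons_val_one, Matrix.cons_val, Pi.add_apply,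
        Pi.smul_apply, smul_eq_mul, toR, Pi.zero_apply]
      exact_mod_cast h2)
    funext k
    exact_mod_cast h1 k
  let q : Fin 3 → ℚ := N⁻¹.mulVec (fun _ => 1)
  have hNq : N.mulVec q = fun _ => 1 := by
    simp only [q, Matrix.mulVec_mulVec, Matrix.mul_nonsing_inv N hN, Matrix.one_mulVec]
  have hqa : ∑ j, (q j : ℝ) * toR a j = 1 := by
    have h2 := congrFun hNq 0
    simp only [N, Matrix.mulVec, dotProduct, Fin.sum_univ_three, Matrix.of_apply,
        Matrix.cons_val_zero] at h2
    rw [Fin.sum_univ_three]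
    simp only [toR]
    have h3 : (q 0 : ℝ) * (a 0 : ℝ) + (q 1 : ℝ) * (a 1 : ℝ) + (q 2 : ℝ) * (a 2 : ℝ)
      = (((a 0 : ℚ) * q 0 + (a 1 : ℚ) * q 1 + (a 2 : ℚ) * q 2 : ℚ) : ℝ) := by push_cast; ring
    rw [h3, h2]; norm_num
  have hqb : ∑ j, (q j : ℝ) * toR b j = 1 := by
    have h2 := congrFun hNq 1
    simp only [N, Matrix.mulVec, dotProduct, Fin.sum_univ_three, Matrix.of_apply,
        Matrix.cons_val_one, Matrix.cons_val_zero] at h2
    rw [Fin.sum_univ_three]
    simp only [toR]
    have h3 : (q 0 : ℝ) * (b 0 : ℝ) + (q 1 : ℝ) * (b 1 : ℝ) + (q 2 : ℝ) * (b 2 : ℝ)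
      = (((b 0 : ℚ) * q 0 + (b 1 : ℚ) * q 1 + (b 2 : ℚ) * q 2 : ℚ) : ℝ) := by push_cast; ring
    rw [h3, h2]; norm_num
  have hqc : ∑ j, (q j : ℝ) * toR c j = 1 := by
    have h2 := congrFun hNq 2
    simp only [N, Matrix.mulVec, dotProduct, Fin.sum_univ_three, Matrix.of_apply,
        Matrix.cons_val] at h2
    rw [Fin.sum_univ_three]
    simp only [toR]
    have h3 : (q 0 : ℝ) * (c 0 : ℝ) + (q 1 : ℝ) * (c 1 : ℝ) + (q 2 : ℝ) * (c 2 : ℝ)
      = (((c 0 : ℚ) * q 0 + (c 1 : ℚ) * q 1 + (c 2 : ℚ) * q 2 : ℚ) : ℝ) := by push_cast; ring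
    rw [h3, h2]; norm_num
  refine ⟨q, ?_, ?_, a, ha, b, hb, c, hc, hli⟩
  · intro hq
    rw [hq] at hqa
    simp at hqa
  · intro v hv
    -- `v - a` is in the span of `b - a`, `c - a`
    have hspan : toR v - toR a ∈ Submodule.span ℝ (Set.range ![toR b - toR a, toR c - toR a]) := by
      set W := vectorSpan ℝ (toR '' (S : Set (Fin 3 → ℤ))) with hW
      have hle : Submodule.span ℝ (Set.range ![toR b - toR a, toR c - toR a]) ≤ W := by
        rw [Submodule.span_le]
        rintro x ⟨k, rfl⟩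
        fin_cases k
        · exact vsub_mem_vectorSpan ℝ ⟨b, hb, rfl⟩ ⟨a, ha, rfl⟩
        · exact vsub_mem_vectorSpan ℝ ⟨c, hc, rfl⟩ ⟨a, ha, rfl⟩
      have hfr : Module.finrank ℝ W ≤ 2 := by
        have : Module.rank ℝ W ≤ 2 := hpl
        exact Module.finrank_le_of_rank_le (by exact_mod_cast this)
      have heq := Submodule.eq_of_le_of_finrank_le hle (by
        rw [finrank_span_eq_card hli2]
        simpa using hfr)
      rw [heq]
      exact vsub_mem_vectorSpan ℝ ⟨v, hv, rfl⟩ ⟨a, ha, rfl⟩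
    rw [Submodule.mem_span_range_iff_exists_fun] at hspan
    obtain ⟨g, hg⟩ := hspan
    rw [Fin.sum_univ_two] at hg
    simp only [Matrix.cons_val_zero, Matrix.cons_val_one] at hg
    have hv' : toR v = toR a + (g 0 • (toR b - toR a) + g 1 • (toR c - toR a)) := by
      rw [hg]; abel
    rw [hv']
    simp only [Fin.sum_univ_three, Pi.add_apply, Pi.smul_apply, Pi.sub_apply, smul_eq_mul] at hqa hqb hqc ⊢
    linear_combination (1 - g 0 - g 1) * hqa + g 0 * hqb + g 1 * hqc

end Pool.Agent.Helper15.Sail
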