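import Pool.Agent.Helper15.SailDefs

namespace Pool.Agent.Helper15.Sail

open Matrix Polynomial

/-! ### The action -/

lemma act_def (g : Matrix (Fin 3) (Fin 3) ℤ) (x : V) :
    act g x = (g.map (Int.cast : ℤ → ℝ)).mulVec x := rfl

/-- `act g` as a linear map. -/
noncomputable def actL (g : Matrix (Fin 3) (Fin 3) ℤ) : V →ₗ[ℝ] V :=
  Matrix.toLin' (g.map (Int.cast : ℤ → ℝ))

lemma actL_apply (g : Matrix (Fin 3) (Fin 3) ℤ) (x : V) : actL g x = act g x := by
  simp [actL, act, Matrix.toLin'_apply]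

lemma act_mul (g h : Matrix (Fin 3) (Fin 3) ℤ) (x : V) : act (g * h) x = act g (act h x) := by
  have : (g * h).map (Int.cast : ℤ → ℝ)
      = g.map (Int.cast : ℤ → ℝ) * h.map (Int.cast : ℤ → ℝ) := by
    ext i j
    simp [Matrix.mul_apply, Matrix.map_apply]
  simp [act, this, Matrix.mulVec_mulVec]

lemma act_one (x : V) : act 1 x = x := by
  have : (1 : Matrix (Fin 3) (Fin 3) ℤ).map (Int.cast : ℤ → ℝ) = 1 := by
    ext i j
    by_cases h : i = j
    · subst h; simp
    · simp [h]
  simp [act, this]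

lemma act_add (g : Matrix (Fin 3) (Fin 3) ℤ) (x y : V) : act g (x + y) = act g x + act g y := by
  simp [act, Matrix.mulVec_add]

lemma act_smul (g : Matrix (Fin 3) (Fin 3) ℤ) (c : ℝ) (x : V) : act g (c • x) = c • act g x := by
  simp [act, Matrix.mulVec_smul]

lemma act_continuous (g : Matrix (Fin 3) (Fin 3) ℤ) : Continuous (act g) := by
  have : act g = actL g := by ext1 x; exact (actL_apply g x).symm
  rw [this]
  exact LinearMap.continuous_of_finiteDimensional _

lemma act_inv_act (g : GL (Fin 3) ℤ) (x : V) :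
    act (g⁻¹ : GL (Fin 3) ℤ) (act g x) = x := by
  rw [← act_mul]
  have : ((g⁻¹ : GL (Fin 3) ℤ) : Matrix (Fin 3) (Fin 3) ℤ) * (g : Matrix (Fin 3) (Fin 3) ℤ) = 1 := by
    simp
  rw [this, act_one]

lemma act_act_inv (g : GL (Fin 3) ℤ) (x : V) :
    act g (act (g⁻¹ : GL (Fin 3) ℤ) x) = x := by
  rw [← act_mul]
  have : (g : Matrix (Fin 3) (Fin 3) ℤ) * ((g⁻¹ : GL (Fin 3) ℤ) : Matrix (Fin 3) (Fin 3) ℤ) = 1 := by
    simp
  rw [this, act_one]

/-! ### Eigenvectors -/

lemma exists_eigen (A : Matrix (Fin 3) (Fin 3) ℤ)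
    (hirr : Irreducible (A.charpoly.map (Int.castRingHom ℚ)))
    (hreal : (A.charpoly.map (Int.castRingHom ℝ)).Splits) :
    ∃ (lam : Fin 3 → ℝ) (v : Fin 3 → V), Function.Injective lam ∧ (∀ k, v k ≠ 0) ∧
      ∀ k, act A (v k) = lam k • v k := by
  set P : ℝ[X] := A.charpoly.map (Int.castRingHom ℝ) with hP
  have hmon : P.Monic := (A.charpoly_monic).map _
  have hdeg : P.natDegree = 3 := by
    rw [hP, (A.charpoly_monic).natDegree_map, Matrix.charpoly_natDegree_eq_dim]
    simp
  have hcard : P.roots.card = 3 := by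
    rw [← hdeg]; exact splits_iff_card_roots.mp hreal
  have hsep : P.Separable := by
    have h1 : (A.charpoly.map (Int.castRingHom ℚ)).Separable := hirr.separable
    have h2 := h1.map (f := algebraMap ℚ ℝ)
    rw [Polynomial.map_map] at h2
    have h3 : (algebraMap ℚ ℝ).comp (Int.castRingHom ℚ) = Int.castRingHom ℝ := by ext; simp
    rw [h3] at h2
    exact h2
  have hnd : P.roots.Nodup := nodup_roots hsep
  have hc : P.roots.toFinset.card = 3 := by
    rw [Multiset.toFinset_card_of_nodup hnd, hcard]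
  obtain ⟨f⟩ : Nonempty (Fin 3 ≃ P.roots.toFinset) := by
    have : Fintype.card (Fin 3) = Fintype.card P.roots.toFinset := by simp [hc]
    exact ⟨Fintype.equivOfCardEq this⟩
  have hroot : ∀ k, P.IsRoot (f k : ℝ) := by
    intro k
    have := (f k).2
    rw [Multiset.mem_toFinset] at this
    exact isRoot_of_mem_roots this
  have hev : ∀ k, ∃ v : V, v ≠ 0 ∧ act A v = (f k : ℝ) • v := by
    intro k
    have h1 : Module.End.HasEigenvalue (actL A) (f k : ℝ) := by
      rw [Module.End.hasEigenvalue_iff_isRoot_charpoly]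
      have : (actL A).charpoly = P := by
        rw [actL, Matrix.charpoly_toLin', hP, ← Matrix.charpoly_map]
        rfl
      rw [this]; exact hroot k
    obtain ⟨v, hv⟩ := h1.exists_hasEigenvector
    refine ⟨v, hv.2, ?_⟩
    have := hv.apply_eq_smul
    rw [actL_apply] at this
    exact this
  choose v hv0 hv using hev
  refine ⟨fun k => (f k : ℝ), v, ?_, hv0, hv⟩
  intro i j hij
  exact f.injective (Subtype.ext hij)

lemma eigen_linearIndependent (A : Matrix (Fin 3) (Fin 3) ℤ) (lam : Fin 3 → ℝ) (v : Fin 3 → V)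
    (hl : Function.Injective lam) (hv0 : ∀ k, v k ≠ 0)
    (hv : ∀ k, act A (v k) = lam k • v k) : LinearIndependent ℝ v := by
  apply Module.End.eigenvectors_linearIndependent' (actL A) lam hl v
  intro k
  rw [Module.End.hasEigenvector_iff]
  refine ⟨?_, hv0 k⟩
  rw [Module.End.mem_eigenspace_iff, actL_apply]
  exact hv k

/-- The irrationality lemma: no nonzero rational functional vanishes on an eigenvector. -/
lemma irrational_functional (A : Matrix (Fin 3) (Fin 3) ℤ)
    (hirr : Irreducible (A.charpoly.map (Int.castRingHom ℚ)))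
    (e : V) (he : e ≠ 0) (lam : ℝ) (hev : act A e = lam • e)
    (q : Fin 3 → ℚ) (hq : q ≠ 0) : ∑ j, (q j : ℝ) * e j ≠ 0 := by
  intro h0
  set M : Matrix (Fin 3) (Fin 3) ℚ := A.map (Int.cast : ℤ → ℚ) with hM
  set χ : ℚ[X] := A.charpoly.map (Int.castRingHom ℚ) with hχ
  have hMχ : M.charpoly = χ := by
    rw [hχ, ← Matrix.charpoly_map]; rfl
  -- row vectors `q M^k`
  let r : ℕ → (Fin 3 → ℚ) := fun k => q ᵥ* (M ^ k)
  -- they all annihilate `e`
  have hMe : (M.map (Rat.cast : ℚ → ℝ)).mulVec e = lam • e := by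
    rw [← hev, act_def]
    congr 1
  have hann : ∀ k, ∑ j, (r k j : ℝ) * e j = 0 := by
    intro k
    induction k with
    | zero => simpa [r] using h0
    | succ k ih =>
      have h1 : r (k + 1) = (r k) ᵥ* M := by
        simp [r, pow_succ, Matrix.vecMul_vecMul]
      have h2 : ∑ j, (r (k + 1) j : ℝ) * e j = lam * ∑ j, (r k j : ℝ) * e j := by
        have h3 : (fun j => (r (k + 1) j : ℝ))
            = (fun j => (r k j : ℝ)) ᵥ* (M.map (Rat.cast : ℚ → ℝ)) := by
          funext j
          rw [h1]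
          simp [Matrix.vecMul, dotProduct]
        have h4 : ∑ j, (r (k + 1) j : ℝ) * e j = (fun j => (r (k + 1) j : ℝ)) ⬝ᵥ e := rfl
        have h5 : ∑ j, (r k j : ℝ) * e j = (fun j => (r k j : ℝ)) ⬝ᵥ e := rfl
        rw [h4, h5, h3, ← Matrix.dotProduct_mulVec, hMe, dotProduct_smul, smul_eq_mul]
      rw [h2, ih, mul_zero]
  -- linear independence
  have hdeg : χ.natDegree = 3 := by
    rw [hχ, (A.charpoly_monic).natDegree_map, Matrix.charpoly_natDegree_eq_dim]
    simp
  let N : Matrix (Fin 3) (Fin 3) ℚ := Matrix.of fun k j => r (k : ℕ) j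
  have hdet : N.det ≠ 0 := by
    intro hdet
    obtain ⟨c, hc0, hc⟩ := Matrix.exists_vecMul_eq_zero_iff.mpr hdet
    let p : ℚ[X] := C (c 0) + C (c 1) * X + C (c 2) * X ^ 2
    have hp0 : p ≠ 0 := by
      intro hp
      apply hc0
      have e0 : p.coeff 0 = c 0 := by simp [p]
      have e1 : p.coeff 1 = c 1 := by simp [p, coeff_C]
      have e2 : p.coeff 2 = c 2 := by simp [p]
      funext i
      fin_cases i
      · simpa [hp] using e0.symm
      · simpa [hp] using e1.symm
      · simpa [hp] using e2.symm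
    have hpdeg : p.natDegree < 3 := by
      have : p.natDegree ≤ 2 := by
        simp only [p]
        compute_degree
      omega
    have hcop : IsCoprime p χ := by
      have hnd : ¬ χ ∣ p := by
        intro hd
        have := natDegree_le_of_dvd hd hp0
        omega
      exact ((Irreducible.coprime_iff_not_dvd hirr).mpr hnd).symm
    obtain ⟨a, b, hab⟩ := hcop
    have h1 : aeval M (a * p + b * χ) = (1 : Matrix (Fin 3) (Fin 3) ℚ) := by
      rw [hab]; simp
    have h2 : aeval M χ = 0 := by rw [← hMχ]; exact Matrix.aeval_self_charpoly M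
    have h3 : aeval M p * aeval M a = (1 : Matrix (Fin 3) (Fin 3) ℚ) := by
      rw [map_add, map_mul, map_mul, h2, mul_zero, add_zero] at h1
      rw [← map_mul, mul_comm, map_mul]
      exact h1
    have h4 : q ᵥ* (aeval M p) = 0 := by
      have h5 : aeval M p = c 0 • (1 : Matrix (Fin 3) (Fin 3) ℚ) + c 1 • M + c 2 • M ^ 2 := by
        simp [p, Algebra.algebraMap_eq_smul_one]
      rw [h5, Matrix.vecMul_add, Matrix.vecMul_add, Matrix.vecMul_smul, Matrix.vecMul_smul,
        Matrix.vecMul_smul]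
      have h6 := hc
      funext j
      have h7 := congrFun h6 j
      simp only [N, Matrix.vecMul, dotProduct, Fin.sum_univ_three, Matrix.of_apply,
        Pi.zero_apply] at h7
      have h8 : r 0 = q ᵥ* (1 : Matrix (Fin 3) (Fin 3) ℚ) := by simp [r]
      have h9 : r 1 = q ᵥ* M := by simp [r]
      have h10 : r 2 = q ᵥ* (M ^ 2) := by simp [r]
      simp only [Pi.add_apply, Pi.smul_apply, smul_eq_mul, Pi.zero_apply]
      rw [← h8, ← h9, ← h10]
      simpa using h7
    apply hq
    calc q = q ᵥ* (aeval M p * aeval M a) := by rw [h3]; simp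
      _ = (q ᵥ* aeval M p) ᵥ* aeval M a := by rw [Matrix.vecMul_vecMul]
      _ = 0 := by rw [h4]; simp
  -- contradiction over the reals
  have hdetR : (N.map (Rat.cast : ℚ → ℝ)).det ≠ 0 := by
    have : (N.map (Rat.cast : ℚ → ℝ)).det = ((N.det : ℚ) : ℝ) := by
      have := (Rat.castHom ℝ).map_det N
      simpa using this.symm
    rw [this]
    exact_mod_cast hdet
  apply he
  have hNe : (N.map (Rat.cast : ℚ → ℝ)).mulVec e = 0 := by
    funext k
    have := hann (k : ℕ)
    simpa [N, Matrix.mulVec, dotProduct] using this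
  by_contra hne
  exact hdetR (Matrix.exists_mulVec_eq_zero_iff.mp ⟨e, hne, hNe⟩)

end Pool.Agent.Helper15.Sail
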