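import Pool.Agent.Helper15.SailLin

namespace Pool.Agent.Helper15.Sail

open Topology Filter Set

/-- The open cone over `K` with apex the origin. -/
def cone (K : Set V) : Set V := {z | ∃ r : ℝ, 0 < r ∧ ∃ y ∈ K, z = r • y}

lemma mem_cone_iff {K : Set V} {φ : V →ₗ[ℝ] ℝ} (hφ : ∀ y ∈ K, φ y = 1) (z : V) :
    z ∈ cone K ↔ 0 < φ z ∧ (φ z)⁻¹ • z ∈ K := by
  constructor
  · rintro ⟨r, hr, y, hy, rfl⟩
    have h1 : φ (r • y) = r := by rw [map_smul, hφ y hy]; simp
    rw [h1]
    refine ⟨hr, ?_⟩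
    rw [smul_smul, inv_mul_cancel₀ hr.ne', one_smul]
    exact hy
  · rintro ⟨h1, h2⟩
    refine ⟨φ z, h1, _, h2, ?_⟩
    rw [smul_smul, mul_inv_cancel₀ h1.ne', one_smul]

lemma cone_combo3 {K : Set V} (hK : Convex ℝ K) {a b q : V} (ha : a ∈ K) (hb : b ∈ K)
    (hq : q ∈ K) {α β γ : ℝ} (hα : 0 < α) (hβ : 0 ≤ β) (hγ : 0 ≤ γ) :
    α • a + β • b + γ • q ∈ cone K := by
  have hs : 0 < α + β + γ := by linarith
  refine ⟨α + β + γ, hs, (α / (α + β + γ)) • a + (β / (α + β + γ)) • b + (γ / (α + β + γ)) • q,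
    ?_, ?_⟩
  · have h1 := hK.sum_mem (t := Finset.univ) (w := ![α / (α + β + γ), β / (α + β + γ), γ / (α + β + γ)])
      (z := ![a, b, q]) ?_ ?_ ?_
    · simpa [Fin.sum_univ_three] using h1
    · intro i _
      fin_cases i
      · exact div_nonneg hα.le hs.le
      · exact div_nonneg hβ hs.le
      · exact div_nonneg hγ hs.le
    · simp only [Fin.sum_univ_three, Matrix.cons_val_zero, Matrix.cons_val_one, Matrix.cons_val]
      field_simp
    · intro i _
      fin_cases i
      · exact ha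
      · exact hb
      · exact hq
  · match_scalars <;> field_simp

/-- Local data at a point `y` near `x` lying on an edge. -/
def EdgeProp {S : Type} (K : S → Set V) (x : V) (σ : S) (y : V) : Prop :=
  ∃ a b q : V, a ∈ K σ ∧ b ∈ K σ ∧ q ∈ K σ ∧ LinearIndependent ℝ ![a, b, q] ∧
    (∃ α β : ℝ, 0 < α ∧ 0 < β ∧ y = α • a + β • b) ∧
    (∃ xa xb : ℝ, x = xa • a + xb • b) ∧
    ∃ σ' : S, a ∈ K σ' ∧ b ∈ K σ' ∧ ∃ q' ∈ K σ', ∃ κ θ ρ : ℝ, 0 < κ ∧ κ < 1 ∧ 0 < θ ∧ θ ≤ 1 ∧
      θ • ((1 - κ) • q + κ • q') = (1 - ρ) • a + ρ • b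

theorem local_step {S : Type} [Finite S] (K : S → Set V) (φ : S → V →ₗ[ℝ] ℝ) (x : V)
    (hcl : ∀ σ, IsClosed (K σ)) (hconv : ∀ σ, Convex ℝ (K σ))
    (hφ : ∀ σ, ∀ y ∈ K σ, φ σ y = 1) (hx : ∀ σ, x ∈ K σ)
    (ε : ℝ) (hε : 0 < ε)
    (hloc : ∀ σ, ∀ y ∈ K σ, dist y x < ε → y ≠ x →
      (∀ᶠ z in 𝓝 y, z ∈ cone (K σ)) ∨ EdgeProp K x σ y)
    (σ₀ : S) (hspan : ∀ W : Submodule ℝ V, K σ₀ ⊆ W → W = ⊤) (u : V) :
    ∃ σ' : S, ∃ t : ℝ, 0 < t ∧ x + t • u ∈ cone (K σ') ∧ φ σ' u ≤ φ σ₀ u := by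
  have hcont : ∀ σ, Continuous (φ σ) := fun σ => LinearMap.continuous_of_finiteDimensional _
  have hφx : ∀ σ, φ σ x = 1 := fun σ => hφ σ x (hx σ)
  have hx0 : x ≠ 0 := by
    intro h
    have := hφx σ₀
    rw [h, map_zero] at this
    norm_num at this
  by_cases hu : ∃ k : ℝ, u = k • x
  · obtain ⟨k, rfl⟩ := hu
    refine ⟨σ₀, (1 + |k|)⁻¹ / 2, by positivity, ?_, le_rfl⟩
    refine ⟨1 + (1 + |k|)⁻¹ / 2 * k, ?_, x, hx σ₀, ?_⟩
    · have h1 : |(1 + |k|)⁻¹ / 2 * k| ≤ 1 / 2 := by
        rw [abs_mul, abs_of_pos (by positivity : (0 : ℝ) < (1 + |k|)⁻¹ / 2)]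
        rw [div_mul_eq_mul_div, div_le_div_iff_of_pos_right (by norm_num)]
        rw [inv_mul_le_iff₀ (by positivity)]
        linarith [abs_nonneg k]
      have := neg_abs_le ((1 + |k|)⁻¹ / 2 * k)
      linarith
    · rw [smul_smul, add_smul, one_smul]
  -- `x, u` are independent; choose `q ∈ K σ₀` outside their span
  have hxu : LinearIndependent ℝ ![x, u] := by
    rw [LinearIndependent.pair_iff]
    intro s t hst
    have ht : t = 0 := by
      by_contra ht
      apply hu
      refine ⟨-(s / t), ?_⟩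
      have h1 : t • u = -(s • x) := by
        rw [eq_neg_iff_add_eq_zero, add_comm]; exact hst
      have h2 : u = t⁻¹ • (t • u) := by rw [smul_smul, inv_mul_cancel₀ ht, one_smul]
      rw [h2, h1, smul_neg, smul_smul, neg_smul]
      congr 2
      field_simp
    refine ⟨?_, ht⟩
    rw [ht, zero_smul, add_zero] at hst
    rcases smul_eq_zero.mp hst with h | h
    · exact h
    · exact absurd h hx0
  obtain ⟨q, hq, hqn⟩ : ∃ q ∈ K σ₀, q ∉ Submodule.span ℝ {x, u} := by
    by_contra hcon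
    push Not at hcon
    have h1 := hspan (Submodule.span ℝ {x, u}) hcon
    have h2 : Module.finrank ℝ (Submodule.span ℝ ({x, u} : Set V)) ≤ 2 := by
      have : ({x, u} : Set V) = Set.range ![x, u] := by
        ext w
        simp [eq_comm, or_comm]
      rw [this]
      exact finrank_range_le_card (R := ℝ) ![x, u]
    rw [h1, finrank_top] at h2
    simp at h2
  set z : ℝ → ℝ → V := fun τ s => x + τ • ((1 - s) • (q - x) + s • u) with hz
  -- choice of `τ`
  obtain ⟨δ, hδ, hδprop⟩ : ∃ δ : ℝ, 0 < δ ∧ ∀ w : V, dist w x < δ →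
      ∀ σ, 0 < φ σ w ∧ dist ((φ σ w)⁻¹ • w) x < ε := by
    have h1 : ∀ σ, ∀ᶠ w in 𝓝 x, 0 < φ σ w ∧ dist ((φ σ w)⁻¹ • w) x < ε := by
      intro σ
      have c1 : ∀ᶠ w in 𝓝 x, 0 < φ σ w := by
        have : Tendsto (φ σ) (𝓝 x) (𝓝 1) := by
          have := (hcont σ).tendsto x
          rwa [hφx σ] at this
        exact this.eventually (lt_mem_nhds (by norm_num : (0 : ℝ) < 1))
      have c2 : ∀ᶠ w in 𝓝 x, dist ((φ σ w)⁻¹ • w) x < ε := by
        have h3 : ContinuousAt (fun w => (φ σ w)⁻¹ • w) x := by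
          have h6 : ContinuousAt (fun w => (φ σ w)⁻¹) x := by
            apply ContinuousAt.inv₀ (hcont σ).continuousAt
            rw [hφx σ]; norm_num
          exact h6.fun_smul continuousAt_id
        have h4 : (φ σ x)⁻¹ • x = x := by rw [hφx σ]; simp
        have h5 := h3.tendsto
        simp only [h4] at h5
        have := Metric.tendsto_nhds.mp h5 ε hε
        simpa using this
      exact c1.and c2
    have h2 := Filter.eventually_all.mpr h1
    obtain ⟨δ, hδ, h3⟩ := Metric.eventually_nhds_iff.mp h2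
    exact ⟨δ, hδ, fun w hw σ => h3 hw σ⟩
  obtain ⟨τ, hτ0, hτ1, hτ⟩ : ∃ τ : ℝ, 0 < τ ∧ τ ≤ 1 ∧ ∀ s ∈ Icc (0 : ℝ) 1, dist (z τ s) x < δ := by
    set M : ℝ := ‖q - x‖ + ‖u‖ + 1 with hM
    have hMpos : 0 < M := by positivity
    refine ⟨min 1 (δ / (2 * M)), by positivity, min_le_left _ _, ?_⟩
    intro s hs
    have h1 : dist (z (min 1 (δ / (2 * M))) s) x
        = min 1 (δ / (2 * M)) * ‖(1 - s) • (q - x) + s • u‖ := by
      simp only [hz]
      rw [dist_eq_norm]
      rw [add_sub_cancel_left, norm_smul, Real.norm_eq_abs, abs_of_pos (by positivity)]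
    rw [h1]
    have h2 : ‖(1 - s) • (q - x) + s • u‖ ≤ M := by
      calc ‖(1 - s) • (q - x) + s • u‖ ≤ ‖(1 - s) • (q - x)‖ + ‖s • u‖ := norm_add_le _ _
        _ = (1 - s) * ‖q - x‖ + s * ‖u‖ := by
            rw [norm_smul, norm_smul, Real.norm_eq_abs, Real.norm_eq_abs, abs_of_nonneg hs.1,
              abs_of_nonneg (by linarith [hs.2])]
        _ ≤ M := by
            rw [hM]
            nlinarith [hs.1, hs.2, norm_nonneg (q - x), norm_nonneg u]
    calc min 1 (δ / (2 * M)) * ‖(1 - s) • (q - x) + s • u‖ ≤ δ / (2 * M) * M := by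
          apply mul_le_mul (min_le_right _ _) h2 (norm_nonneg _) (by positivity)
      _ = δ / 2 := by field_simp
      _ < δ := by linarith
  -- the good set
  set G : Set ℝ := {s | s ∈ Icc (0 : ℝ) 1 ∧ ∃ σ, (φ σ (z τ s))⁻¹ • z τ s ∈ K σ ∧
    φ σ u ≤ φ σ₀ u} with hG
  have hzc : Continuous (z τ) := by
    simp only [hz]
    fun_prop
  have hGclosed : IsClosed G := by
    have h1 : G = ⋃ σ : S, {s | s ∈ Icc (0 : ℝ) 1 ∧ (φ σ (z τ s))⁻¹ • z τ s ∈ K σ ∧
        φ σ u ≤ φ σ₀ u} := by
      ext s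
      simp only [hG, Set.mem_ofPred_eq, mem_iUnion]
      constructor
      · rintro ⟨h1, σ, h2⟩
        exact ⟨σ, h1, h2⟩
      · rintro ⟨σ, h1, h2⟩
        exact ⟨h1, σ, h2⟩
    rw [h1]
    apply isClosed_iUnion_of_finite
    intro σ
    by_cases hσ : φ σ u ≤ φ σ₀ u
    · have h2 : {s | s ∈ Icc (0 : ℝ) 1 ∧ (φ σ (z τ s))⁻¹ • z τ s ∈ K σ ∧ φ σ u ≤ φ σ₀ u}
          = Icc (0 : ℝ) 1 ∩ (fun s => (φ σ (z τ s))⁻¹ • z τ s) ⁻¹' (K σ) := by
        ext s
        simp [hσ]
      rw [h2]
      apply ContinuousOn.preimage_isClosed_of_isClosed _ isClosed_Icc (hcl σ)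
      have h6 : ContinuousOn (fun s => (φ σ (z τ s))⁻¹) (Icc 0 1) := by
        apply ContinuousOn.inv₀ (((hcont σ).comp hzc).continuousOn)
        intro s hs
        exact ((hδprop _ (hτ s hs) σ).1).ne'
      exact h6.fun_smul hzc.continuousOn
    · have h2 : {s | s ∈ Icc (0 : ℝ) 1 ∧ (φ σ (z τ s))⁻¹ • z τ s ∈ K σ ∧ φ σ u ≤ φ σ₀ u}
          = ∅ := by
        ext s
        simp only [Set.mem_ofPred_eq, mem_empty_iff_false, iff_false]
        rintro ⟨_, _, h3⟩
        exact hσ h3
      rw [h2]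
      exact isClosed_empty
  have hG0 : (0 : ℝ) ∈ G := by
    refine ⟨⟨le_rfl, zero_le_one⟩, σ₀, ?_, le_rfl⟩
    have h1 : z τ 0 = (1 - τ) • x + τ • q := by
      simp only [hz]
      module
    have h2 : z τ 0 ∈ K σ₀ := by
      rw [h1]
      exact hconv σ₀ (hx σ₀) hq (by linarith) hτ0.le (by ring)
    rw [hφ σ₀ _ h2]
    simpa using h2
  have hGcomp : IsCompact G :=
    isCompact_Icc.of_isClosed_subset hGclosed (fun s hs => hs.1)
  set s₁ := sSup G with hs₁
  have hs₁G : s₁ ∈ G := hGcomp.sSup_mem ⟨0, hG0⟩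
  have hGle : ∀ s ∈ G, s ≤ s₁ := fun s hs => le_csSup hGcomp.bddAbove hs
  obtain ⟨hs₁I, σ, hσK, hσu⟩ := hs₁G
  have hzs₁ := hδprop _ (hτ s₁ hs₁I) σ
  set y : V := (φ σ (z τ s₁))⁻¹ • z τ s₁ with hy
  have hzy : z τ s₁ = φ σ (z τ s₁) • y := by
    rw [hy, smul_smul, mul_inv_cancel₀ hzs₁.1.ne', one_smul]
  rcases eq_or_lt_of_le hs₁I.2 with h1 | hlt
  · -- the end
    refine ⟨σ, τ, hτ0, ?_, hσu⟩
    rw [mem_cone_iff (hφ σ)]
    have h2 : z τ s₁ = x + τ • u := by
      rw [h1]
      simp only [hz]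
      module
    rw [← h2]
    exact ⟨hzs₁.1, hσK⟩
  · exfalso
    -- `y ≠ x`
    have hyx : y ≠ x := by
      intro hyx
      rw [hyx] at hzy
      apply hqn
      set r := φ σ (z τ s₁) with hr
      have h2 : (τ * (1 - s₁)) • q = (r - 1 + τ * (1 - s₁)) • x - (τ * s₁) • u := by
        have h3 : x + τ • ((1 - s₁) • (q - x) + s₁ • u) = r • x := by
          simpa only [hz] using hzy
        have h4 : (τ * (1 - s₁)) • q = r • x - x + (τ * (1 - s₁)) • x - (τ * s₁) • u := by
          rw [← h3]; module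
        rw [h4]; module
      have hne : τ * (1 - s₁) ≠ 0 := by
        apply mul_ne_zero hτ0.ne'
        linarith
      have h3 : q = (τ * (1 - s₁))⁻¹ • ((r - 1 + τ * (1 - s₁)) • x - (τ * s₁) • u) := by
        rw [← h2, smul_smul, inv_mul_cancel₀ hne, one_smul]
      rw [h3]
      apply Submodule.smul_mem
      apply Submodule.sub_mem
      · exact Submodule.smul_mem _ _ (Submodule.subset_span (by simp))
      · exact Submodule.smul_mem _ _ (Submodule.subset_span (by simp))
    -- it suffices to find good points slightly beyond `s₁`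
    have hfin : ¬ ∀ᶠ s in 𝓝[>] s₁, s ∈ G := by
      intro hev
      obtain ⟨s, hs1, hs2⟩ := (hev.and self_mem_nhdsWithin).exists
      exact absurd (hGle s hs1) (not_le.mpr hs2)
    apply hfin
    have hI : ∀ᶠ s in 𝓝[>] s₁, s ∈ Icc (0 : ℝ) 1 := by
      have h2 : ∀ᶠ s in 𝓝[>] s₁, s < 1 :=
        (mem_nhdsWithin_of_mem_nhds (Iio_mem_nhds hlt))
      filter_upwards [h2, self_mem_nhdsWithin] with s hs1 hs2
      exact ⟨hs₁I.1.trans (le_of_lt hs2), hs1.le⟩
    have hgood : ∀ σ' : S, φ σ' u ≤ φ σ₀ u → ∀ s ∈ Icc (0 : ℝ) 1, z τ s ∈ cone (K σ') →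
        s ∈ G := by
      intro σ' h1 s h2 h3
      exact ⟨h2, σ', ((mem_cone_iff (hφ σ') _).mp h3).2, h1⟩
    have hzt : Tendsto (z τ) (𝓝[>] s₁) (𝓝 (z τ s₁)) :=
      (hzc.tendsto s₁).mono_left nhdsWithin_le_nhds
    rcases hloc σ y hσK hzs₁.2 hyx with hint | hedge
    · -- interior case
      have h1 : ∀ᶠ w in 𝓝 (z τ s₁), w ∈ cone (K σ) := by
        set r := φ σ (z τ s₁) with hr
        have h2 : Tendsto (fun w : V => r⁻¹ • w) (𝓝 (z τ s₁)) (𝓝 y) := by
          have h3 : Continuous (fun w : V => r⁻¹ • w) := continuous_const_smul _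
          exact h3.tendsto _
        filter_upwards [h2.eventually hint] with w hw
        obtain ⟨r', hr', y', hy', h5⟩ := hw
        refine ⟨r * r', mul_pos hzs₁.1 hr', y', hy', ?_⟩
        rw [mul_smul, ← h5, smul_smul, mul_inv_cancel₀ hzs₁.1.ne', one_smul]
      filter_upwards [hI, hzt.eventually h1] with s hs1 hs2
      exact hgood σ hσu s hs1 hs2
    · -- edge case
      obtain ⟨a, b, q₁, ha, hb, hq₁, hli, ⟨α, β, hα, hβ, hyab⟩, ⟨xa, xb, hxab⟩, σ', ha', hb',
        q', hq', κ, θ, ρ, hκ0, hκ1, hθ0, hθ1, hwell⟩ := hedge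
      have hcard : Fintype.card (Fin 3) = Module.finrank ℝ V := by simp
      set B := basisOfLinearIndependentOfCardEqFinrank hli hcard with hB
      have hB0 : B 0 = a := by simp [hB]
      have hB1 : B 1 = b := by simp [hB]
      have hB2 : B 2 = q₁ := by simp [hB]
      have hexp : ∀ w : V, w = B.coord 0 w • a + B.coord 1 w • b + B.coord 2 w • q₁ := by
        intro w
        have := B.sum_repr w
        rw [Fin.sum_univ_three, hB0, hB1, hB2] at this
        exact this.symm
      have hcc : ∀ k, Continuous (B.coord k) := fun k =>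
        LinearMap.continuous_of_finiteDimensional _
      have hca : ∀ k, B.coord k a = if k = 0 then 1 else 0 := by
        intro k
        rw [← hB0]
        simp [Finsupp.single_apply, eq_comm]
      have hcb : ∀ k, B.coord k b = if k = 1 then 1 else 0 := by
        intro k
        rw [← hB1]
        simp [Finsupp.single_apply, eq_comm]
      set r := φ σ (z τ s₁) with hr
      have hz0 : B.coord 0 (z τ s₁) = r * α := by
        rw [hzy, hyab]; simp only [map_smul, map_add, hca, hcb]; simp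
      have hz1 : B.coord 1 (z τ s₁) = r * β := by
        rw [hzy, hyab]; simp only [map_smul, map_add, hca, hcb]; simp
      have hz2 : B.coord 2 (z τ s₁) = 0 := by
        rw [hzy, hyab]; simp only [map_smul, map_add, hca, hcb]; simp
      have t0 : Tendsto (fun s => B.coord 0 (z τ s)) (𝓝[>] s₁) (𝓝 (r * α)) := by
        rw [← hz0]; exact ((hcc 0).tendsto _).comp hzt
      have t1 : Tendsto (fun s => B.coord 1 (z τ s)) (𝓝[>] s₁) (𝓝 (r * β)) := by
        rw [← hz1]; exact ((hcc 1).tendsto _).comp hzt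
      have t2 : Tendsto (fun s => B.coord 2 (z τ s)) (𝓝[>] s₁) (𝓝 0) := by
        rw [← hz2]; exact ((hcc 2).tendsto _).comp hzt
      have hrα : 0 < r * α := mul_pos hzs₁.1 hα
      have hrβ : 0 < r * β := mul_pos hzs₁.1 hβ
      -- `q₁` in terms of `a, b, q'`
      have hq₁' : q₁ = ((1 - ρ) / (θ * (1 - κ))) • a + (ρ / (θ * (1 - κ))) • b
          - (κ / (1 - κ)) • q' := by
        have h1κ : (1 - κ) ≠ 0 := by linarith
        have h2 : (1 - κ) • q₁ + κ • q' = θ⁻¹ • ((1 - ρ) • a + ρ • b) := by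
          rw [← hwell, smul_smul, inv_mul_cancel₀ hθ0.ne', one_smul]
        have h3 : q₁ = (1 - κ)⁻¹ • (θ⁻¹ • ((1 - ρ) • a + ρ • b) - κ • q') := by
          rw [← h2, add_sub_cancel_right, smul_smul, inv_mul_cancel₀ h1κ, one_smul]
        rw [h3]
        match_scalars <;> field_simp
      -- combined coefficients
      have t0' : Tendsto (fun s => B.coord 0 (z τ s)
          + B.coord 2 (z τ s) * ((1 - ρ) / (θ * (1 - κ)))) (𝓝[>] s₁) (𝓝 (r * α)) := by
        have := t0.add (t2.mul_const ((1 - ρ) / (θ * (1 - κ))))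
        simpa using this
      have t1' : Tendsto (fun s => B.coord 1 (z τ s)
          + B.coord 2 (z τ s) * (ρ / (θ * (1 - κ)))) (𝓝[>] s₁) (𝓝 (r * β)) := by
        have := t1.add (t2.mul_const (ρ / (θ * (1 - κ))))
        simpa using this
      -- the difference functional
      have hδq : 0 ≤ φ σ' q₁ - φ σ q₁ := by
        have e1 : φ σ q₁ = 1 := hφ σ q₁ hq₁
        have e2 : θ * ((1 - κ) * φ σ' q₁ + κ) = 1 := by
          have := congrArg (φ σ') hwell
          simp only [map_smul, map_add, smul_eq_mul, hφ σ' a ha', hφ σ' b hb', hφ σ' q' hq'] at this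
          nlinarith [this]
        have e3 : 1 ≤ (1 - κ) * φ σ' q₁ + κ := by
          by_contra hcon
          push Not at hcon
          have : θ * ((1 - κ) * φ σ' q₁ + κ) < 1 := by
            rcases le_or_gt 0 ((1 - κ) * φ σ' q₁ + κ) with h | h
            · calc θ * ((1 - κ) * φ σ' q₁ + κ) ≤ 1 * ((1 - κ) * φ σ' q₁ + κ) :=
                    mul_le_mul_of_nonneg_right hθ1 h
                _ < 1 := by linarith
            · have := mul_neg_of_pos_of_neg hθ0 h
              linarith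
          linarith
        have e4 : 1 ≤ φ σ' q₁ := by
          by_contra hcon
          push Not at hcon
          nlinarith
        linarith
      have hδa : φ σ' a - φ σ a = 0 := by rw [hφ σ' a ha', hφ σ a ha]; ring
      have hδb : φ σ' b - φ σ b = 0 := by rw [hφ σ' b hb', hφ σ b hb]; ring
      have hδw : ∀ w : V, φ σ' w - φ σ w = B.coord 2 w * (φ σ' q₁ - φ σ q₁) := by
        intro w
        conv_lhs => rw [hexp w]
        simp only [map_add, map_smul, smul_eq_mul]
        linear_combination (B.coord 0 w) * hδa + (B.coord 1 w) * hδb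
      have hδx : φ σ' x - φ σ x = 0 := by rw [hφx, hφx]; ring
      filter_upwards [hI, self_mem_nhdsWithin, t0.eventually (lt_mem_nhds hrα),
        t1.eventually (lt_mem_nhds hrβ), t0'.eventually (lt_mem_nhds hrα),
        t1'.eventually (lt_mem_nhds hrβ)] with s hsI hs2 p0 p1 p0' p1'
      rcases le_or_gt 0 (B.coord 2 (z τ s)) with hc | hc
      · -- still in the cone of `σ`
        apply hgood σ hσu s hsI
        rw [hexp (z τ s)]
        exact cone_combo3 (hconv σ) ha hb hq₁ p0 p1.le hc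
      · -- in the cone of `σ'`
        have hu' : φ σ' u ≤ φ σ u := by
          have g1 : φ σ' (z τ s) - φ σ (z τ s) ≤ 0 := by
            rw [hδw]
            exact mul_nonpos_of_nonpos_of_nonneg hc.le hδq
          have g2 : φ σ' (z τ s₁) - φ σ (z τ s₁) = 0 := by
            rw [hδw, hz2, zero_mul]
          have hform : ∀ s', φ σ' (z τ s') - φ σ (z τ s')
              = τ * ((1 - s') * (φ σ' q - φ σ q) + s' * (φ σ' u - φ σ u)) := by
            intro s'
            simp only [hz, map_add, map_smul, map_sub, smul_eq_mul]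
            rw [hφx, hφx]
            ring
          rw [hform] at g1 g2
          have g3 : (1 - s₁) * (φ σ' q - φ σ q) + s₁ * (φ σ' u - φ σ u) = 0 := by
            rcases mul_eq_zero.mp g2 with h | h
            · exact absurd h hτ0.ne'
            · exact h
          have g4 : (1 - s) * (φ σ' q - φ σ q) + s * (φ σ' u - φ σ u) ≤ 0 := by
            by_contra hcon
            push Not at hcon
            have := mul_pos hτ0 hcon
            linarith
          have hs2' : s₁ < s := hs2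
          have h1s : 0 < 1 - s₁ := by linarith
          have g5 : (s - s₁) * (φ σ' u - φ σ u) ≤ 0 := by
            have : (s - s₁) * (φ σ' u - φ σ u)
                = (1 - s₁) * ((1 - s) * (φ σ' q - φ σ q) + s * (φ σ' u - φ σ u))
                - (1 - s) * ((1 - s₁) * (φ σ' q - φ σ q) + s₁ * (φ σ' u - φ σ u)) := by ring
            rw [this, g3, mul_zero, sub_zero]
            exact mul_nonpos_of_nonneg_of_nonpos h1s.le g4
          by_contra hcon
          push Not at hcon
          have : 0 < (s - s₁) * (φ σ' u - φ σ u) := mul_pos (by linarith) (by linarith)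
          linarith
        apply hgood σ' (hu'.trans hσu) s hsI
        have hfinal : z τ s = (B.coord 0 (z τ s) + B.coord 2 (z τ s) * ((1 - ρ) / (θ * (1 - κ)))) • a
            + (B.coord 1 (z τ s) + B.coord 2 (z τ s) * (ρ / (θ * (1 - κ)))) • b
            + (-(B.coord 2 (z τ s)) * (κ / (1 - κ))) • q' := by
          conv_lhs => rw [hexp (z τ s)]
          conv_lhs => rw [hq₁']
          module
        rw [hfinal]
        apply cone_combo3 (hconv σ') ha' hb' hq' p0' p1'.le
        apply mul_nonneg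
        · linarith
        · apply div_nonneg hκ0.le
          linarith

end Pool.Agent.Helper15.Sail
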