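import Pool.Agent.Helper15.SailStar

namespace Pool.Agent.Helper15.Sail

open Topology Filter Set

variable {A : Matrix (Fin 3) (Fin 3) ℤ} {ι : Type}

/-- One step of the descent. -/
lemma ascend [Finite ι] (C : Candidate A ι) (h5 : C.Cond5)
    (φ : ι → V →ₗ[ℝ] ℝ)
    (hφ : ∀ i, 3 ≤ (C.verts i).card → ∀ y ∈ closedFace (C.verts i), φ i y = 1)
    (hli : ∀ i, 3 ≤ (C.verts i).card → ∃ a ∈ C.verts i, ∃ b ∈ C.verts i, ∃ c ∈ C.verts i,
      LinearIndependent ℝ ![toR a, toR b, toR c])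
    (ℓ : V →ₗ[ℝ] ℝ) (e : V) (hℓe : ℓ e = 1)
    (hB : ∀ B ∈ XiPlus A, ∃ μ : ℝ, 0 < μ ∧ act (B : Matrix (Fin 3) (Fin 3) ℤ) e = μ • e ∧
      ∀ x, ℓ (act (B : Matrix (Fin 3) (Fin 3) ℤ) x) = μ * ℓ x)
    (i : ι) (hi : 3 ≤ (C.verts i).card) (x : V) (hx : x ∈ closedFace (C.verts i))
    (hℓx : 0 ≤ ℓ x) :
    ∃ i' x', 3 ≤ (C.verts i').card ∧ x' ∈ closedFace (C.verts i') ∧ 0 < ℓ x' ∧
      (ℓ x * φ i e < 0 → ℓ x' * φ i' e < ℓ x * φ i e) ∧
      (0 ≤ ℓ x' * φ i' e → 0 ≤ φ i e) := by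
  rw [C.face_union i, mem_iUnion₂] at hx
  obtain ⟨⟨c, h⟩, hch, x₀, hx₀, hxx₀⟩ := hx
  simp only at hx₀ hxx₀
  obtain ⟨i', h', hi', hch', t, r, ht, hr, w, hw, hwcl, hle⟩ :=
    star_step C h5 φ hφ hli c x₀ hx₀ i h hi hch e
  obtain ⟨μ, hμ, hμe, hμℓ⟩ := hB h (C.face_mem i _ hch)
  obtain ⟨μ', hμ', hμe', hμℓ'⟩ := hB h' (C.face_mem i' _ hch')
  rw [hμe, hμe', map_smul, map_smul, smul_eq_mul, smul_eq_mul] at hle
  have hx₀cl : act (h' : Matrix (Fin 3) (Fin 3) ℤ) x₀ ∈ closedFace (C.verts i') :=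
    C.openFace_sub hch' ⟨x₀, hx₀, rfl⟩
  -- scalars
  have e1 : ℓ x = μ * ℓ x₀ := by rw [← hxx₀, hμℓ]
  have e2 : ℓ x₀ + t = r * ℓ w := by
    have := congrArg ℓ hw
    rw [map_add, map_smul, map_smul, hℓe, smul_eq_mul, smul_eq_mul, mul_one] at this
    exact this
  have e3 : 1 + t * (μ' * φ i' e) = r := by
    have h1 : φ i' (act (h' : Matrix (Fin 3) (Fin 3) ℤ) (x₀ + t • e))
        = φ i' (act (h' : Matrix (Fin 3) (Fin 3) ℤ) (r • w)) := by rw [hw]
    rw [act_add, act_smul, hμe', map_add, map_smul, map_smul,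
      hφ i' hi' _ hx₀cl, act_smul, map_smul, hφ i' hi' _ hwcl, smul_eq_mul, smul_eq_mul,
      smul_eq_mul, mul_one] at h1
    exact h1
  have e4 : 0 ≤ ℓ x₀ := by
    rw [e1] at hℓx
    exact nonneg_of_mul_nonneg_right hℓx hμ
  have e5 : 0 < ℓ w := by
    have : 0 < r * ℓ w := by rw [← e2]; linarith
    exact (mul_pos_iff_of_pos_left hr).mp this
  refine ⟨i', act (h' : Matrix (Fin 3) (Fin 3) ℤ) w, hi', hwcl, ?_, ?_, ?_⟩
  · rw [hμℓ']
    exact mul_pos hμ' e5
  · intro hneg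
    rw [hμℓ', e1]
    rw [e1] at hneg
    set s := μ * φ i e with hs
    set s' := μ' * φ i' e with hs'
    have hneg' : ℓ x₀ * s < 0 := by
      have : ℓ x₀ * s = μ * ℓ x₀ * φ i e := by rw [hs]; ring
      rw [this]; exact hneg
    have e6 : 0 < ℓ x₀ := by
      rcases eq_or_lt_of_le e4 with h0 | h0
      · rw [← h0, zero_mul] at hneg'
        exact absurd hneg' (lt_irrefl _)
      · exact h0
    have e7 : s < 0 := by
      by_contra hcon
      push Not at hcon
      have := mul_nonneg e6.le hcon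
      linarith
    have e8 : r < 1 := by
      rw [← e3]
      have : t * s' < 0 := mul_neg_of_pos_of_neg ht (lt_of_le_of_lt hle e7)
      linarith
    have e9 : ℓ x₀ < ℓ w := by
      by_contra hcon
      push Not at hcon
      have h1 : r * ℓ w ≤ 1 * ℓ w := mul_le_mul_of_nonneg_right e8.le e5.le
      linarith
    calc μ' * ℓ w * φ i' e = ℓ w * s' := by rw [hs']; ring
      _ ≤ ℓ w * s := mul_le_mul_of_nonneg_left hle e5.le
      _ < ℓ x₀ * s := mul_lt_mul_of_neg_right e9 e7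
      _ = μ * ℓ x₀ * φ i e := by rw [hs]; ring
  · intro hnn
    rw [hμℓ'] at hnn
    have h1 : 0 ≤ ℓ w * (μ' * φ i' e) := by
      have : ℓ w * (μ' * φ i' e) = μ' * ℓ w * φ i' e := by ring
      rw [this]; exact hnn
    have h2 : 0 ≤ μ' * φ i' e := nonneg_of_mul_nonneg_right h1 e5
    exact nonneg_of_mul_nonneg_right (h2.trans hle) hμ

/-- The minimum principle. -/
lemma min_principle [Finite ι] (C : Candidate A ι) (h5 : C.Cond5)
    (φ : ι → V →ₗ[ℝ] ℝ)
    (hφ : ∀ i, 3 ≤ (C.verts i).card → ∀ y ∈ closedFace (C.verts i), φ i y = 1)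
    (hli : ∀ i, 3 ≤ (C.verts i).card → ∃ a ∈ C.verts i, ∃ b ∈ C.verts i, ∃ c ∈ C.verts i,
      LinearIndependent ℝ ![toR a, toR b, toR c])
    (ℓ : V →ₗ[ℝ] ℝ) (e : V) (hℓe : ℓ e = 1)
    (hB : ∀ B ∈ XiPlus A, ∃ μ : ℝ, 0 < μ ∧ act (B : Matrix (Fin 3) (Fin 3) ℤ) e = μ • e ∧
      ∀ x, ℓ (act (B : Matrix (Fin 3) (Fin 3) ℤ) x) = μ * ℓ x)
    (i : ι) (hi : 3 ≤ (C.verts i).card) (x : V) (hx : x ∈ closedFace (C.verts i))
    (hℓx : 0 ≤ ℓ x) : 0 ≤ φ i e := by
  have hℓc : Continuous ℓ := LinearMap.continuous_of_finiteDimensional _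
  have key : ∀ i, 3 ≤ (C.verts i).card → ∀ x ∈ closedFace (C.verts i), 0 ≤ ℓ x →
      0 ≤ ℓ x * φ i e := by
    by_contra hcon
    push Not at hcon
    obtain ⟨i₁, hi₁, x₁, hx₁, hℓx₁, hneg⟩ := hcon
    set M : Set ℝ := ⋃ i : {i : ι // 3 ≤ (C.verts i).card},
      (fun x => ℓ x * φ i.1 e) '' (closedFace (C.verts i.1) ∩ {x | 0 ≤ ℓ x}) with hM
    have hMc : IsCompact M := by
      apply isCompact_iUnion
      intro i
      apply IsCompact.image
      · apply (closedFace_isCompact _).inter_right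
        exact isClosed_le continuous_const hℓc
      · exact hℓc.mul continuous_const
    have hmem : ∀ i, 3 ≤ (C.verts i).card → ∀ x ∈ closedFace (C.verts i), 0 ≤ ℓ x →
        ℓ x * φ i e ∈ M := by
      intro i hi x hx hℓ
      rw [hM, mem_iUnion]
      exact ⟨⟨i, hi⟩, x, ⟨hx, hℓ⟩, rfl⟩
    obtain ⟨m, hmM, hmle⟩ := hMc.exists_isLeast ⟨_, hmem i₁ hi₁ x₁ hx₁ hℓx₁⟩
    have hm0 : m < 0 := lt_of_le_of_lt (hmle (hmem i₁ hi₁ x₁ hx₁ hℓx₁)) hneg
    rw [hM, mem_iUnion] at hmM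
    obtain ⟨⟨i₂, hi₂⟩, x₂, ⟨hx₂, hℓx₂⟩, hm⟩ := hmM
    simp only at hm hx₂
    obtain ⟨i', x', hi', hx', hℓx', hstep, _⟩ :=
      ascend C h5 φ hφ hli ℓ e hℓe hB i₂ hi₂ x₂ hx₂ hℓx₂
    have h1 := hstep (by rw [hm]; exact hm0)
    have h2 := hmle (hmem i' hi' x' hx' hℓx'.le)
    rw [hm] at h1
    exact absurd h1 (not_lt.mpr h2)
  obtain ⟨i', x', hi', hx', hℓx', _, hsgn⟩ := ascend C h5 φ hφ hli ℓ e hℓe hB i hi x hx hℓx
  exact hsgn (key i' hi' x' hx' hℓx'.le)

/-- The eigenfunctional does not vanish on the polygons. -/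
lemma nonvanish [Finite ι] (C : Candidate A ι) (h5 : C.Cond5)
    (φ : ι → V →ₗ[ℝ] ℝ)
    (hφ : ∀ i, 3 ≤ (C.verts i).card → ∀ y ∈ closedFace (C.verts i), φ i y = 1)
    (hli : ∀ i, 3 ≤ (C.verts i).card → ∃ a ∈ C.verts i, ∃ b ∈ C.verts i, ∃ c ∈ C.verts i,
      LinearIndependent ℝ ![toR a, toR b, toR c])
    (ℓ : V →ₗ[ℝ] ℝ) (e : V) (hℓe : ℓ e = 1)
    (hB : ∀ B ∈ XiPlus A, ∃ μ : ℝ, 0 < μ ∧ act (B : Matrix (Fin 3) (Fin 3) ℤ) e = μ • e ∧
      ∀ x, ℓ (act (B : Matrix (Fin 3) (Fin 3) ℤ) x) = μ * ℓ x)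
    (hφe : ∀ i, 3 ≤ (C.verts i).card → φ i e ≠ 0)
    (i : ι) (hi : 3 ≤ (C.verts i).card) (x : V) (hx : x ∈ closedFace (C.verts i)) :
    ℓ x ≠ 0 := by
  intro h0
  apply hφe i hi
  apply le_antisymm
  · have h1 := min_principle C h5 φ hφ hli (-ℓ) (-e) (by simp [hℓe]) (by
      intro B hBm
      obtain ⟨μ, hμ, h1, h2⟩ := hB B hBm
      refine ⟨μ, hμ, ?_, ?_⟩
      · have h3 : act (B : Matrix (Fin 3) (Fin 3) ℤ) (-e) = -act (B : Matrix (Fin 3) (Fin 3) ℤ) e := by
          have := act_smul (B : Matrix (Fin 3) (Fin 3) ℤ) (-1) e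
          simpa using this
        rw [h3, h1, smul_neg]
      · intro x
        simp only [LinearMap.neg_apply, h2 x]
        ring) i hi x hx (by simp [h0])
    rw [map_neg] at h1
    linarith
  · exact min_principle C h5 φ hφ hli ℓ e hℓe hB i hi x hx h0.ge

/-- Elements of `Ξ₊(A)` act on the eigenvectors by positive scalars. -/
lemma xiPlus_eigen (lam : Fin 3 → ℝ) (v : Fin 3 → V) (hl : Function.Injective lam)
    (hv : ∀ k, act A (v k) = lam k • v k) (b : Module.Basis (Fin 3) ℝ V) (hb : ∀ k, b k = v k)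
    (B : GL (Fin 3) ℤ) (hB : B ∈ XiPlus A) (k : Fin 3) :
    ∃ μ : ℝ, 0 < μ ∧ act (B : Matrix (Fin 3) (Fin 3) ℤ) (v k) = μ • v k ∧
      ∀ x, b.coord k (act (B : Matrix (Fin 3) (Fin 3) ℤ) x) = μ * b.coord k x := by
  obtain ⟨hcomm, hpos⟩ := hB
  -- `B v_j` is an eigenvector of `A` for `lam j`
  have h1 : ∀ j, act A (act (B : Matrix (Fin 3) (Fin 3) ℤ) (v j))
      = lam j • act (B : Matrix (Fin 3) (Fin 3) ℤ) (v j) := by
    intro j
    rw [← act_mul, ← hcomm, act_mul, hv, act_smul]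
  have hbv : ∀ j m, b.coord m (v j) = if j = m then 1 else 0 := by
    intro j m
    rw [← hb j]
    simp [Finsupp.single_apply]
  have hexp : ∀ x : V, x = ∑ m, b.coord m x • v m := by
    intro x
    have := b.sum_repr x
    simp only [hb] at this
    exact this.symm
  have hAcoord : ∀ x m, b.coord m (act A x) = lam m * b.coord m x := by
    intro x m
    have h2 : act A x = ∑ j, (b.coord j x * lam j) • v j := by
      conv_lhs => rw [hexp x]
      rw [← actL_apply, map_sum]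
      apply Finset.sum_congr rfl
      intro j _
      rw [map_smul, actL_apply, hv, smul_smul]
    rw [h2, map_sum]
    simp only [map_smul, hbv, smul_eq_mul, mul_ite, mul_one, mul_zero, Finset.sum_ite_eq',
      Finset.mem_univ, if_true]
    ring
  have hBv : ∀ j, act (B : Matrix (Fin 3) (Fin 3) ℤ) (v j)
      = b.coord j (act (B : Matrix (Fin 3) (Fin 3) ℤ) (v j)) • v j := by
    intro j
    conv_lhs => rw [hexp (act (B : Matrix (Fin 3) (Fin 3) ℤ) (v j))]
    rw [Finset.sum_eq_single j]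
    · intro m _ hmj
      have h2 := hAcoord (act (B : Matrix (Fin 3) (Fin 3) ℤ) (v j)) m
      rw [h1 j, map_smul, smul_eq_mul] at h2
      have h3 : (lam j - lam m) * b.coord m (act (B : Matrix (Fin 3) (Fin 3) ℤ) (v j)) = 0 := by
        linear_combination h2
      rcases mul_eq_zero.mp h3 with h4 | h4
      · exact absurd (hl (sub_eq_zero.mp h4)).symm hmj
      · rw [h4, zero_smul]
    · intro h; exact absurd (Finset.mem_univ _) h
  set ν : Fin 3 → ℝ := fun j => b.coord j (act (B : Matrix (Fin 3) (Fin 3) ℤ) (v j)) with hν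
  refine ⟨ν k, ?_, hBv k, ?_⟩
  · apply hpos
    have hvk : v k ≠ 0 := by
      rw [← hb k]; exact b.ne_zero k
    have h2 : Module.End.HasEigenvalue (actL (B : Matrix (Fin 3) (Fin 3) ℤ)) (ν k) := by
      apply Module.End.hasEigenvalue_of_hasEigenvector (x := v k)
      rw [Module.End.hasEigenvector_iff]
      refine ⟨?_, hvk⟩
      rw [Module.End.mem_eigenspace_iff, actL_apply]
      exact hBv k
    rw [Module.End.hasEigenvalue_iff_isRoot_charpoly] at h2
    have h3 : (actL (B : Matrix (Fin 3) (Fin 3) ℤ)).charpoly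
        = ((B : Matrix (Fin 3) (Fin 3) ℤ).charpoly).map (Int.castRingHom ℝ) := by
      rw [actL, Matrix.charpoly_toLin', ← Matrix.charpoly_map]
      rfl
    rw [h3] at h2
    exact h2
  · intro x
    have h2 : act (B : Matrix (Fin 3) (Fin 3) ℤ) x = ∑ j, (b.coord j x * ν j) • v j := by
      conv_lhs => rw [hexp x]
      rw [← actL_apply, map_sum]
      apply Finset.sum_congr rfl
      intro j _
      rw [map_smul, actL_apply, hBv j, smul_smul]
    rw [h2, map_sum]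
    simp only [map_smul, hbv, smul_eq_mul, mul_ite, mul_one, mul_zero, Finset.sum_ite_eq',
      Finset.mem_univ, if_true]
    ring

/-- **Main theorem.** -/
theorem cond7_of [Finite ι] (A : Matrix (Fin 3) (Fin 3) ℤ)
    (hirr : Irreducible (A.charpoly.map (Int.castRingHom ℚ)))
    (hreal : (A.charpoly.map (Int.castRingHom ℝ)).Splits)
    (C : Candidate A ι) (h1 : C.Cond1) (h3 : C.Cond3) (h5 : C.Cond5) : C.Cond7 := by
  classical
  -- the planes
  have hdata : ∀ i : ι, ∃ q : Fin 3 → ℚ, 3 ≤ (C.verts i).card →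
      q ≠ 0 ∧ (∀ v ∈ C.verts i, ∑ j, (q j : ℝ) * toR v j = 1) ∧
      ∃ a ∈ C.verts i, ∃ b ∈ C.verts i, ∃ c ∈ C.verts i,
        LinearIndependent ℝ ![toR a, toR b, toR c] := by
    intro i
    by_cases hi : 3 ≤ (C.verts i).card
    · obtain ⟨q, hq⟩ := polygon_data hi (C.extreme i) (C.planar i) (h3 i hi)
      exact ⟨q, fun _ => hq⟩
    · exact ⟨0, fun h => absurd h hi⟩
  choose q hq using hdata
  let φ : ι → V →ₗ[ℝ] ℝ := fun i => ∑ j, (q i j : ℝ) • LinearMap.proj j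
  have hφapp : ∀ i x, φ i x = ∑ j, (q i j : ℝ) * x j := by
    intro i x
    simp [φ]
  have hφ : ∀ i, 3 ≤ (C.verts i).card → ∀ y ∈ closedFace (C.verts i), φ i y = 1 := by
    intro i hi
    apply functional_closedFace
    intro v hv
    rw [hφapp]
    exact (hq i hi).2.1 v hv
  have hli : ∀ i, 3 ≤ (C.verts i).card → ∃ a ∈ C.verts i, ∃ b ∈ C.verts i, ∃ c ∈ C.verts i,
      LinearIndependent ℝ ![toR a, toR b, toR c] := fun i hi => (hq i hi).2.2
  -- the eigenvectors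
  obtain ⟨lam, v, hl, hv0, hv⟩ := exists_eigen A hirr hreal
  have hlv := eigen_linearIndependent A lam v hl hv0 hv
  have hcard : Fintype.card (Fin 3) = Module.finrank ℝ V := by simp
  set b := basisOfLinearIndependentOfCardEqFinrank hlv hcard with hb
  have hbv : ∀ k, b k = v k := by intro k; simp [hb]
  have hB : ∀ k, ∀ B ∈ XiPlus A, ∃ μ : ℝ, 0 < μ ∧
      act (B : Matrix (Fin 3) (Fin 3) ℤ) (v k) = μ • v k ∧
      ∀ x, b.coord k (act (B : Matrix (Fin 3) (Fin 3) ℤ) x) = μ * b.coord k x :=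
    fun k B hBm => xiPlus_eigen lam v hl hv b hbv B hBm k
  have hone : ∀ k, b.coord k (v k) = 1 := by
    intro k
    rw [← hbv k]
    simp
  have hφe : ∀ k i, 3 ≤ (C.verts i).card → φ i (v k) ≠ 0 := by
    intro k i hi
    rw [hφapp]
    exact irrational_functional A hirr (v k) (hv0 k) (lam k) (hv k) (q i) (hq i hi).1
  have hpoly : ∀ k i, 3 ≤ (C.verts i).card → ∀ x ∈ closedFace (C.verts i), b.coord k x ≠ 0 :=
    fun k i hi x hx => nonvanish C h5 φ hφ hli (b.coord k) (v k) (hone k) (hB k) (hφe k) i hi x hx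
  -- all open faces
  have hopen : ∀ k j, ∀ x ∈ openFace (C.verts j), b.coord k x ≠ 0 := by
    intro k j x hx h0
    obtain ⟨i, hi, h, hjh⟩ := C.pure j
    obtain ⟨μ, _, _, hμ⟩ := hB k h (C.face_mem i _ hjh)
    have h4 : act (h : Matrix (Fin 3) (Fin 3) ℤ) x ∈ closedFace (C.verts i) :=
      C.openFace_sub hjh ⟨x, hx, rfl⟩
    apply hpoly k i hi _ h4
    rw [hμ, h0, mul_zero]
  have hclosed : ∀ k j, ∀ x ∈ closedFace (C.verts j), b.coord k x ≠ 0 := by
    intro k j x hx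
    rw [C.face_union j, mem_iUnion₂] at hx
    obtain ⟨⟨c, g⟩, hcg, z, hz, rfl⟩ := hx
    obtain ⟨μ, hμ0, _, hμ⟩ := hB k g (C.face_mem j _ hcg)
    simp only
    rw [hμ]
    exact mul_ne_zero hμ0.ne' (hopen k c z hz)
  have hDbar : ∀ k, ∀ x ∈ C.Dbar, b.coord k x ≠ 0 := by
    intro k x hx
    have h4 : C.Dbar ⊆ ⋃ j, closedFace (C.verts j) := by
      apply closure_minimal
      · apply iUnion_mono
        intro j
        exact openFace_subset_closedFace _
      · exact isClosed_iUnion_of_finite (fun j => closedFace_isClosed _)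
    obtain ⟨j, hj⟩ := mem_iUnion.mp (h4 hx)
    exact hclosed k j x hj
  -- connectedness
  obtain ⟨F⟩ := h1
  have hconn : IsPreconnected C.Dbar := by
    have h4 : IsPreconnected (Metric.closedBall (0 : ℂ) 1) :=
      (convex_closedBall (0 : ℂ) 1).isPreconnected
    have h5 : PreconnectedSpace (Metric.closedBall (0 : ℂ) 1) :=
      isPreconnected_iff_preconnectedSpace.mp h4
    have h6 : PreconnectedSpace C.Dbar := by
      constructor
      have := (isPreconnected_univ (α := Metric.closedBall (0 : ℂ) 1)).image F.symm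
        F.symm.continuous.continuousOn
      rwa [image_univ, F.symm.surjective.range_eq] at this
    exact isPreconnected_iff_preconnectedSpace.mpr h6
  have hpt : (0 : ℂ) ∈ Metric.closedBall (0 : ℂ) 1 := by simp
  set x₀ : C.Dbar := F.symm ⟨0, hpt⟩ with hx₀
  have hsign : ∀ k, ∀ x ∈ C.Dbar, 0 < b.coord k x₀ * b.coord k x := by
    intro k x hx
    by_contra hcon
    push Not at hcon
    have hc : Continuous (fun x : V => b.coord k x₀ * b.coord k x) :=
      continuous_const.mul (LinearMap.continuous_of_finiteDimensional _)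
    have hx₀' := hDbar k x₀ x₀.2
    have h4 : 0 ≤ b.coord k x₀ * b.coord k x₀ := mul_self_nonneg _
    obtain ⟨z, hz, hz0⟩ := hconn.intermediate_value hx x₀.2 hc.continuousOn ⟨hcon, h4⟩
    rcases mul_eq_zero.mp hz0 with h5 | h5
    · exact hx₀' h5
    · exact hDbar k z hz h5
  refine ⟨fun k => b.coord k x₀ • v k, ?_, ?_, ?_⟩
  · rw [Fintype.linearIndependent_iff] at hlv ⊢
    intro g hg k
    have h4 := hlv (fun k => g k * b.coord k x₀) (by simpa only [smul_smul] using hg) k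
    rcases mul_eq_zero.mp h4 with h5 | h5
    · exact h5
    · exact absurd h5 (hDbar k x₀ x₀.2)
  · intro k
    refine ⟨lam k, ?_⟩
    rw [act_smul, hv, smul_comm]
  · intro x hx
    refine ⟨fun k => b.coord k x / b.coord k x₀, ?_, ?_⟩
    · intro k
      show 0 < b.coord k x / b.coord k x₀
      have h4 := hsign k x hx
      have h5 := hDbar k x₀ x₀.2
      have h6 : b.coord k x / b.coord k x₀
          = (b.coord k x₀ * b.coord k x) / (b.coord k x₀ * b.coord k x₀) := by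
        field_simp
      rw [h6]
      exact div_pos h4 (mul_self_pos.mpr h5)
    · have h4 := b.sum_repr x
      simp only [hbv] at h4
      conv_lhs => rw [← h4]
      apply Finset.sum_congr rfl
      intro k _
      rw [smul_smul, div_mul_cancel₀ _ (hDbar k x₀ x₀.2)]
      rfl

end Pool.Agent.Helper15.Sail
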