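import Pool.Agent.Helper15.SailFace

namespace Pool.Agent.Helper15.Sail

open Topology Filter Set

variable {A : Matrix (Fin 3) (Fin 3) ℤ} {ι : Type}

lemma act_coe_mul (g h : GL (Fin 3) ℤ) (x : V) :
    act ((g * h : GL (Fin 3) ℤ) : Matrix (Fin 3) (Fin 3) ℤ) x
      = act (g : Matrix (Fin 3) (Fin 3) ℤ) (act (h : Matrix (Fin 3) (Fin 3) ℤ) x) := by
  rw [Units.val_mul, act_mul]

lemma act_injective (g : GL (Fin 3) ℤ) :
    Function.Injective (act (g : Matrix (Fin 3) (Fin 3) ℤ)) := by
  intro x y h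
  have := congrArg (act ((g⁻¹ : GL (Fin 3) ℤ) : Matrix (Fin 3) (Fin 3) ℤ)) h
  rwa [act_inv_act, act_inv_act] at this

/-- A face of a closed face is contained in it. -/
lemma Candidate.openFace_sub (C : Candidate A ι) {i j : ι} {g : GL (Fin 3) ℤ}
    (h : (j, g) ∈ C.face i) : act g '' openFace (C.verts j) ⊆ closedFace (C.verts i) := by
  rw [C.face_union i]
  intro x hx
  rw [mem_iUnion₂]
  exact ⟨(j, g), h, hx⟩

lemma Candidate.closedFace_sub (C : Candidate A ι) {i j : ι} {g : GL (Fin 3) ℤ}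
    (h : (j, g) ∈ C.face i) : act g '' closedFace (C.verts j) ⊆ closedFace (C.verts i) := by
  rintro x ⟨y, hy, rfl⟩
  rw [C.face_union j, mem_iUnion₂] at hy
  obtain ⟨f, hf, z, hz, rfl⟩ := hy
  have h1 := C.face_trans i (j, g) h f hf
  apply C.openFace_sub h1
  exact ⟨z, hz, act_coe_mul _ _ _⟩

/-- The polygons of `W` containing the face `(c, 1)`, in the form `(i, h)`, standing for
`(i, h⁻¹)`. -/
def StarIdx (C : Candidate A ι) (c : ι) : Type :=
  {p : ι × GL (Fin 3) ℤ // 3 ≤ (C.verts p.1).card ∧ (c, p.2) ∈ C.face p.1}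

instance (C : Candidate A ι) (c : ι) [Finite ι] : Finite (StarIdx C c) := by
  let f : StarIdx C c → (Σ i : ι, {f // f ∈ C.face i}) := fun σ => ⟨σ.1.1, ⟨(c, σ.1.2), σ.2.2⟩⟩
  apply Finite.of_injective f
  rintro ⟨⟨i, h⟩, h1, h2⟩ ⟨⟨i', h'⟩, h1', h2'⟩ heq
  simp only [f] at heq
  have e1 : i = i' := congrArg Sigma.fst heq
  subst e1
  have e2 := eq_of_heq (Sigma.mk.inj heq).2
  have e3 : (c, h) = (c, h') := congrArg Subtype.val e2
  have e4 : h = h' := congrArg Prod.snd e3
  subst e4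
  rfl

/-- The position of a polygon of the star. -/
def starK (C : Candidate A ι) (c : ι) (σ : StarIdx C c) : Set V :=
  {y | act (σ.1.2 : Matrix (Fin 3) (Fin 3) ℤ) y ∈ closedFace (C.verts σ.1.1)}

/-- The main local computation: the points near `x` in the star. -/
lemma star_loc [Finite ι] (C : Candidate A ι) (h5 : C.Cond5)
    (φ : ι → V →ₗ[ℝ] ℝ)
    (hφ : ∀ i, 3 ≤ (C.verts i).card → ∀ y ∈ closedFace (C.verts i), φ i y = 1)
    (hli : ∀ i, 3 ≤ (C.verts i).card → ∃ a ∈ C.verts i, ∃ b ∈ C.verts i, ∃ c ∈ C.verts i,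
      LinearIndependent ℝ ![toR a, toR b, toR c])
    (c : ι) (x : V) (hx : x ∈ openFace (C.verts c)) :
    ∃ ε : ℝ, 0 < ε ∧ ∀ σ : StarIdx C c, ∀ y ∈ starK C c σ, dist y x < ε → y ≠ x →
      (∀ᶠ z in 𝓝 y, z ∈ cone (starK C c σ)) ∨ EdgeProp (starK C c) x σ y := by
  classical
  -- the choice of `ε`
  have hε : ∀ᶠ y in 𝓝 x, ∀ σ : StarIdx C c, ∀ f ∈ C.face σ.1.1,
      act (σ.1.2 : Matrix (Fin 3) (Fin 3) ℤ) y ∈ act f.2 '' closedFace (C.verts f.1) →
      act (σ.1.2 : Matrix (Fin 3) (Fin 3) ℤ) x ∈ act f.2 '' closedFace (C.verts f.1) := by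
    rw [Filter.eventually_all]
    intro σ
    rw [Filter.eventually_all_finset]
    intro f _
    by_cases hmem : act (σ.1.2 : Matrix (Fin 3) (Fin 3) ℤ) x ∈ act f.2 '' closedFace (C.verts f.1)
    · exact Filter.Eventually.of_forall (fun _ _ => hmem)
    · have hcl : IsClosed (act (f.2 : Matrix (Fin 3) (Fin 3) ℤ) '' closedFace (C.verts f.1)) :=
        ((closedFace_isCompact _).image (act_continuous _)).isClosed
      have h1 : ∀ᶠ y in 𝓝 x, act (σ.1.2 : Matrix (Fin 3) (Fin 3) ℤ) y
          ∉ act f.2 '' closedFace (C.verts f.1) :=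
        (act_continuous _).continuousAt.eventually (hcl.isOpen_compl.mem_nhds hmem)
      filter_upwards [h1] with y hy hy'
      exact absurd hy' hy
  obtain ⟨ε, hε0, hε1⟩ := Metric.eventually_nhds_iff.mp hε
  refine ⟨ε, hε0, ?_⟩
  rintro ⟨⟨i, h⟩, hi3, hch⟩ y hy hdist hyx
  have hy' : act (h : Matrix (Fin 3) (Fin 3) ℤ) y ∈ closedFace (C.verts i) := hy
  simp only at hi3 hch
  rw [C.face_union i, mem_iUnion₂] at hy'
  obtain ⟨⟨T, g⟩, hTg, hyT⟩ := hy'
  simp only at hyT
  have hyT' : act (h : Matrix (Fin 3) (Fin 3) ℤ) y ∈ act g '' closedFace (C.verts T) :=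
    image_mono (openFace_subset_closedFace _) hyT
  have hxT := hε1 hdist ⟨⟨i, h⟩, hi3, hch⟩ (T, g) hTg hyT'
  simp only at hxT
  -- `(c, g⁻¹ h)` is a face of `T`
  obtain ⟨xT, hxTcl, hxTeq⟩ := hxT
  replace hxTeq : act (g : Matrix (Fin 3) (Fin 3) ℤ) xT
      = act (h : Matrix (Fin 3) (Fin 3) ℤ) x := hxTeq
  have hcT : (c, g⁻¹ * h) ∈ C.face T := by
    have hxTcl' := hxTcl
    rw [C.face_union T, mem_iUnion₂] at hxTcl'
    obtain ⟨⟨c', g'⟩, hc', z, hz, hzx⟩ := hxTcl'
    simp only at hz hzx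
    have h1 := C.face_trans i (T, g) hTg (c', g') hc'
    simp only at h1
    have h2 : act (h : Matrix (Fin 3) (Fin 3) ℤ) x
        ∈ act ((g * g' : GL (Fin 3) ℤ) : Matrix (Fin 3) (Fin 3) ℤ) '' openFace (C.verts c') :=
      ⟨z, hz, by rw [act_coe_mul, hzx, hxTeq]⟩
    have h3 : act (h : Matrix (Fin 3) (Fin 3) ℤ) x
        ∈ act (h : Matrix (Fin 3) (Fin 3) ℤ) '' openFace (C.verts c) := ⟨x, hx, rfl⟩
    have h4 : (c', g * g') = (c, h) := by
      by_contra hne
      exact Set.disjoint_left.mp (C.face_disj i _ h1 _ hch hne) h2 h3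
    have e1 : c' = c := congrArg Prod.fst h4
    have e2 : g * g' = h := congrArg Prod.snd h4
    have e3 : g' = g⁻¹ * h := by rw [← e2]; group
    rw [← e1, ← e3]
    exact hc'
  obtain ⟨yT, hyTop, hyTeq⟩ := hyT
  replace hyTeq : act (g : Matrix (Fin 3) (Fin 3) ℤ) yT
      = act (h : Matrix (Fin 3) (Fin 3) ℤ) y := hyTeq
  have hyTin : yT = act ((g⁻¹ * h : GL (Fin 3) ℤ) : Matrix (Fin 3) (Fin 3) ℤ) y := by
    rw [act_coe_mul, ← hyTeq, act_inv_act]
  have hxTin : xT = act ((g⁻¹ * h : GL (Fin 3) ℤ) : Matrix (Fin 3) (Fin 3) ℤ) x := by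
    rw [act_coe_mul, ← hxTeq, act_inv_act]
  rcases Nat.lt_or_ge 2 (C.verts T).card with hT3 | hTle
  · -- interior point of a polygon
    left
    obtain ⟨a, ha, b, hb, c₁, hc₁, hli₁⟩ := hli T hT3
    have h1 := eventually_mem_cone ha hb hc₁ hli₁ hyTop
    have h2 : Tendsto (act ((g⁻¹ * h : GL (Fin 3) ℤ) : Matrix (Fin 3) (Fin 3) ℤ)) (𝓝 y)
        (𝓝 yT) := by
      rw [hyTin]
      exact (act_continuous _).tendsto y
    filter_upwards [h2.eventually h1] with z hz
    obtain ⟨r, hr, w, hw, hzw⟩ := hz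
    refine ⟨r, hr, act (h⁻¹ : GL (Fin 3) ℤ) (act g w), ?_, ?_⟩
    · show act (h : Matrix (Fin 3) (Fin 3) ℤ) _ ∈ closedFace (C.verts i)
      rw [act_act_inv]
      exact C.closedFace_sub hTg ⟨w, hw, rfl⟩
    · apply act_injective h
      rw [act_smul, act_act_inv, ← act_smul, ← hzw, act_coe_mul, act_act_inv]
  · rcases Nat.lt_or_ge (C.verts T).card 2 with hT1 | hT2
    · -- a vertex
      exfalso
      have hpos := (C.nonempty T).card_pos
      have hone : (C.verts T).card = 1 := by omega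
      obtain ⟨v, hv⟩ := Finset.card_eq_one.mp hone
      have hsingle : ∀ w : V, w ∈ closedFace (C.verts T) → w = toR v := by
        rintro w ⟨μ, _, h1, rfl⟩
        rw [hv, Finset.sum_singleton] at h1 ⊢
        rw [h1, one_smul]
      apply hyx
      apply act_injective h
      rw [← hyTeq, ← hxTeq, hsingle _ hxTcl, hsingle _ (openFace_subset_closedFace _ hyTop)]
    · -- an edge
      right
      have hT : (C.verts T).card = 2 := by omega
      obtain ⟨a', b', hab', hTab⟩ := Finset.card_eq_two.mp hT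
      obtain ⟨i', h', hi'3, hTh', q₀, hq₀, q₀', hq₀', y₀, hy₀, θ, hθ0, hθ1, hθy⟩ :=
        h5 i hi3 T g hTg hT
      have haT : toR a' ∈ closedFace (C.verts T) := vertex_mem_closedFace (by rw [hTab]; simp)
      have hbT : toR b' ∈ closedFace (C.verts T) := vertex_mem_closedFace (by rw [hTab]; simp)
      set hi : Matrix (Fin 3) (Fin 3) ℤ := ((h⁻¹ : GL (Fin 3) ℤ) : Matrix (Fin 3) (Fin 3) ℤ)
        with hhi
      have hact : ∀ w : V, act (h : Matrix (Fin 3) (Fin 3) ℤ) (act hi w) = w := fun w =>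
        act_act_inv h w
      have hact' : ∀ w : V, act hi (act (h : Matrix (Fin 3) (Fin 3) ℤ) w) = w := fun w =>
        act_inv_act h w
      -- the line of the edge does not meet the open polygon
      have hqnot : ∀ μ : ℝ, q₀ ≠ (1 - μ) • act g (toR a') + μ • act g (toR b') := by
        intro μ hμ
        have hne : ((T, g) : ι × GL (Fin 3) ℤ) ≠ (i, 1) := by
          intro heq
          have : T = i := congrArg Prod.fst heq
          rw [this] at hT
          omega
        have hdis := C.face_disj i _ hTg _ (C.face_self i) hne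
        simp only at hdis
        set m : V := (1 / 2 : ℝ) • act g (toR a') + (1 / 2 : ℝ) • act g (toR b') with hm
        have hmcl : m ∈ closedFace (C.verts i) := by
          apply closedFace_convex _ (C.closedFace_sub hTg ⟨_, haT, rfl⟩)
            (C.closedFace_sub hTg ⟨_, hbT, rfl⟩) (by norm_num) (by norm_num) (by norm_num)
        -- the point `(1-s) m + s q₀` with small `s`
        set s : ℝ := 1 / (8 * (|μ| + 1)) with hs
        have hμ0 := abs_nonneg μ
        have hspos : 0 < s := by positivity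
        have hs1 : s ≤ 1 / 8 := by
          rw [hs]
          rw [div_le_div_iff₀ (by positivity) (by norm_num)]
          linarith
        have hsμ : s * |μ| ≤ 1 / 8 := by
          rw [hs, div_mul_eq_mul_div, div_le_div_iff₀ (by positivity) (by norm_num)]
          linarith
        have hsμ1 : s * μ ≤ 1 / 8 := le_trans (mul_le_mul_of_nonneg_left (le_abs_self μ) hspos.le) hsμ
        have hsμ2 : -(1 / 8) ≤ s * μ := by
          have := mul_le_mul_of_nonneg_left (neg_abs_le μ) hspos.le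
          linarith
        have hin1 : (1 - s) • m + s • q₀ ∈ openFace (C.verts i) :=
          segment_mem_openFace hmcl hq₀ (by linarith) hspos (by ring)
        have hin2 : (1 - s) • m + s • q₀ ∈ act g '' openFace (C.verts T) := by
          have hβ : 0 < (1 - s) / 2 + s * μ := by linarith
          have hα : 0 < (1 - s) / 2 + s * (1 - μ) := by
            have : s * (1 - μ) = s - s * μ := by ring
            rw [this]; linarith
          refine ⟨((1 - s) / 2 + s * (1 - μ)) • toR a' + ((1 - s) / 2 + s * μ) • toR b', ?_, ?_⟩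
          · rw [hTab, openFace_pair hab']
            exact ⟨_, _, hα, hβ, by ring, rfl⟩
          · rw [act_add, act_smul, act_smul, hμ, hm]
            module
        refine Set.disjoint_left.mp hdis hin2 ⟨_, hin1, ?_⟩
        show act ((1 : GL (Fin 3) ℤ) : Matrix (Fin 3) (Fin 3) ℤ) _ = _
        rw [Units.val_one, act_one]
      refine ⟨act hi (act g (toR a')), act hi (act g (toR b')), act hi q₀, ?_, ?_, ?_, ?_, ?_, ?_,
        ⟨⟨i', h' * (g⁻¹ * h)⟩, hi'3, C.face_trans i' (T, h') hTh' (c, g⁻¹ * h) hcT⟩, ?_, ?_,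
        act hi q₀', ?_, ?_⟩
      · show act (h : Matrix (Fin 3) (Fin 3) ℤ) _ ∈ closedFace (C.verts i)
        rw [hact]
        exact C.closedFace_sub hTg ⟨_, haT, rfl⟩
      · show act (h : Matrix (Fin 3) (Fin 3) ℤ) _ ∈ closedFace (C.verts i)
        rw [hact]
        exact C.closedFace_sub hTg ⟨_, hbT, rfl⟩
      · show act (h : Matrix (Fin 3) (Fin 3) ℤ) _ ∈ closedFace (C.verts i)
        rw [hact]
        exact openFace_subset_closedFace _ hq₀
      · -- linear independence
        rw [Fintype.linearIndependent_iff]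
        intro w hw
        rw [Fin.sum_univ_three] at hw
        simp only [Matrix.cons_val_zero, Matrix.cons_val_one, Matrix.cons_val] at hw
        have hw' := congrArg (act (h : Matrix (Fin 3) (Fin 3) ℤ)) hw
        rw [act_add, act_add, act_smul, act_smul, act_smul, hact, hact, hact] at hw'
        have hz : act (h : Matrix (Fin 3) (Fin 3) ℤ) 0 = 0 := by
          have := act_smul (h : Matrix (Fin 3) (Fin 3) ℤ) 0 0
          simpa using this
        rw [hz] at hw'
        have hsum : w 0 + w 1 + w 2 = 0 := by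
          have := congrArg (φ i) hw'
          rw [map_add, map_add, map_smul, map_smul, map_smul,
            hφ i hi3 _ (C.closedFace_sub hTg ⟨_, haT, rfl⟩),
            hφ i hi3 _ (C.closedFace_sub hTg ⟨_, hbT, rfl⟩),
            hφ i hi3 _ (openFace_subset_closedFace _ hq₀), map_zero] at this
          simpa using this
        have hw2 : w 2 = 0 := by
          by_contra hw2
          apply hqnot (-(w 1) / w 2)
          have h1 : w 2 • q₀ = -(w 0 • act g (toR a') + w 1 • act g (toR b')) := by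
            rw [eq_neg_iff_add_eq_zero, add_comm]
            exact hw'
          have h2 : q₀ = (w 2)⁻¹ • (w 2 • q₀) := by
            rw [smul_smul, inv_mul_cancel₀ hw2, one_smul]
          rw [h2, h1]
          have h3 : w 0 = -(w 1) - w 2 := by linarith
          rw [h3]
          match_scalars <;> field_simp <;> ring
        have hw01 : w 0 = -(w 1) := by linarith
        have hw1 : w 1 = 0 := by
          by_contra hw1
          apply hab'
          apply toR_injective
          apply act_injective g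
          rw [hw2, hw01, zero_smul, add_zero] at hw'
          have h1 : w 1 • (act g (toR b') - act g (toR a')) = 0 := by
            rw [← hw']; module
          rcases smul_eq_zero.mp h1 with h2 | h2
          · exact absurd h2 hw1
          · exact (sub_eq_zero.mp h2).symm
        intro k
        fin_cases k
        · simp only [Fin.zero_eta]; rw [hw01, hw1, neg_zero]
        · exact hw1
        · exact hw2
      · -- `y`
        have hyTop' := hyTop
        rw [hTab, openFace_pair hab'] at hyTop'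
        obtain ⟨α, β, hα, hβ, _, hαβ⟩ := hyTop'
        refine ⟨α, β, hα, hβ, ?_⟩
        rw [← hact' y, ← hyTeq, hαβ, act_add, act_smul, act_smul, act_add, act_smul, act_smul]
      · -- `x`
        have hxTcl' := hxTcl
        rw [hTab, closedFace_pair hab'] at hxTcl'
        obtain ⟨α, β, hα, hβ, _, hαβ⟩ := hxTcl'
        refine ⟨α, β, ?_⟩
        rw [← hact' x, ← hxTeq, hαβ, act_add, act_smul, act_smul, act_add, act_smul, act_smul]
      · show act ((h' * (g⁻¹ * h) : GL (Fin 3) ℤ) : Matrix (Fin 3) (Fin 3) ℤ) _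
          ∈ closedFace (C.verts i')
        rw [act_coe_mul, act_coe_mul, hact, act_inv_act]
        exact C.closedFace_sub hTh' ⟨_, haT, rfl⟩
      · show act ((h' * (g⁻¹ * h) : GL (Fin 3) ℤ) : Matrix (Fin 3) (Fin 3) ℤ) _
          ∈ closedFace (C.verts i')
        rw [act_coe_mul, act_coe_mul, hact, act_inv_act]
        exact C.closedFace_sub hTh' ⟨_, hbT, rfl⟩
      · show act ((h' * (g⁻¹ * h) : GL (Fin 3) ℤ) : Matrix (Fin 3) (Fin 3) ℤ) _
          ∈ closedFace (C.verts i')
        obtain ⟨p, hp, rfl⟩ := hq₀'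
        rw [act_coe_mul, act_coe_mul, hact, act_coe_mul, act_inv_act, act_act_inv]
        exact openFace_subset_closedFace _ hp
      · -- the dihedral angle
        rw [openSegment_eq_image] at hy₀
        obtain ⟨κ, ⟨hκ0, hκ1⟩, rfl⟩ := hy₀
        have himg : act (g : Matrix (Fin 3) (Fin 3) ℤ) '' (toR '' (C.verts T : Set (Fin 3 → ℤ)))
            = {act g (toR a'), act g (toR b')} := by
          rw [hTab]
          simp [Set.image_insert_eq]
        rw [himg] at hθy
        obtain ⟨ρ, hρ⟩ := mem_affineSpan_pair_iff_exists_lineMap_eq.mp hθy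
        refine ⟨κ, θ, ρ, hκ0, hκ1, hθ0, hθ1, ?_⟩
        have h1 : θ • ((1 - κ) • q₀ + κ • q₀') = (1 - ρ) • act g (toR a') + ρ • act g (toR b') := by
          rw [← hρ, AffineMap.lineMap_apply_module]
        have h2 := congrArg (act hi) h1
        rw [act_smul, act_add, act_add, act_smul, act_smul, act_smul, act_smul] at h2
        exact h2

/-- The star step. -/
theorem star_step [Finite ι] (C : Candidate A ι) (h5 : C.Cond5)
    (φ : ι → V →ₗ[ℝ] ℝ)
    (hφ : ∀ i, 3 ≤ (C.verts i).card → ∀ y ∈ closedFace (C.verts i), φ i y = 1)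
    (hli : ∀ i, 3 ≤ (C.verts i).card → ∃ a ∈ C.verts i, ∃ b ∈ C.verts i, ∃ c ∈ C.verts i,
      LinearIndependent ℝ ![toR a, toR b, toR c])
    (c : ι) (x : V) (hx : x ∈ openFace (C.verts c)) (i₀ : ι) (h₀ : GL (Fin 3) ℤ)
    (hi₀ : 3 ≤ (C.verts i₀).card) (hc₀ : (c, h₀) ∈ C.face i₀) (u : V) :
    ∃ i' : ι, ∃ h' : GL (Fin 3) ℤ, 3 ≤ (C.verts i').card ∧ (c, h') ∈ C.face i' ∧
      ∃ t r : ℝ, 0 < t ∧ 0 < r ∧ ∃ w : V, x + t • u = r • w ∧
        act (h' : Matrix (Fin 3) (Fin 3) ℤ) w ∈ closedFace (C.verts i') ∧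
        φ i' (act (h' : Matrix (Fin 3) (Fin 3) ℤ) u)
          ≤ φ i₀ (act (h₀ : Matrix (Fin 3) (Fin 3) ℤ) u) := by
  obtain ⟨ε, hε, hloc⟩ := star_loc C h5 φ hφ hli c x hx
  have hcl : ∀ σ, IsClosed (starK C c σ) := fun σ =>
    (closedFace_isClosed _).preimage (act_continuous _)
  have hconv : ∀ σ, Convex ℝ (starK C c σ) := by
    intro σ
    have h1 := (closedFace_convex (C.verts σ.1.1)).linear_preimage
      (actL (σ.1.2 : Matrix (Fin 3) (Fin 3) ℤ))
    have h2 : starK C c σ = (actL (σ.1.2 : Matrix (Fin 3) (Fin 3) ℤ)) ⁻¹'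
        closedFace (C.verts σ.1.1) := by
      ext y
      simp only [starK, Set.mem_ofPred_eq, Set.mem_preimage, actL_apply]
    rw [h2]
    exact h1
  have hxK : ∀ σ, x ∈ starK C c σ := fun σ => C.openFace_sub σ.2.2 ⟨x, hx, rfl⟩
  let Φ : StarIdx C c → V →ₗ[ℝ] ℝ := fun σ =>
    (φ σ.1.1) ∘ₗ (actL (σ.1.2 : Matrix (Fin 3) (Fin 3) ℤ))
  have hΦ : ∀ σ, ∀ y ∈ starK C c σ, Φ σ y = 1 := by
    intro σ y hy
    simp only [Φ, LinearMap.comp_apply, actL_apply]
    exact hφ _ σ.2.1 _ hy
  have hspan : ∀ W : Submodule ℝ V, starK C c ⟨⟨i₀, h₀⟩, hi₀, hc₀⟩ ⊆ W → W = ⊤ := by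
    intro W hW
    obtain ⟨a, ha, b, hb, c₁, hc₁, hli₁⟩ := hli i₀ hi₀
    have hcard : Fintype.card (Fin 3) = Module.finrank ℝ V := by simp
    set B := basisOfLinearIndependentOfCardEqFinrank hli₁ hcard with hB
    rw [eq_top_iff]
    intro w _
    have h1 := B.sum_repr (act (h₀ : Matrix (Fin 3) (Fin 3) ℤ) w)
    rw [Fin.sum_univ_three] at h1
    have e0 : B 0 = toR a := by simp [hB]
    have e1 : B 1 = toR b := by simp [hB]
    have e2 : B 2 = toR c₁ := by simp [hB]
    rw [e0, e1, e2] at h1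
    have h2 := congrArg (act ((h₀⁻¹ : GL (Fin 3) ℤ) : Matrix (Fin 3) (Fin 3) ℤ)) h1
    rw [act_inv_act, act_add, act_add, act_smul, act_smul, act_smul] at h2
    rw [← h2]
    have hm : ∀ v ∈ C.verts i₀,
        act ((h₀⁻¹ : GL (Fin 3) ℤ) : Matrix (Fin 3) (Fin 3) ℤ) (toR v) ∈ W := by
      intro v hv
      apply hW
      show act (h₀ : Matrix (Fin 3) (Fin 3) ℤ) _ ∈ closedFace (C.verts i₀)
      rw [act_act_inv]
      exact vertex_mem_closedFace hv
    exact W.add_mem (W.add_mem (W.smul_mem _ (hm a ha)) (W.smul_mem _ (hm b hb)))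
      (W.smul_mem _ (hm c₁ hc₁))
  obtain ⟨σ', t, ht, ⟨r, hr, w, hw, hxw⟩, hle⟩ := local_step (starK C c) Φ x hcl hconv hΦ hxK ε hε
    hloc ⟨⟨i₀, h₀⟩, hi₀, hc₀⟩ hspan u
  refine ⟨σ'.1.1, σ'.1.2, σ'.2.1, σ'.2.2, t, r, ht, hr, w, hxw, hw, ?_⟩
  simpa only [Φ, LinearMap.comp_apply, actL_apply] using hle

end Pool.Agent.Helper15.Sail
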