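import Mathlib

/-!
# Sets of lengths of `U(-U)` when `U` has only trivial relations

Abstract part of the counterexample to the conjecture on the maximal distance in sets of lengths.
-/

namespace Pool.Agent.Helper15.ZeroSumUV

open Multiset

set_option linter.unusedSectionVars false

/-- If `V ≤ map f s` then `V` is the image of a part of `s`. -/
lemma exists_le_of_le_map {α β : Type*} (f : α → β) (s : Multiset α) (V : Multiset β)
    (h : V ≤ s.map f) : ∃ W ≤ s, V = W.map f := by
  induction s using Quotient.inductionOn with
  | h l =>
    induction V using Quotient.inductionOn with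
    | h v =>
      simp only [quot_mk_to_coe, map_coe, coe_le] at h
      obtain ⟨l', hl', hs⟩ := h
      obtain ⟨l'', hl'', rfl⟩ := List.sublist_map_iff.1 hs
      refine ⟨(l'' : Multiset α), ?_, ?_⟩
      · simpa using hl''.subperm
      · simpa using hl'.symm

variable {G : Type*} [AddCommGroup G]

/-- Minimal zero-sum sequences. -/
def IsAtom' (U : Multiset G) : Prop :=
  U ≠ 0 ∧ U.sum = 0 ∧ ∀ V ≤ U, V.sum = 0 → V = 0 ∨ V = U

variable {ι : Type*} [Fintype ι] [DecidableEq ι]

/-- The sequence `U = ∏ g i`. -/
def Pos (g : ι → G) : Multiset G := Finset.univ.val.map g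

/-- The sequence `-U = ∏ (- g i)`. -/
def Neg (g : ι → G) : Multiset G := Finset.univ.val.map (fun i => - g i)

/-- All relations of `g` with coefficients in `{-1,0,1}` are trivial. -/
def OnlyTrivial (g : ι → G) : Prop :=
  ∀ c : ι → ℤ, (∀ i, c i = -1 ∨ c i = 0 ∨ c i = 1) → ∑ i, c i • g i = 0 →
    (∀ i, c i = 0) ∨ (∀ i, c i = 1) ∨ (∀ i, c i = -1)

lemma le_parts [DecidableEq G] (g : ι → G) {U : Multiset G} (h : U ≤ Pos g + Neg g) :
    ∃ S T : Finset ι, U = S.val.map g + T.val.map (fun i => - g i) := by
  have h1 : U ∩ Pos g ≤ Pos g := Multiset.inter_le_right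
  have h2 : U - Pos g ≤ Neg g := by
    rw [tsub_le_iff_left]
    exact h
  obtain ⟨W1, hW1, e1⟩ := exists_le_of_le_map g _ _ h1
  obtain ⟨W2, hW2, e2⟩ := exists_le_of_le_map (fun i => - g i) _ _ h2
  refine ⟨⟨W1, Multiset.nodup_of_le hW1 Finset.univ.nodup⟩,
    ⟨W2, Multiset.nodup_of_le hW2 Finset.univ.nodup⟩, ?_⟩
  simp only
  rw [← e1, ← e2, add_comm, Multiset.sub_add_inter]

lemma sum_parts (g : ι → G) (S T : Finset ι) :
    (S.val.map g + T.val.map (fun i => - g i)).sum =
      ∑ i, ((if i ∈ S then (1 : ℤ) else 0) - (if i ∈ T then 1 else 0)) • g i := by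
  rw [Multiset.sum_add]
  simp only [sub_smul, Finset.sum_sub_distrib, ite_smul, one_smul, zero_smul,
    Finset.sum_ite_mem, Finset.univ_inter]
  rw [sub_eq_add_neg]
  congr 1
  rw [← Finset.sum_neg_distrib]
  rfl

lemma coeff_cases (S T : Finset ι) (i : ι) :
    ((if i ∈ S then (1 : ℤ) else 0) - (if i ∈ T then 1 else 0)) = -1 ∨
    ((if i ∈ S then (1 : ℤ) else 0) - (if i ∈ T then 1 else 0)) = 0 ∨
    ((if i ∈ S then (1 : ℤ) else 0) - (if i ∈ T then 1 else 0)) = 1 := by
  by_cases h1 : i ∈ S <;> by_cases h2 : i ∈ T <;> simp [h1, h2]

variable {g : ι → G}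

/-- Zero-sum parts of `U(-U)`. -/
lemma zero_sum_cases (hg : OnlyTrivial g) {S T : Finset ι}
    (hs : (S.val.map g + T.val.map (fun i => - g i)).sum = 0) :
    S = T ∨ (S = Finset.univ ∧ T = ∅) ∨ (S = ∅ ∧ T = Finset.univ) := by
  rw [sum_parts] at hs
  rcases hg _ (coeff_cases S T) hs with h | h | h
  · left
    ext i
    have := h i
    by_cases h1 : i ∈ S <;> by_cases h2 : i ∈ T <;> simp_all
  · right; left
    constructor
    · ext i
      have := h i
      by_cases h1 : i ∈ S <;> by_cases h2 : i ∈ T <;> simp_all
    · ext i
      have := h i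
      by_cases h1 : i ∈ S <;> by_cases h2 : i ∈ T <;> simp_all
  · right; right
    constructor
    · ext i
      have := h i
      by_cases h1 : i ∈ S <;> by_cases h2 : i ∈ T <;> simp_all
    · ext i
      have := h i
      by_cases h1 : i ∈ S <;> by_cases h2 : i ∈ T <;> simp_all

lemma ne_zero' (hg : OnlyTrivial g) (hk : 3 ≤ Fintype.card ι) (i : ι) : g i ≠ 0 := by
  intro h
  have h1 : 1 < Fintype.card ι := by omega
  obtain ⟨j, hj⟩ := Fintype.exists_ne_of_one_lt_card h1 i
  have := hg (fun l => if l = i then 1 else 0) (by intro l; by_cases hl : l = i <;> simp [hl])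
    (by simp [h])
  rcases this with h | h | h
  · have := h i; simp at this
  · have := h j; simp [hj] at this
  · have := h i; simp at this

/-- No element of `-U` occurs in `U`. -/
lemma ne_neg (hg : OnlyTrivial g) (h2 : ∀ i, g i ≠ - g i) (hk : 3 ≤ Fintype.card ι) (i j : ι) :
    g i ≠ - g j := by
  intro h
  by_cases hij : i = j
  · subst hij
    exact h2 i h
  have hc : ∃ l, l ≠ i ∧ l ≠ j := by
    by_contra hcon
    push Not at hcon
    have : (Finset.univ : Finset ι) ⊆ {i, j} := by
      intro l _
      by_cases hl : l = i
      · simp [hl]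
      · simp [hcon l hl]
    have h3 := Finset.card_le_card this
    have h4 : ({i, j} : Finset ι).card ≤ 2 := Finset.card_le_two
    rw [Finset.card_univ] at h3
    omega
  obtain ⟨l, hli, hlj⟩ := hc
  have := hg (fun m => (if m = i then 1 else 0) + (if m = j then 1 else 0))
    (by
      intro m
      by_cases h1 : m = i
      · subst h1
        simp [hij]
      · by_cases h2 : m = j
        · subst h2
          simp [h1]
        · simp [h1, h2])
    (by
      simp only [add_smul, ite_smul, one_smul, zero_smul, Finset.sum_add_distrib,
        Finset.sum_ite_eq', Finset.mem_univ, if_true]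
      rw [h]
      simp)
  rcases this with h | h | h
  · have := h i; simp [hij] at this
  · have := h l; simp [hli, hlj] at this
  · have := h i; simp [hij] at this

lemma pair_isAtom (hg : OnlyTrivial g) (hk : 3 ≤ Fintype.card ι) (i : ι) :
    IsAtom' ({g i, - g i} : Multiset G) := by
  refine ⟨?_, ?_, ?_⟩
  · intro h
    have := congrArg Multiset.card h
    simp at this
  · simp
  · intro V hV hs
    have hc := Multiset.card_le_card hV
    simp only [Multiset.insert_eq_cons, Multiset.card_cons, Multiset.card_singleton] at hc
    have h3 : Multiset.card V = 0 ∨ Multiset.card V = 1 ∨ Multiset.card V = 2 := by omega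
    rcases h3 with h3 | h3 | h3
    · left
      exact Multiset.card_eq_zero.1 h3
    · exfalso
      obtain ⟨x, rfl⟩ := Multiset.card_eq_one.1 h3
      have hx : x ∈ ({g i, - g i} : Multiset G) := Multiset.mem_of_le hV (by simp)
      simp only [Multiset.sum_singleton] at hs
      subst hs
      simp only [Multiset.insert_eq_cons, Multiset.mem_cons, Multiset.mem_singleton] at hx
      rcases hx with hx | hx
      · exact ne_zero' hg hk i hx.symm
      · exact ne_zero' hg hk i (by simpa using hx.symm)
    · right
      exact Multiset.eq_of_le_of_card_le hV (by simp [h3])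

lemma pos_isAtom (hg : OnlyTrivial g) (hk : 3 ≤ Fintype.card ι) (h0 : ∑ i, g i = 0) :
    IsAtom' (Pos g) := by
  refine ⟨?_, ?_, ?_⟩
  · intro h
    have := congrArg Multiset.card h
    simp [Pos] at this
    omega
  · exact h0
  · intro V hV hs
    obtain ⟨W, hW, rfl⟩ := exists_le_of_le_map g _ _ hV
    let S : Finset ι := ⟨W, Multiset.nodup_of_le hW Finset.univ.nodup⟩
    have h1 : (S.val.map g + (∅ : Finset ι).val.map (fun i => - g i)).sum = 0 := by
      simpa [S] using hs
    rcases zero_sum_cases hg h1 with h | ⟨h, _⟩ | ⟨h, _⟩
    · left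
      have : S.val = 0 := by rw [h]; rfl
      simp only [S] at this
      rw [this]; rfl
    · right
      have : S.val = Finset.univ.val := by rw [h]
      simp only [S] at this
      rw [this]; rfl
    · left
      have : S.val = 0 := by rw [h]; rfl
      simp only [S] at this
      rw [this]; rfl

lemma neg_isAtom (hg : OnlyTrivial g) (hk : 3 ≤ Fintype.card ι) (h0 : ∑ i, g i = 0) :
    IsAtom' (Neg g) := by
  refine ⟨?_, ?_, ?_⟩
  · intro h
    have := congrArg Multiset.card h
    simp [Neg] at this
    omega
  · have : (Neg g).sum = - ∑ i, g i := by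
      rw [← Finset.sum_neg_distrib]; rfl
    rw [this, h0, neg_zero]
  · intro V hV hs
    obtain ⟨W, hW, rfl⟩ := exists_le_of_le_map (fun i => - g i) _ _ hV
    let T : Finset ι := ⟨W, Multiset.nodup_of_le hW Finset.univ.nodup⟩
    have h1 : ((∅ : Finset ι).val.map g + T.val.map (fun i => - g i)).sum = 0 := by
      simpa [T] using hs
    rcases zero_sum_cases hg h1 with h | ⟨_, h⟩ | ⟨_, h⟩
    · left
      have : T.val = 0 := by rw [← h]; rfl
      simp only [T] at this
      rw [this]; rfl
    · left
      have : T.val = 0 := by rw [h]; rfl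
      simp only [T] at this
      rw [this]; rfl
    · right
      have : T.val = Finset.univ.val := by rw [h]
      simp only [T] at this
      rw [this]; rfl

/-- The atoms dividing `U(-U)`. -/
lemma atom_cases [DecidableEq G] (hg : OnlyTrivial g) {U : Multiset G} (hU : IsAtom' U)
    (hle : U ≤ Pos g + Neg g) : U = Pos g ∨ U = Neg g ∨ ∃ i, U = {g i, - g i} := by
  obtain ⟨S, T, rfl⟩ := le_parts g hle
  rcases zero_sum_cases hg hU.2.1 with h | ⟨h1, h2⟩ | ⟨h1, h2⟩
  · right; right
    subst h
    have hne : S.Nonempty := by
      by_contra hS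
      rw [Finset.not_nonempty_iff_eq_empty] at hS
      subst hS
      exact hU.1 (by simp)
    obtain ⟨i, hi⟩ := hne
    refine ⟨i, ?_⟩
    have hle2 : ({g i, - g i} : Multiset G) ≤ S.val.map g + S.val.map (fun i => - g i) := by
      have e : ({g i, - g i} : Multiset G) =
          ({i} : Multiset ι).map g + ({i} : Multiset ι).map (fun i => - g i) := by
        simp
      rw [e]
      apply add_le_add
      · exact Multiset.map_le_map (by simpa using hi)
      · exact Multiset.map_le_map (by simpa using hi)
    rcases hU.2.2 _ hle2 (by simp) with h | h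
    · exfalso
      have := congrArg Multiset.card h
      simp at this
    · exact h.symm
  · left
    subst h1 h2
    simp [Pos]
  · right; left
    subst h1 h2
    simp [Neg]

/-- Every factorization of `U(-U)` has length `2` or `|U|`. -/
theorem lengths [DecidableEq G] (hg : OnlyTrivial g) (h2 : ∀ i, g i ≠ - g i)
    (hk : 3 ≤ Fintype.card ι) (F : Multiset (Multiset G))
    (hF : ∀ U ∈ F, IsAtom' U) (hs : F.sum = Pos g + Neg g) :
    Multiset.card F = 2 ∨ Multiset.card F = Fintype.card ι := by
  have hle : ∀ U ∈ F, U ≤ Pos g + Neg g := by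
    intro U hU
    rw [← hs]
    exact Multiset.single_le_sum (fun _ _ => bot_le) U hU
  have hcases : ∀ U ∈ F, U = Pos g ∨ U = Neg g ∨ ∃ i, U = {g i, - g i} :=
    fun U hU => atom_cases hg (hF U hU) (hle U hU)
  have hcard : (F.map Multiset.card).sum = 2 * Fintype.card ι := by
    have h1 := congrArg (Multiset.cardHom (α := G)) hs
    rw [map_multiset_sum] at h1
    have h2 : (Multiset.cardHom (α := G)) (Pos g + Neg g) = 2 * Fintype.card ι := by
      change Multiset.card (Pos g + Neg g) = _
      simp only [Multiset.card_add, Pos, Neg, Multiset.card_map]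
      have : Multiset.card (Finset.univ : Finset ι).val = Fintype.card ι := rfl
      omega
    rw [h2] at h1
    exact h1
  by_cases hex : Pos g ∈ F ∨ Neg g ∈ F
  · left
    -- then all members have length `card ι`
    have hall : ∀ U ∈ F, Multiset.card U = Fintype.card ι := by
      intro U hU
      rcases hcases U hU with h | h | ⟨i, h⟩
      · rw [h]; simp [Pos]
      · rw [h]; simp [Neg]
      · exfalso
        rcases hex with hp | hp
        · -- `Pos g + {g i, -g i} ≤ Pos g + Neg g`
          have hne : U ≠ Pos g := by
            rw [h]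
            intro he
            have := congrArg Multiset.card he
            simp [Pos] at this
            omega
          obtain ⟨F', hF'⟩ := Multiset.exists_cons_of_mem hp
          rw [hF', Multiset.mem_cons] at hU
          have hU' : U ∈ F' := hU.resolve_left hne
          have hs' : F'.sum = Neg g := by
            rw [hF', Multiset.sum_cons] at hs
            exact add_left_cancel hs
          have hle' : U ≤ Neg g := by
            rw [← hs']
            exact Multiset.single_le_sum (fun _ _ => bot_le) U hU'
          have hmem : g i ∈ Neg g := Multiset.mem_of_le hle' (by rw [h]; simp)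
          simp only [Neg, Multiset.mem_map, Finset.mem_val, Finset.mem_univ, true_and] at hmem
          obtain ⟨j, hj⟩ := hmem
          exact ne_neg hg h2 hk i j hj.symm
        · have hne : U ≠ Neg g := by
            rw [h]
            intro he
            have := congrArg Multiset.card he
            simp [Neg] at this
            omega
          obtain ⟨F', hF'⟩ := Multiset.exists_cons_of_mem hp
          rw [hF', Multiset.mem_cons] at hU
          have hU' : U ∈ F' := hU.resolve_left hne
          have hs' : F'.sum = Pos g := by
            rw [hF', Multiset.sum_cons, add_comm (Pos g)] at hs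
            exact add_left_cancel hs
          have hle' : U ≤ Pos g := by
            rw [← hs']
            exact Multiset.single_le_sum (fun _ _ => bot_le) U hU'
          have hmem : - g i ∈ Pos g := Multiset.mem_of_le hle' (by rw [h]; simp)
          simp only [Pos, Multiset.mem_map, Finset.mem_val, Finset.mem_univ, true_and] at hmem
          obtain ⟨j, hj⟩ := hmem
          exact ne_neg hg h2 hk j i hj
    have : (F.map Multiset.card).sum = Multiset.card F * Fintype.card ι := by
      rw [Multiset.map_congr rfl hall]
      simp
    rw [this] at hcard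
    exact Nat.eq_of_mul_eq_mul_right (by omega) hcard
  · right
    push Not at hex
    have hall : ∀ U ∈ F, Multiset.card U = 2 := by
      intro U hU
      rcases hcases U hU with h | h | ⟨i, h⟩
      · exact absurd (h ▸ hU) hex.1
      · exact absurd (h ▸ hU) hex.2
      · rw [h]; simp
    have : (F.map Multiset.card).sum = Multiset.card F * 2 := by
      rw [Multiset.map_congr rfl hall]
      simp
    omega

lemma sum_pairs (g : ι → G) :
    (Finset.univ.val.map (fun i => ({g i, - g i} : Multiset G))).sum = Pos g + Neg g := by
  have e : (fun i => ({g i, - g i} : Multiset G)) = fun i => ({g i} : Multiset G) + {- g i} := by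
    funext i; rfl
  rw [e, Multiset.sum_map_add]
  congr 1
  · have := Multiset.sum_map_singleton (Finset.univ.val.map g)
    rw [Multiset.map_map] at this
    exact this
  · have := Multiset.sum_map_singleton (Finset.univ.val.map (fun i => - g i))
    rw [Multiset.map_map] at this
    exact this

end Pool.Agent.Helper15.ZeroSumUV
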